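import Pool.Agent.Q196.XG.MW

/-! A domain with connected boundary, on which every map to the circle has an argument, and with a
defining function without critical points of intermediate index, is a ball. -/

set_option autoImplicit false
set_option linter.unusedSectionVars false

open scoped Topology ContDiff Manifold RealInnerProductSpace Gradient
open Set Metric Filter Bundle Module Pool.Agent.Q196.XB Pool.Agent.Q196.XF Asymptotics

noncomputable section

namespace Pool.Agent.Q196.XG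

variable {E : Type} [NormedAddCommGroup E] [InnerProductSpace ℝ E] [FiniteDimensional ℝ E]
  {N : Type} [TopologicalSpace N] [ChartedSpace E N] [IsManifold 𝓘(ℝ, E) ∞ N]

/-- a ramp -/
def ramp (ε s : ℝ) : ℝ := max 0 (min 1 ((s + ε) / (2 * ε)))

lemma ramp_cont (ε : ℝ) : Continuous (ramp ε) := by
  unfold ramp
  fun_prop

lemma ramp_neg {ε s : ℝ} (hε : 0 < ε) (h : s ≤ -ε) : ramp ε s = 0 := by
  unfold ramp
  apply max_eq_left
  refine (min_le_right _ _).trans ?_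
  exact div_nonpos_of_nonpos_of_nonneg (by linarith) (by linarith)

lemma ramp_pos {ε s : ℝ} (hε : 0 < ε) (h : ε ≤ s) : ramp ε s = 1 := by
  unfold ramp
  have h1 : 1 ≤ (s + ε) / (2 * ε) := by
    rw [le_div_iff₀ (by linarith)]
    linarith
  rw [min_eq_left h1]
  exact max_eq_right zero_le_one

lemma ramp_exp {ε s : ℝ} (hε : 0 < ε) (h : ε ≤ |s|) :
    Complex.exp (2 * Real.pi * (ramp ε s : ℝ) * Complex.I) = 1 := by
  rcases le_abs.1 h with h1 | h1
  · rw [ramp_pos hε h1]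
    push_cast
    rw [mul_one, Complex.exp_two_pi_mul_I]
  · rw [ramp_neg hε (by linarith)]
    simp

section top

variable {u : N → E} {ρ ρ' : N → ℝ} {p : N} {σ : E → N} {r : ℝ} {A : E →L[ℝ] E}

/-- a small ball around the critical point in the interior of the domain -/
lemma Top.small (T : Top u ρ ρ' p σ r A) : ∃ a, 0 < a ∧ a < r ∧
    ∀ z ∈ closedBall (u p) a, ρ' (σ z) < 0 := by
  have hz₀r : u p ∈ ball (u p) r := mem_ball_self T.rpos
  have hr := T.rpos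
  have h1 : ContinuousAt (fun z => ρ' (σ z)) (u p) :=
    ContinuousAt.comp (g := ρ') T.smooth.continuous.continuousAt (T.sec.contAt hz₀r)
  have h2 : ∀ᶠ z in 𝓝 (u p), ρ' (σ z) < 0 := h1.eventually_lt_const (by
    show ρ' (σ (u p)) < 0
    rw [T.σp]; exact T.neg)
  obtain ⟨s, hs, hs'⟩ := Metric.eventually_nhds_iff_ball.1 h2
  refine ⟨min s r / 2, by positivity, ?_, fun z hz => hs' z ?_⟩
  · have := min_le_right s r
    linarith
  · have h3 := mem_closedBall.1 hz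
    have h4 := min_le_left s r
    have h5 : 0 < min s r := lt_min hs hr
    rw [mem_ball]
    linarith

/-- **The highest critical point does not have coindex one if the boundary is connected.** -/
theorem Top.no_neg [T2Space N] [SigmaCompactSpace N]
    (hu : IsLocalDiffeomorph 𝓘(ℝ, E) 𝓘(ℝ, E) ∞ u) (hdim : 4 ≤ finrank ℝ E)
    (T : Top u ρ ρ' p σ r A) (D : MW u ρ) (hL : Lifts {x | ρ x ≤ 0})
    (hX : IsPreconnected {x | ρ x = 0}) {e : E} {α β : ℝ} (he : ‖e‖ = 1) (hAe : A e = α • e)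
    (hα : 0 < α) (hβ : 0 < β) (h : ∀ y, ⟪e, y⟫ = 0 → ⟪A y, y⟫ ≤ -(β * ‖y‖ ^ 2)) : False := by
  classical
  have huc : Continuous u := hu.contMDiff.continuous
  have hρc := T.smooth.continuous
  have hset : {x | ρ' x ≤ 0} = {x | ρ x ≤ 0} := by
    ext x; exact T.le x
  have hset0 : {x | ρ' x = 0} = {x | ρ x = 0} := by
    ext x; exact T.zero x
  have hcomp' : IsCompact {x | ρ' x ≤ 0} := by rw [hset]; exact D.comp
  have hL' : Lifts {x | ρ' x ≤ 0} := by rw [hset]; exact hL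
  have hX' : IsPreconnected {x | ρ' x = 0} := by rw [hset0]; exact hX
  have hp0 := T.neg
  have htop := T.top
  have hσ := T.sec
  set z₀ := u p with hz₀
  have hee : ⟪e, e⟫ = (1:ℝ) := by rw [real_inner_self_eq_norm_sq, he]; norm_num
  -- the quadratic form
  have hQ : ∀ w : E, ⟪A w, w⟫ = α * ⟪e, w⟫ ^ 2 + ⟪A (pe e w), pe e w⟫ := by
    intro w
    have h1 : ⟪e, pe e w⟫ = 0 := pe_orth he w
    calc ⟪A w, w⟫ = ⟪A (⟪e, w⟫ • e + pe e w), ⟪e, w⟫ • e + pe e w⟫ := by rw [← pe_split e w]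
      _ = α * ⟪e, w⟫ ^ 2 + ⟪A (pe e w), pe e w⟫ := by
        simp only [map_add, map_smul, inner_add_left, inner_add_right, inner_smul_left,
          inner_smul_right, conj_trivial]
        rw [T.sym (pe e w) e, hAe]
        simp only [inner_smul_left, conj_trivial, h1, hee]
        ring
  have hQle : ∀ w : E, ⟪A w, w⟫ ≤ α * ⟪e, w⟫ ^ 2 - β * ‖pe e w‖ ^ 2 := by
    intro w
    rw [hQ w]
    have := h (pe e w) (pe_orth he w)
    linarith
  obtain ⟨a, ha, har, hneg⟩ := T.small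
  have hKsub : closedBall z₀ a ⊆ ball z₀ r := closedBall_subset_ball har
  set K : Set N := σ '' closedBall z₀ a with hK
  have hKc : IsCompact K := (isCompact_closedBall z₀ a).image_of_continuousOn (hσ.cont.mono hKsub)
  have hσa : Sec u (ball z₀ a) σ := hσ.mono huc isOpen_ball (ball_subset_closedBall.trans hKsub)
  set L : Set N := (σ '' ball z₀ a)ᶜ with hLd
  have hLc : IsClosed L := hσa.image.isClosed_compl
  -- parameters
  obtain ⟨ε, hε, hε1, hε2⟩ : ∃ ε : ℝ, 0 < ε ∧ (α + β) * ε ^ 2 ≤ β * a ^ 2 / 2 ∧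
      α * ε ^ 2 ≤ -(ρ' p) := by
    have e1 : ∀ᶠ s in 𝓝[>] (0:ℝ), (α + β) * s ^ 2 < β * a ^ 2 / 2 := by
      refine nhdsWithin_le_nhds (ev_lt (f := fun b : ℝ => (α + β) * b ^ 2) (by fun_prop) ?_)
      simp only [ne_eq, OfNat.ofNat_ne_zero, not_false_eq_true, zero_pow, mul_zero]
      positivity
    have e2 : ∀ᶠ s in 𝓝[>] (0:ℝ), α * s ^ 2 < -(ρ' p) := by
      refine nhdsWithin_le_nhds (ev_lt (f := fun b : ℝ => α * b ^ 2) (by fun_prop) ?_)
      simp only [ne_eq, OfNat.ofNat_ne_zero, not_false_eq_true, zero_pow, mul_zero]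
      linarith
    obtain ⟨s, ⟨h2, h3⟩, h5⟩ := ((e1.and e2).and self_mem_nhdsWithin).exists
    exact ⟨s, h5, h2.le, h3.le⟩
  have hεa : ε < a := by
    have h1 : ε ^ 2 < a ^ 2 := by
      have h2 : β * ε ^ 2 ≤ β * a ^ 2 / 2 := by nlinarith [sq_nonneg ε]
      have h3 : 0 < β * a ^ 2 := by positivity
      have h4 : β * ε ^ 2 < β * a ^ 2 := by linarith
      exact lt_of_mul_lt_mul_left h4 hβ.le
    exact lt_of_pow_lt_pow_left₀ 2 ha.le h1
  set c₂ : ℝ := ρ' p + α * ε ^ 2 / 2 with hc₂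
  have hαε : 0 < α * ε ^ 2 := by positivity
  have hc₂0 : c₂ < 0 := by rw [hc₂]; linarith
  set c₁ : ℝ := max ((ρ p + ρ' p) / 2) (ρ' p - β * a ^ 2 / 8) with hc₁d
  have hβa : 0 < β * a ^ 2 := by positivity
  have hc₁ : ρ p < c₁ := lt_of_lt_of_le (by linarith) (le_max_left _ _)
  have hc₁' : c₁ < ρ' p := max_lt (by linarith) (by linarith)
  have hc₁b : ρ' p - β * a ^ 2 / 8 ≤ c₁ := le_max_right _ _
  have hc₁0 : c₁ < 0 := hc₁'.trans hp0
  -- the coordinate
  set S : N → ℝ := fun x => ⟪e, u x - z₀⟫ with hS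
  have hSc : Continuous S := continuous_const.inner (huc.sub continuous_const)
  have hvalK : ∀ z ∈ closedBall z₀ a, ρ' (σ z) = ρ' p + ⟪A (z - z₀), z - z₀⟫ / 2 ∧
      S (σ z) = ⟪e, z - z₀⟫ := by
    intro z hz
    refine ⟨T.quad z (hKsub hz), ?_⟩
    simp only [hS]
    rw [hσ.right z (hKsub hz)]
  -- on the boundary of the ball
  have hbd : ∀ x ∈ K, x ∈ L → c₁ ≤ ρ' x → ε ≤ |S x| := by
    rintro _ ⟨z, hz, rfl⟩ hxL hx
    obtain ⟨h1, h2⟩ := hvalK z hz
    have hza : ‖z - z₀‖ = a := by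
      refine le_antisymm (mem_closedBall_iff_norm.1 hz) ?_
      by_contra hlt
      exact hxL ⟨z, mem_ball_iff_norm.2 (not_le.1 hlt), rfl⟩
    rw [h1] at hx
    rw [h2]
    by_contra hlt
    push Not at hlt
    have h3 := hQle (z - z₀)
    have h4 := pe_norm_sq he (z - z₀)
    rw [hza] at h4
    have h5 : ⟪e, z - z₀⟫ ^ 2 ≤ ε ^ 2 := by
      rw [← sq_abs]
      exact pow_le_pow_left₀ (abs_nonneg _) hlt.le 2
    have h6 : β * ‖pe e (z - z₀)‖ ^ 2 = β * a ^ 2 - β * ⟪e, z - z₀⟫ ^ 2 := by rw [h4]; ring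
    have h7 : (α + β) * ⟪e, z - z₀⟫ ^ 2 ≤ (α + β) * ε ^ 2 := by gcongr
    rw [h6] at h3
    nlinarith
  -- above the critical level
  have hab : ∀ x ∈ K, c₂ ≤ ρ' x → ε ≤ |S x| := by
    rintro _ ⟨z, hz, rfl⟩ hx
    obtain ⟨h1, h2⟩ := hvalK z hz
    rw [h1, hc₂] at hx
    rw [h2]
    have h3 := hQle (z - z₀)
    have h4 : 0 ≤ β * ‖pe e (z - z₀)‖ ^ 2 := by positivity
    have h5 : α * ε ^ 2 ≤ α * ⟪e, z - z₀⟫ ^ 2 := by linarith
    have h6 : ε ^ 2 ≤ |⟪e, z - z₀⟫| ^ 2 := by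
      rw [sq_abs]
      exact le_of_mul_le_mul_left h5 hα
    exact le_of_sq_le_sq h6 (abs_nonneg _)
  -- the map above the lower level
  set F₁ : N → ℂ := fun x => if x ∈ K then
    Complex.exp (2 * Real.pi * (ramp ε (S x) : ℝ) * Complex.I) else 1 with hF₁
  have hK1 : ∀ x ∈ K, F₁ x = Complex.exp (2 * Real.pi * (ramp ε (S x) : ℝ) * Complex.I) :=
    fun x hx => by simp only [hF₁, if_pos hx]
  have hL1 : ∀ x ∈ L, c₁ ≤ ρ' x → F₁ x = 1 := by
    intro x hx hxc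
    by_cases hxK : x ∈ K
    · rw [hK1 x hxK]
      exact ramp_exp hε (hbd x hxK hx hxc)
    · simp only [hF₁, if_neg hxK]
  have hup1 : ∀ x, c₂ ≤ ρ' x → F₁ x = 1 := by
    intro x hx
    by_cases hxK : x ∈ K
    · rw [hK1 x hxK]
      exact ramp_exp hε (hab x hxK hx)
    · simp only [hF₁, if_neg hxK]
  have hWcl : IsClosed {x | c₁ ≤ ρ' x ∧ ρ' x ≤ 0} :=
    (isClosed_le continuous_const hρc).inter (isClosed_le hρc continuous_const)
  have hKL : ∀ x : N, x ∈ K ∨ x ∈ L := by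
    intro x
    by_cases hx : x ∈ σ '' ball z₀ a
    · exact Or.inl (image_mono ball_subset_closedBall hx)
    · exact Or.inr hx
  have hexc : Continuous fun x => Complex.exp (2 * Real.pi * (ramp ε (S x) : ℝ) * Complex.I) := by
    have := (ramp_cont ε).comp hSc
    have h2 : Continuous fun x => ramp ε (S x) := this
    fun_prop
  have hF₁c : ContinuousOn F₁ {x | c₁ ≤ ρ' x ∧ ρ' x ≤ 0} := by
    have hcov : {x | c₁ ≤ ρ' x ∧ ρ' x ≤ 0} = ({x | c₁ ≤ ρ' x ∧ ρ' x ≤ 0} ∩ K) ∪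
        ({x | c₁ ≤ ρ' x ∧ ρ' x ≤ 0} ∩ L) := by
      rw [← inter_union_distrib_left]
      ext x
      simp only [mem_inter_iff, mem_union]
      exact ⟨fun hx => ⟨hx, hKL x⟩, fun hx => hx.1⟩
    rw [hcov]
    exact ContinuousOn.union_of_isClosed (hexc.continuousOn.congr fun x hx => hK1 x hx.2)
      (continuousOn_const.congr fun x hx => hL1 x hx.2 hx.1.1) (hWcl.inter hKc.isClosed)
      (hWcl.inter hLc)
  have hF₁1 : ∀ x, c₁ ≤ ρ' x → ‖F₁ x‖ = 1 := by
    intro x hx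
    rcases hKL x with h1 | h1
    · rw [hK1 x h1, show (2 * Real.pi * (ramp ε (S x) : ℝ) * Complex.I : ℂ) =
          ((2 * Real.pi * ramp ε (S x) : ℝ) : ℂ) * Complex.I by push_cast; ring]
      exact Complex.norm_exp_ofReal_mul_I _
    · rw [hL1 x h1 hx, norm_one]
  -- extension below
  obtain ⟨D', -⟩ := T.lower hu D hc₁ hc₁'
  have hz : ∀ x, ρ' x - c₁ = 0 → c₁ ≤ ρ' x ∧ ρ' x ≤ 0 := fun x hx =>
    ⟨by linarith, by linarith⟩
  obtain ⟨F₂, hF₂, hF₂1, hF₂e⟩ := D'.ext hu hdim (f := F₁)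
    (hF₁c.mono fun x (hx : ρ' x - c₁ = 0) => hz x hx) (fun x hx => hF₁1 x (hz x hx).1)
  set F : N → ℂ := fun x => if ρ' x - c₁ ≤ 0 then F₂ x else F₁ x with hF
  have e2 : ∀ x, ρ' x - c₁ ≤ 0 → F x = F₂ x := fun x hx => by simp only [hF, if_pos hx]
  have e1 : ∀ x, c₁ ≤ ρ' x → F x = F₁ x := by
    intro x hx
    by_cases h : ρ' x - c₁ ≤ 0
    · rw [e2 x h, hF₂e x (le_antisymm h (by linarith))]
    · simp only [hF, if_neg h]
  have hcov : {x | ρ' x ≤ 0} = {x | ρ' x - c₁ ≤ 0} ∪ {x | c₁ ≤ ρ' x ∧ ρ' x ≤ 0} := by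
    ext x
    simp only [mem_setOf_eq, mem_union]
    constructor
    · intro h
      rcases le_total (ρ' x) c₁ with h1 | h1
      · exact Or.inl (by linarith)
      · exact Or.inr ⟨h1, h⟩
    · rintro (h | h)
      · linarith
      · exact h.2
  obtain ⟨θ, hθ, hθ'⟩ := hL' F (by
      rw [hcov]
      exact ContinuousOn.union_of_isClosed (hF₂.congr e2) (hF₁c.congr fun x hx => e1 x hx.1)
        (isClosed_le (hρc.sub continuous_const) continuous_const) hWcl) (by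
      intro x hx
      rcases le_total (ρ' x) c₁ with h1 | h1
      · rw [e2 x (by linarith)]
        exact hF₂1 x (by linarith)
      · rw [e1 x h1]
        exact hF₁1 x h1)
  -- above the critical level the argument is an integer
  have hW' : IsPreconnected {x | c₂ ≤ ρ' x ∧ ρ' x ≤ 0} := by
    refine pre_slab hρc (hcomp'.of_isClosed_subset ((isClosed_le continuous_const hρc).inter
      (isClosed_le hρc continuous_const)) fun x hx => hx.2) hX' hc₂0.le fun x hx1 hx2 hmax => ?_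
    have h1 := gr_localMax hu T.smooth hmax
    have h2 := T.crit hc₁ x hx2.le (by rw [hc₂] at hx1; linarith) h1
    rw [h2, hc₂] at hx1
    linarith
  have hc₁₂ : c₁ ≤ c₂ := by rw [hc₂]; linarith
  have kW := int_const hW' (h := fun x => θ x / (2 * Real.pi) - 0)
    (((hθ.mono fun x hx => hx.2).div_const _).sub continuousOn_const)
    (fun x hx => exp_int (by
      rw [← hθ' x hx.2, e1 x (hc₁₂.trans hx.1), hup1 x hx.1]; simp))
  -- the segment
  set γ : ℝ → N := fun s => σ (z₀ + s • e) with hγ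
  have hγm : ∀ s ∈ Icc (-a) a, z₀ + s • e ∈ closedBall z₀ a := by
    intro s hs
    rw [mem_closedBall_iff_norm, add_sub_cancel_left, norm_smul, he, mul_one, Real.norm_eq_abs]
    exact abs_le.2 hs
  have hγc : ContinuousOn γ (Icc (-a) a) :=
    hσ.cont.comp (by fun_prop) fun s hs => hKsub (hγm s hs)
  have hγv : ∀ s ∈ Icc (-a) a, ρ' (γ s) = ρ' p + α * s ^ 2 / 2 ∧ S (γ s) = s := by
    intro s hs
    obtain ⟨h1, h2⟩ := hvalK _ (hγm s hs)
    rw [add_sub_cancel_left] at h1 h2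
    rw [map_smul, inner_smul_left, inner_smul_right, hAe, inner_smul_left, hee] at h1
    rw [inner_smul_right, hee, mul_one] at h2
    refine ⟨?_, h2⟩
    show ρ' (σ (z₀ + s • e)) = _
    rw [h1]
    simp only [conj_trivial]
    ring
  have hγK : ∀ s ∈ Icc (-a) a, γ s ∈ K := fun s hs => ⟨_, hγm s hs, rfl⟩
  have hγ0 : ∀ s ∈ Icc (-a) a, ρ' (γ s) ≤ 0 := fun s hs => (hneg _ (hγm s hs)).le
  have kS := int_const (isPreconnected_Icc.image γ hγc)
    (h := fun x => θ x / (2 * Real.pi) - ramp ε (S x))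
    (((hθ.mono (by
      rintro _ ⟨s, hs, rfl⟩
      exact hγ0 s hs)).div_const _).sub ((ramp_cont ε).comp hSc).continuousOn) (by
      rintro _ ⟨s, hs, rfl⟩
      refine exp_int ?_
      have h1 : c₁ ≤ ρ' (γ s) := by
        rw [(hγv s hs).1]
        have : 0 ≤ α * s ^ 2 / 2 := by positivity
        linarith
      rw [← hθ' _ (hγ0 s hs), e1 _ h1, hK1 _ (hγK s hs)])
  have hm : -a ∈ Icc (-a) a := ⟨le_rfl, by linarith⟩
  have hp : a ∈ Icc (-a) a := ⟨by linarith, le_rfl⟩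
  have g1 := kS (γ (-a)) ⟨-a, hm, rfl⟩ (γ a) ⟨a, hp, rfl⟩
  have hε2' : α * ε ^ 2 ≤ α * a ^ 2 := by gcongr
  have g2 := kW (γ (-a)) ⟨by rw [(hγv _ hm).1, hc₂]; rw [neg_sq]; linarith, hγ0 _ hm⟩ (γ a)
    ⟨by rw [(hγv _ hp).1, hc₂]; linarith, hγ0 _ hp⟩
  have g3 : ramp ε (S (γ (-a))) = 0 := by
    rw [(hγv _ hm).2]; exact ramp_neg hε (by linarith)
  have g4 : ramp ε (S (γ a)) = 1 := by
    rw [(hγv _ hp).2]; exact ramp_pos hε hεa.le
  simp only [g3, g4] at g1 g2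
  linarith

end top

theorem MW.ball_aux [T2Space N] [SigmaCompactSpace N] {u : N → E}
    (hu : IsLocalDiffeomorph 𝓘(ℝ, E) 𝓘(ℝ, E) ∞ u) (hdim : 4 ≤ finrank ℝ E) :
    ∀ (n : ℕ) (ρ : N → ℝ), MW u ρ → {x | ρ x ≤ 0 ∧ gr u ρ x = 0}.ncard = n →
      {x | ρ x ≤ 0}.Nonempty → IsPreconnected {x | ρ x ≤ 0} → Lifts {x | ρ x ≤ 0} →
      IsPreconnected {x | ρ x = 0} → IsBall E {x | ρ x ≤ 0} := by
  intro n
  induction n using Nat.strong_induction_on with
  | _ n ih =>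
  intro ρ D hn hne hconn hL hX
  haveI : LocallyCompactSpace N := ChartedSpace.locallyCompactSpace E N
  haveI : NormalSpace N := inferInstance
  obtain ⟨ρ', p, σ, r, A, T⟩ := D.exists_top hu hne
  have hρ' := T.smooth
  have hρc := hρ'.continuous
  have hset : {x | ρ' x ≤ 0} = {x | ρ x ≤ 0} := by
    ext x; exact T.le x
  have hset0 : {x | ρ' x = 0} = {x | ρ x = 0} := by
    ext x; exact T.zero x
  have hcomp' : IsCompact {x | ρ' x ≤ 0} := by rw [hset]; exact D.comp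
  have hconn' : IsPreconnected {x | ρ' x ≤ 0} := by rw [hset]; exact hconn
  have hL' : Lifts {x | ρ' x ≤ 0} := by rw [hset]; exact hL
  have hX' : IsPreconnected {x | ρ' x = 0} := by rw [hset0]; exact hX
  have hp0' := T.neg
  have htop := T.top
  have hr := T.rpos
  rw [← hset]
  rcases idx_cases T.sym T.nd T.idx with ⟨β, hβ, hpos⟩ | ⟨e, α, β, he, hAe, hα, hβ, hpos⟩ |
    ⟨e, α, β, he, hAe, hα, hβ, hpos⟩
  · exact top_min hu hρ' hcomp' hconn' hr T.sec T.σp T.quad T.sym hβ hpos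
      (c₁ := (ρ p + ρ' p) / 2) (by linarith) hp0' (T.crit (by linarith))
  swap
  · exact (T.no_neg hu hdim D hL hX he hAe hα hβ hpos).elim
  -- the saddle
  have S : Saddle u ρ' p σ r e α β (‖A‖ + 1) A := by
    refine ⟨hr, T.sec, T.σp, T.quad, T.sym, he, hAe, hα, hpos, hβ, ?_, by positivity⟩
    intro y
    calc ⟪A y, y⟫ ≤ ‖A y‖ * ‖y‖ := real_inner_le_norm _ _
      _ ≤ (‖A‖ * ‖y‖) * ‖y‖ := by gcongr; exact A.le_opNorm y
      _ = ‖A‖ * ‖y‖ ^ 2 := by ring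
      _ ≤ (‖A‖ + 1) * ‖y‖ ^ 2 := by gcongr; linarith
  set a := r / 2 with ha
  have ha0 : 0 < a := by positivity
  have har : a < r := by rw [ha]; linarith
  set c₁ := max ((ρ p + ρ' p) / 2) (ρ' p - α * a ^ 2 / 4) with hc₁d
  have hαa : 0 < α * a ^ 2 := by positivity
  have hc₁ : c₁ < ρ' p := max_lt (by linarith) (by linarith)
  have hc₁' : ρ p < c₁ := lt_of_lt_of_le (by linarith) (le_max_left _ _)
  have hac : 2 * (ρ' p - c₁) < α * a ^ 2 := by
    have := le_max_right ((ρ p + ρ' p) / 2) (ρ' p - α * a ^ 2 / 4)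
    rw [← hc₁d] at this
    linarith
  have hcrit := T.crit hc₁'
  have hc₁0 : c₁ < 0 := hc₁.trans hp0'
  have hcompc : IsCompact {x | ρ' x ≤ c₁} := hcomp'.of_isClosed_subset
    (isClosed_le hρ'.continuous continuous_const) (fun x (hx : ρ' x ≤ c₁) => hx.trans hc₁0.le)
  obtain ⟨b, X, Fl, C⟩ := exists_cut hu hρ' hcomp' S hc₁ hp0' hcrit ha0 har hac
  obtain ⟨O₁, O₂, hO₁, hO₂, hd, hcov, hm, hp, hpre1, hpre2⟩ := C.split hconn' hL'
  have hl2 := C.lifts_piece hL' hO₁ hO₂ hd hcov hm hp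
  have hl1 := C.flip.lifts_piece hL' hO₂ hO₁ hd.symm (fun x hx => (hcov x hx).symm)
    (by rw [neg_neg]; exact hp) hm
  have hface : ∀ e' : E, (e' = e ∨ e' = -e) → ρ' (σ (u p + a • e')) ≤ c₁ := by
    intro e' he'
    have hn : ‖e'‖ = 1 := by
      rcases he' with rfl | rfl
      · exact he
      · rw [norm_neg, he]
    have h1 : u p + a • e' ∈ ball (u p) r := by
      rw [mem_ball_iff_norm, add_sub_cancel_left, norm_smul, hn, Real.norm_eq_abs, abs_of_pos ha0]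
      linarith
    rw [T.quad _ h1, add_sub_cancel_left]
    have h2 : ⟪A (a • e'), a • e'⟫ = -(α * a ^ 2) := by
      rcases he' with rfl | rfl
      · rw [map_smul, hAe, inner_smul_left, inner_smul_right, inner_neg_left, inner_smul_left,
          real_inner_self_eq_norm_sq, he]
        simp only [conj_trivial]
        ring
      · rw [map_smul, map_neg, hAe, neg_neg, inner_smul_left, inner_smul_right, inner_neg_right,
          inner_smul_left, real_inner_self_eq_norm_sq, he]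
        simp only [conj_trivial]
        ring
    rw [h2]
    linarith
  -- the upper slab is connected
  have hW : IsPreconnected {x | c₁ ≤ ρ' x ∧ ρ' x ≤ 0} := by
    refine pre_slab hρc (hcomp'.of_isClosed_subset ((isClosed_le continuous_const hρc).inter
      (isClosed_le hρc continuous_const)) fun x hx => hx.2) hX' hc₁0.le fun x hx1 hx2 hmax => ?_
    have h1 := gr_localMax hu hρ' hmax
    have h2 := hcrit x hx2.le hx1 h1
    rw [h2] at hmax
    -- a direction in which the function increases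
    obtain ⟨v, hv, hv1⟩ : ∃ v : E, ⟪e, v⟫ = 0 ∧ ‖v‖ = 1 := by
      have e3 := Submodule.finrank_add_finrank_orthogonal (ℝ ∙ e)
      have e4 : finrank ℝ (ℝ ∙ e) ≤ 1 := by
        have := finrank_span_le_card (R := ℝ) ({e} : Set E)
        simpa using this
      haveI : Nontrivial (ℝ ∙ e)ᗮ := Module.nontrivial_of_finrank_pos (R := ℝ) (by omega)
      obtain ⟨v, hv⟩ := exists_norm_eq (ℝ ∙ e)ᗮ (zero_le_one' ℝ)
      exact ⟨v, (Submodule.mem_orthogonal_singleton_iff_inner_right).1 v.2, hv⟩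
    have h3 : Tendsto (fun t : ℝ => σ (u p + t • v)) (𝓝[>] 0) (𝓝 p) := by
      have h4 : ContinuousAt (fun t : ℝ => σ (u p + t • v)) 0 := by
        have h5 : ContinuousAt σ (u p + (0:ℝ) • v) := by
          rw [zero_smul, add_zero]
          exact T.sec.contAt (mem_ball_self hr)
        exact ContinuousAt.comp (f := fun t : ℝ => u p + t • v) (x := 0) h5 (by fun_prop)
      have h6 := h4.tendsto
      rw [zero_smul, add_zero, T.σp] at h6
      exact h6.mono_left nhdsWithin_le_nhds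
    have h7 : ∀ᶠ t : ℝ in 𝓝[>] 0, t < r := nhdsWithin_le_nhds (gt_mem_nhds hr)
    obtain ⟨t, ⟨ht1, ht2⟩, ht3⟩ := (((h3.eventually hmax).and h7).and self_mem_nhdsWithin).exists
    have ht3' : 0 < t := ht3
    rw [T.quad _ (by
      rw [mem_ball_iff_norm, add_sub_cancel_left, norm_smul, hv1, mul_one, Real.norm_eq_abs,
        abs_of_pos ht3']
      exact ht2), add_sub_cancel_left, map_smul, inner_smul_left, inner_smul_right] at ht1
    simp only [conj_trivial] at ht1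
    have h8 := hpos v hv
    rw [hv1] at h8
    have h9 : 0 < t * (t * ⟪A v, v⟫) := by
      have : 0 < ⟪A v, v⟫ := by linarith
      positivity
    linarith
  have hWcl : IsClosed {x | c₁ ≤ ρ' x ∧ ρ' x ≤ 0} :=
    (isClosed_le continuous_const hρc).inter (isClosed_le hρc continuous_const)
  -- the boundaries of the pieces are connected
  have bdry : ∀ O O' : Set N, IsOpen O → IsOpen O' → Disjoint O O' →
      (∀ x, ρ' x ≤ c₁ → x ∈ O ∨ x ∈ O') → IsPreconnected ({x | ρ' x ≤ c₁} ∩ O) →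
      IsPreconnected ({x | ρ' x ≤ c₁} ∩ O') →
      ({x | ρ' x ≤ c₁} ∩ O).Nonempty → ({x | ρ' x ≤ c₁} ∩ O').Nonempty →
      IsPreconnected ({x | ρ' x = c₁} ∩ O) := by
    intro O O' hO hO' hd hcov hpre hpre' hne hne'
    have hcl : ∀ P P' : Set N, IsOpen P' → Disjoint P P' → (∀ x, ρ' x ≤ c₁ → x ∈ P ∨ x ∈ P') →
        IsClosed ({x | ρ' x ≤ c₁} ∩ P) := by
      intro P P' hP' hd hcov
      have : {x | ρ' x ≤ c₁} ∩ P = {x | ρ' x ≤ c₁} \ P' := by
        ext x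
        constructor
        · rintro ⟨hx1, hx2⟩
          exact ⟨hx1, fun h => Set.disjoint_left.1 hd hx2 h⟩
        · rintro ⟨hx1, hx2⟩
          exact ⟨hx1, (hcov x hx1).resolve_right hx2⟩
      rw [this]
      exact (isClosed_le hρc continuous_const).sdiff hP'
    set M₁ := {x | ρ' x ≤ c₁} ∩ O with hM₁
    set M₂ := {x | ρ' x ≤ c₁} ∩ O' with hM₂
    set W := {x | c₁ ≤ ρ' x ∧ ρ' x ≤ 0} with hWd
    have hcl1 : IsClosed M₁ := hcl O O' hO' hd hcov
    have hcl2 : IsClosed M₂ := hcl O' O hO hd.symm fun x hx => (hcov x hx).symm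
    have hdM : ∀ x, x ∈ M₁ → x ∈ M₂ → False := fun x h1 h2 => Set.disjoint_left.1 hd h1.2 h2.2
    have hunion : {x | ρ' x ≤ 0} = M₁ ∪ (W ∪ M₂) := by
      ext x
      simp only [mem_setOf_eq, mem_union]
      constructor
      · intro h
        rcases le_total (ρ' x) c₁ with h1 | h1
        · rcases hcov x h1 with h2 | h2
          · exact Or.inl ⟨h1, h2⟩
          · exact Or.inr (Or.inr ⟨h1, h2⟩)
        · exact Or.inr (Or.inl ⟨h1, h⟩)
      · rintro (h | h | h)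
        · exact h.1.trans hc₁0.le
        · exact h.2
        · exact h.1.trans hc₁0.le
    -- the second piece meets the slab
    obtain ⟨y, hyW, hyM⟩ : (W ∩ M₂).Nonempty := by
      obtain ⟨x, hx1, hx2, hx3⟩ := (isPreconnected_closed_iff.1 hconn') M₂ (M₁ ∪ W) hcl2
        (hcl1.union hWcl) (by
          rw [hunion]
          rintro x (h | h | h)
          · exact Or.inr (Or.inl h)
          · exact Or.inr (Or.inr h)
          · exact Or.inl h)
        (by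
          obtain ⟨x, hx⟩ := hne'
          exact ⟨x, by rw [hunion]; exact Or.inr (Or.inr hx), hx⟩)
        (by
          obtain ⟨x, hx⟩ := hne
          exact ⟨x, by rw [hunion]; exact Or.inl hx, Or.inl hx⟩)
      rcases hx3 with h | h
      · exact absurd hx2 (fun h' => hdM x h h')
      · exact ⟨x, h, hx2⟩
    have hpreB : IsPreconnected (W ∪ M₂) := IsPreconnected.union y hyW hyM hW hpre'
    have huni := uni_closed hcl1 (hWcl.union hcl2) (by rw [← hunion]; exact hL') hpre hpreB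
    have heq : M₁ ∩ (W ∪ M₂) = {x | ρ' x = c₁} ∩ O := by
      ext x
      constructor
      · rintro ⟨h1, h2 | h2⟩
        · exact ⟨le_antisymm h1.1 h2.1, h1.2⟩
        · exact absurd h2 (fun h' => hdM x h1 h')
      · rintro ⟨h1, h2⟩
        have h1' : ρ' x = c₁ := h1
        exact ⟨⟨h1'.le, h2⟩, Or.inl ⟨h1'.ge, by rw [h1']; exact hc₁0.le⟩⟩
    rw [← heq]
    exact huni
  have ne1 : ({x | ρ' x ≤ c₁} ∩ O₁).Nonempty := ⟨_, hface (-e) (Or.inr rfl), hm⟩
  have ne2 : ({x | ρ' x ≤ c₁} ∩ O₂).Nonempty := ⟨_, hface e (Or.inl rfl), hp⟩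
  have hX1 := bdry O₁ O₂ hO₁ hO₂ hd hcov hpre1 hpre2 ne1 ne2
  have hX2 := bdry O₂ O₁ hO₂ hO₁ hd.symm (fun x hx => (hcov x hx).symm) hpre2 hpre1 ne2 ne1
  -- the two pieces
  have piece : ∀ O O' : Set N, IsOpen O → IsOpen O' → Disjoint O O' →
      (∀ x, ρ' x ≤ c₁ → x ∈ O ∨ x ∈ O') → IsPreconnected ({x | ρ' x ≤ c₁} ∩ O) →
      Lifts ({x | ρ' x ≤ c₁} ∩ O) → ({x | ρ' x ≤ c₁} ∩ O).Nonempty →
      IsPreconnected ({x | ρ' x = c₁} ∩ O) →
      ∃ ρ₁ : N → ℝ, ContMDiff 𝓘(ℝ, E) 𝓘(ℝ, ℝ) ∞ ρ₁ ∧ {x | ρ₁ x ≤ 0} = {x | ρ' x ≤ c₁} ∩ O ∧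
        (∀ x, ρ₁ x ≤ 0 → ρ₁ =ᶠ[𝓝 x] fun y => ρ' y - c₁) ∧ IsBall E {x | ρ₁ x ≤ 0} := by
    intro O O' hO hO' hd hcov hpre hlift hne hbd
    obtain ⟨ρ₁, hρ₁, hset₁, hc, hnear₁⟩ := loc hρ' hcompc hO hO' hd hcov
    refine ⟨ρ₁, hρ₁, hset₁, hnear₁, ?_⟩
    have hmem : ∀ x, ρ₁ x ≤ 0 ↔ ρ' x ≤ c₁ ∧ x ∈ O := fun x => by
      have : x ∈ {x | ρ₁ x ≤ 0} ↔ x ∈ {x | ρ' x ≤ c₁} ∩ O := by rw [hset₁]
      exact this
    obtain ⟨D₁, hlt⟩ := T.piece hu D hc₁' hc₁ hρ₁ hc (fun x hx => ((hmem x).1 hx).1) hnear₁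
    have hz : {x | ρ₁ x = 0} = {x | ρ' x = c₁} ∩ O := by
      ext x
      constructor
      · intro hx
        have hx0 : ρ₁ x = 0 := hx
        have h1 := (hnear₁ x hx0.le).eq_of_nhds
        exact ⟨by show ρ' x = c₁; linarith, ((hmem x).1 hx0.le).2⟩
      · rintro ⟨hx1, hx2⟩
        have hx1' : ρ' x = c₁ := hx1
        have h1 := (hnear₁ x ((hmem x).2 ⟨hx1'.le, hx2⟩)).eq_of_nhds
        show ρ₁ x = 0
        rw [h1, hx1', sub_self]
    exact ih _ (by rw [← hn]; exact hlt) ρ₁ D₁ rfl (by rw [hset₁]; exact hne)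
      (by rw [hset₁]; exact hpre) (by rw [hset₁]; exact hlift) (by rw [hz]; exact hbd)
  obtain ⟨ρ₁, hρ₁, hs₁, hn₁, hb₁⟩ := piece O₁ O₂ hO₁ hO₂ hd hcov hpre1 hl1 ne1 hX1
  obtain ⟨ρ₂, hρ₂, hs₂, hn₂, hb₂⟩ := piece O₂ O₁ hO₂ hO₁ hd.symm (fun x hx => (hcov x hx).symm)
    hpre2 hl2 ne2 hX2
  have m₁ : ∀ x, ρ₁ x ≤ 0 ↔ ρ' x ≤ c₁ ∧ x ∈ O₁ := fun x => by
    have : x ∈ {x | ρ₁ x ≤ 0} ↔ x ∈ {x | ρ' x ≤ c₁} ∩ O₁ := by rw [hs₁]
    exact this
  have m₂ : ∀ x, ρ₂ x ≤ 0 ↔ ρ' x ≤ c₁ ∧ x ∈ O₂ := fun x => by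
    have : x ∈ {x | ρ₂ x ≤ 0} ↔ x ∈ {x | ρ' x ≤ c₁} ∩ O₂ := by rw [hs₂]
    exact this
  refine merge hu hρ' hcomp' S hc₁ hp0' hcrit hρ₁ hρ₂ ?_ ?_ hn₁ hn₂ ha0 har hac
    ((m₁ _).2 ⟨hface (-e) (Or.inr rfl), hm⟩) ((m₂ _).2 ⟨hface e (Or.inl rfl), hp⟩) hb₁ hb₂
  · intro x hx
    rcases hcov x hx with h | h
    · exact Or.inl ((m₁ x).2 ⟨hx, h⟩)
    · exact Or.inr ((m₂ x).2 ⟨hx, h⟩)
  · intro x h1 h2
    exact Set.disjoint_left.1 hd ((m₁ x).1 h1).2 ((m₂ x).1 h2).2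

/-- **A domain of dimension at least four with connected boundary, on which every map to the circle
has an argument and which has a defining function without critical points of intermediate index,
is a ball.** -/
theorem MW.ball [T2Space N] [SigmaCompactSpace N] {u : N → E}
    (hu : IsLocalDiffeomorph 𝓘(ℝ, E) 𝓘(ℝ, E) ∞ u) (hdim : 4 ≤ finrank ℝ E) {ρ : N → ℝ}
    (D : MW u ρ) (hne : {x | ρ x ≤ 0}.Nonempty) (hconn : IsPreconnected {x | ρ x ≤ 0})
    (hL : Lifts {x | ρ x ≤ 0}) (hX : IsPreconnected {x | ρ x = 0}) : IsBall E {x | ρ x ≤ 0} :=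
  MW.ball_aux hu hdim _ ρ D rfl hne hconn hL hX

end Pool.Agent.Q196.XG
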