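import Pool.Agent.Q196.XG.Shell

/-! Extending maps to the circle downwards past a critical point. -/

set_option autoImplicit false
set_option linter.unusedSectionVars false

open scoped Topology ContDiff Manifold RealInnerProductSpace Gradient
open Set Metric Filter Bundle Pool.Agent.Q196.XB Pool.Agent.Q196.XF Asymptotics

noncomputable section

namespace Pool.Agent.Q196.XG

variable {E : Type} [NormedAddCommGroup E] [InnerProductSpace ℝ E] [FiniteDimensional ℝ E]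
  {N : Type} [TopologicalSpace N] [ChartedSpace E N] [IsManifold 𝓘(ℝ, E) ∞ N]

/-- Maps of small shells to the circle have arguments. -/
def ShArg (A : E →L[ℝ] E) : Prop := ∀ a, 0 < a → ∃ κ₀, 0 < κ₀ ∧ ∀ κ, 0 < κ → κ ≤ κ₀ →
  ∀ f : E → ℂ, ContinuousOn f (Sh A a κ) → (∀ z ∈ Sh A a κ, ‖f z‖ = 1) → Arg f (Sh A a κ)

lemma exists_m {A : E →L[ℝ] E} (hnd : ∀ v, v ≠ 0 → A v ≠ 0) :
    ∃ m : ℝ, 0 < m ∧ ∀ w, m * ‖w‖ ≤ ‖A w‖ := by
  have hker : LinearMap.ker (A : E →ₗ[ℝ] E) = ⊥ := by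
    rw [LinearMap.ker_eq_bot']
    intro v hv
    by_contra hne
    exact hnd v hne hv
  obtain ⟨K, hK, hKA⟩ := LinearMap.exists_antilipschitzWith (A : E →ₗ[ℝ] E) hker
  refine ⟨(K:ℝ)⁻¹, by positivity, fun w => ?_⟩
  have h1 := hKA.le_mul_dist w 0
  rw [map_zero, dist_zero_right, dist_zero_right] at h1
  have h2 : ‖w‖ ≤ K * ‖A w‖ := h1
  have hK' : (0:ℝ) < K := hK
  rw [inv_mul_le_iff₀ hK']
  exact h2

/-- Raising the critical value. -/
theorem exists_G [T2Space N] [SigmaCompactSpace N] {u : N → E}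
    (hu : IsLocalDiffeomorph 𝓘(ℝ, E) 𝓘(ℝ, E) ∞ u) {ρ : N → ℝ}
    (hρ : ContMDiff 𝓘(ℝ, E) 𝓘(ℝ, ℝ) ∞ ρ) {p : N} {σ : E → N} {r : ℝ} {A : E →L[ℝ] E}
    (hσ : Sec u (ball (u p) r) σ) (hσp : σ (u p) = p)
    (hquad : ∀ z ∈ ball (u p) r, ρ (σ z) = ρ p + ⟪A (z - u p), z - u p⟫ / 2)
    (hsym : ∀ v w, ⟪A v, w⟫ = ⟪A w, v⟫) (hnd : ∀ v, v ≠ 0 → A v ≠ 0) {a : ℝ} (ha : 0 < a)
    (har : a < r) : ∃ μ₀, 0 < μ₀ ∧ ∀ μ, 0 < μ → μ ≤ μ₀ → ∃ G : N → ℝ,
      ContMDiff 𝓘(ℝ, E) 𝓘(ℝ, ℝ) ∞ G ∧ (∀ x, ρ x ≤ G x) ∧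
      (∀ x, x ∉ σ '' closedBall (u p) a → G x = ρ x ∧ gr u G x = gr u ρ x) ∧ G p = ρ p + μ ∧
      ∀ x ∈ σ '' closedBall (u p) a, gr u G x = 0 → x = p := by
  classical
  have huc : Continuous u := hu.contMDiff.continuous
  set z₀ := u p with hz₀
  obtain ⟨m, hm, hmA⟩ := exists_m hnd
  obtain ⟨C, hC1, hC⟩ := exists_bump (E := E)
  obtain ⟨ψ, hψ, hψ0, hψ1, hψ2, hψ3⟩ := hC z₀ a ha
  have hC0 : 0 < C := by linarith
  refine ⟨m * a ^ 2 / (4 * C), by positivity, fun μ hμ hμ' => ?_⟩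
  set K : Set N := σ '' closedBall z₀ a with hK
  have hKsub : closedBall z₀ a ⊆ ball z₀ r := closedBall_subset_ball har
  have hKc : IsCompact K := (isCompact_closedBall z₀ a).image_of_continuousOn (hσ.cont.mono hKsub)
  obtain ⟨κ, K', hκ, hK', hK'U, hκ1, hκ0⟩ := Helper186.exists_cutoff 𝓘(ℝ, E) hKc hσ.image
    (image_mono hKsub)
  set G : N → ℝ := fun x => ρ x + μ * (κ x * κ x * ψ (u x)) with hG
  have hGs : ContMDiff 𝓘(ℝ, E) 𝓘(ℝ, ℝ) ∞ G :=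
    hρ.add (contMDiff_const.mul ((hκ.mul hκ).mul (hψ.contMDiff.comp hu.contMDiff)))
  have hz₀b : z₀ ∈ ball z₀ r := mem_ball_self (ha.trans har)
  have hval : ∀ z ∈ ball z₀ r, G (σ z) = ρ p + ⟪A (z - z₀), z - z₀⟫ / 2 + μ * ψ z := by
    intro z hz
    have hu' : u (σ z) = z := hσ.right z hz
    simp only [hG]
    rw [hu', hquad z hz]
    by_cases hzs : ‖z - z₀‖ ≤ a
    · have h1 : κ (σ z) = 1 := hκ1.self_of_nhdsSet _ ⟨z, mem_closedBall_iff_norm.2 hzs, rfl⟩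
      rw [h1, one_mul, one_mul]
    · rw [hψ0 z (not_le.1 hzs).le]
      simp
  have hout : ∀ x, x ∉ K → G =ᶠ[𝓝 x] ρ := by
    intro x hx
    have h1 : Kᶜ ∈ 𝓝 x := hKc.isClosed.isOpen_compl.mem_nhds hx
    filter_upwards [h1] with y hy
    simp only [hG]
    by_cases hyU : y ∈ σ '' ball z₀ r
    · have hyψ : ψ (u y) = 0 := by
        apply hψ0
        by_contra hlt
        apply hy
        exact ⟨u y, mem_closedBall_iff_norm.2 (not_le.1 hlt).le, hσ.left hyU⟩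
      rw [hyψ]; ring
    · have : κ y = 0 := hκ0 y (fun h => hyU (hK'U h))
      rw [this]; ring
  refine ⟨G, hGs, fun x => ?_, fun x hx => ⟨(hout x hx).eq_of_nhds, gr_congr (hout x hx)⟩, ?_, ?_⟩
  · simp only [hG]
    have h1 := (hψ2 (u x)).1
    have h2 := mul_self_nonneg (κ x)
    have : 0 ≤ μ * (κ x * κ x * ψ (u x)) := by positivity
    linarith
  · have h1 := hval z₀ hz₀b
    rw [hσp, sub_self, map_zero, inner_zero_left, hψ1 z₀ (by rw [sub_self, norm_zero]; positivity)]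
      at h1
    rw [h1]; ring
  · rintro _ ⟨z, hz, rfl⟩ h0
    have hza : ‖z - z₀‖ ≤ a := mem_closedBall_iff_norm.1 hz
    have hzr := hKsub hz
    have hgr : gr u G (σ z) = A (z - z₀) + μ • ∇ ψ z := by
      rw [gr_sec' hu hGs hσ hzr]
      have h1 : (G ∘ σ) =ᶠ[𝓝 z] fun z => ρ p + ⟪A (z - z₀), z - z₀⟫ / 2 + μ * ψ z := by
        filter_upwards [isOpen_ball.mem_nhds hzr] with y hy using hval y hy
      have h2 : HasFDerivAt ψ (fderiv ℝ ψ z) z :=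
        (hψ.differentiable (by simp)).differentiableAt.hasFDerivAt
      have h3 := ((quad_deriv hsym z₀ z).const_add (ρ p)).add (h2.const_mul μ)
      have h4 : fderiv ℝ (G ∘ σ) z = (InnerProductSpace.toDual ℝ E) (A (z - z₀)) +
          μ • fderiv ℝ ψ z := by
        rw [h1.fderiv_eq]
        exact h3.fderiv
      unfold gradient
      rw [h4, map_add, map_smul, LinearIsometryEquiv.symm_apply_apply]
    rw [hgr] at h0
    by_contra hne
    have hzz : z ≠ z₀ := by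
      rintro rfl
      exact hne hσp
    have hn : 0 < ‖z - z₀‖ := norm_pos_iff.2 (sub_ne_zero.2 hzz)
    have hA := hmA (z - z₀)
    have h5 : ‖A (z - z₀)‖ = μ * ‖∇ ψ z‖ := by
      have : A (z - z₀) = -(μ • ∇ ψ z) := eq_neg_of_add_eq_zero_left h0
      rw [this, norm_neg, norm_smul, Real.norm_eq_abs, abs_of_pos hμ]
    have h6 : ‖∇ ψ z‖ = ‖fderiv ℝ ψ z‖ := by
      unfold gradient
      rw [LinearIsometryEquiv.norm_map]
    rcases lt_or_ge (‖z - z₀‖) (a / 2) with h7 | h7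
    · have h8 : ψ =ᶠ[𝓝 z] fun _ => 1 := by
        have : ball z₀ (a / 2) ∈ 𝓝 z := isOpen_ball.mem_nhds (mem_ball_iff_norm.2 h7)
        filter_upwards [this] with y hy
        exact hψ1 y (mem_ball_iff_norm.1 hy).le
      have h12 : fderiv ℝ ψ z = 0 := by
        rw [h8.fderiv_eq]
        exact (hasFDerivAt_const (1:ℝ) z).fderiv
      rw [h6, h12, norm_zero, mul_zero] at h5
      have : 0 < m * ‖z - z₀‖ := by positivity
      linarith
    · have h8 : μ * ‖∇ ψ z‖ ≤ (m * a ^ 2 / (4 * C)) * (C / a) := by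
        rw [h6]
        gcongr
        exact hψ3 z
      have h9 : (m * a ^ 2 / (4 * C)) * (C / a) = m * a / 4 := by
        field_simp
      have h10 : m * (a / 2) ≤ m * ‖z - z₀‖ := by gcongr
      have h11 : 0 < m * a := by positivity
      rw [h9, ← h5] at h8
      linarith

/-- **Extension past a critical point.** -/
theorem cross [T2Space N] [SigmaCompactSpace N] {u : N → E}
    (hu : IsLocalDiffeomorph 𝓘(ℝ, E) 𝓘(ℝ, E) ∞ u) {ρ : N → ℝ}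
    (hρ : ContMDiff 𝓘(ℝ, E) 𝓘(ℝ, ℝ) ∞ ρ) (hcomp : IsCompact {x | ρ x ≤ 0}) {p : N} {σ : E → N}
    {r : ℝ} {A : E →L[ℝ] E} (hr : 0 < r)
    (hσ : Sec u (ball (u p) r) σ) (hσp : σ (u p) = p)
    (hquad : ∀ z ∈ ball (u p) r, ρ (σ z) = ρ p + ⟪A (z - u p), z - u p⟫ / 2)
    (hsym : ∀ v w, ⟪A v, w⟫ = ⟪A w, v⟫) (hnd : ∀ v, v ≠ 0 → A v ≠ 0) (hS : ShArg A)
    (hp0 : ρ p < 0) {c₁ : ℝ} (hc₁ : c₁ < ρ p)
    (hcrit : ∀ x, ρ x ≤ 0 → c₁ ≤ ρ x → gr u ρ x = 0 → x = p) {f : N → ℂ}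
    (hf : ContinuousOn f {x | ρ x = 0}) (h1 : ∀ x, ρ x = 0 → ‖f x‖ = 1) :
    ∃ F : N → ℂ, ContinuousOn F {x | c₁ ≤ ρ x ∧ ρ x ≤ 0} ∧
      (∀ x, c₁ ≤ ρ x → ρ x ≤ 0 → ‖F x‖ = 1) ∧ ∀ x, ρ x = 0 → F x = f x := by
  classical
  haveI : LocallyCompactSpace N := ChartedSpace.locallyCompactSpace E N
  haveI : NormalSpace N := inferInstance
  have huc : Continuous u := hu.contMDiff.continuous
  set z₀ := u p with hz₀
  have hz₀r : z₀ ∈ ball z₀ r := mem_ball_self hr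
  -- a small ball
  obtain ⟨a, ha, har, hneg⟩ : ∃ a, 0 < a ∧ a < r ∧ ∀ z ∈ closedBall z₀ a, ρ (σ z) < 0 := by
    have h1 : ContinuousAt (fun z => ρ (σ z)) z₀ :=
      ContinuousAt.comp (g := ρ) hρ.continuous.continuousAt (hσ.contAt hz₀r)
    have h2 : ∀ᶠ z in 𝓝 z₀, ρ (σ z) < 0 := h1.eventually_lt_const (by
      show ρ (σ z₀) < 0
      rw [hσp]; exact hp0)
    obtain ⟨s, hs, hs'⟩ := Metric.eventually_nhds_iff_ball.1 h2
    refine ⟨min s r / 2, by positivity, ?_, fun z hz => hs' z ?_⟩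
    · have := min_le_right s r
      linarith
    · have h3 := mem_closedBall.1 hz
      have h4 := min_le_left s r
      have h5 : 0 < min s r := lt_min hs hr
      rw [mem_ball]
      linarith
  have hKsub : closedBall z₀ a ⊆ ball z₀ r := closedBall_subset_ball har
  set K : Set N := σ '' closedBall z₀ a with hK
  have hKc : IsCompact K := (isCompact_closedBall z₀ a).image_of_continuousOn (hσ.cont.mono hKsub)
  obtain ⟨κ₀, hκ₀, hShell⟩ := hS a ha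
  obtain ⟨μ₀, hμ₀, hGex⟩ := exists_G hu hρ hσ hσp hquad hsym hnd ha har
  -- the parameters
  set μ : ℝ := min μ₀ (min κ₀ (-(ρ p) / 2)) with hμd
  have hμ : 0 < μ := lt_min hμ₀ (lt_min hκ₀ (by linarith))
  obtain ⟨G, hGs, hGle, hGout, hGp, hGcr⟩ := hGex μ hμ (min_le_left _ _)
  have hμκ : μ ≤ κ₀ := (min_le_right _ _).trans (min_le_left _ _)
  have hμρ : μ ≤ -(ρ p) / 2 := (min_le_right _ _).trans (min_le_right _ _)
  set c₂ : ℝ := ρ p + μ / 2 with hc₂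
  have hc₂0 : c₂ < 0 := by rw [hc₂]; linarith
  have hpc₂ : ρ p < c₂ := by rw [hc₂]; linarith
  -- first step: the regular slab
  obtain ⟨U₀, hU₀, hU₀', hU₀''⟩ := exists_up hu hρ (a := c₂) (b := 0) hc₂0.le hcomp (by
    intro x hx1 hx2 h0
    have := hcrit x hx2 (by linarith) h0
    rw [this] at hx1
    linarith)
  have hWcl : IsClosed {x | c₂ ≤ ρ x ∧ ρ x ≤ 0} :=
    (isClosed_le continuous_const hρ.continuous).inter (isClosed_le hρ.continuous continuous_const)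
  set f₀ : N → ℂ := fun x => f (U₀ x) with hf₀
  have hmaps₀ : ∀ x ∈ {x | c₂ ≤ ρ x ∧ ρ x ≤ 0}, ρ (U₀ x) = 0 := fun x hx => hU₀'' x hx.1 hx.2
  have hf₀c : ContinuousOn f₀ {x | c₂ ≤ ρ x ∧ ρ x ≤ 0} :=
    hf.comp (hU₀.mono fun x hx => hx.1) hmaps₀
  have hf₀1 : ∀ x ∈ {x | c₂ ≤ ρ x ∧ ρ x ≤ 0}, ‖f₀ x‖ = 1 := fun x hx => h1 _ (hmaps₀ x hx)
  -- second step: over the ball
  have hsh : ∀ z, z ∈ Sh A a μ ↔ z₀ + z ∈ closedBall z₀ a ∧ c₂ ≤ ρ (σ (z₀ + z)) := by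
    intro z
    have h2 : ∀ h : z₀ + z ∈ closedBall z₀ a, ρ (σ (z₀ + z)) = ρ p + ⟪A z, z⟫ / 2 := fun h => by
      rw [hquad _ (hKsub h), add_sub_cancel_left]
    constructor
    · rintro ⟨h3, h4⟩
      have h5 : z₀ + z ∈ closedBall z₀ a := by
        rw [mem_closedBall_iff_norm, add_sub_cancel_left]; exact h3
      refine ⟨h5, ?_⟩
      rw [h2 h5, hc₂]
      linarith
    · rintro ⟨h3, h4⟩
      rw [h2 h3, hc₂] at h4
      rw [mem_closedBall_iff_norm, add_sub_cancel_left] at h3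
      exact ⟨h3, by linarith⟩
  have harg : Arg f₀ ({x | c₂ ≤ ρ x ∧ ρ x ≤ 0} ∩ K) := by
    have hmap : ∀ z ∈ Sh A a μ, σ (z₀ + z) ∈ {x | c₂ ≤ ρ x ∧ ρ x ≤ 0} := by
      intro z hz
      obtain ⟨h3, h4⟩ := (hsh z).1 hz
      exact ⟨h4, (hneg _ h3).le⟩
    have hσc : ContinuousOn (fun z => σ (z₀ + z)) (Sh A a μ) :=
      hσ.cont.comp (by fun_prop) (fun z hz => hKsub ((hsh z).1 hz).1)
    obtain ⟨θ, hθ, hθ'⟩ := hShell μ hμ hμκ (fun z => f₀ (σ (z₀ + z)))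
      (hf₀c.comp hσc hmap) (fun z hz => hf₀1 _ (hmap z hz))
    have hback : ∀ x ∈ {x | c₂ ≤ ρ x ∧ ρ x ≤ 0} ∩ K, u x - z₀ ∈ Sh A a μ ∧
        σ (z₀ + (u x - z₀)) = x := by
      rintro _ ⟨hx, z, hz, rfl⟩
      have e1 : u (σ z) = z := hσ.right z (hKsub hz)
      rw [e1]
      have e2 : z₀ + (z - z₀) = z := by abel
      rw [e2]
      refine ⟨(hsh _).2 ?_, rfl⟩
      rw [e2]
      exact ⟨hz, hx.1⟩
    refine ⟨fun x => θ (u x - z₀), hθ.comp (huc.sub continuous_const).continuousOn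
      (fun x hx => (hback x hx).1), fun x hx => ?_⟩
    have := hθ' _ (hback x hx).1
    simp only [(hback x hx).2] at this
    exact this
  obtain ⟨f₁, hf₁c, hf₁1, hf₁e⟩ := ext_over hWcl hKc.isClosed hf₀c hf₀1 harg
  -- third step: the modified function
  have hcG : IsCompact {x | G x ≤ c₂} := hcomp.of_isClosed_subset
    (isClosed_le hGs.continuous continuous_const)
    (fun x (hx : G x ≤ c₂) => ((hGle x).trans hx).trans hc₂0.le)
  obtain ⟨U₁, hU₁, hU₁', hU₁''⟩ := exists_up hu hGs (a := c₁) (b := c₂) (by linarith) hcG (by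
    intro x hx1 hx2 h0
    have hxp : x = p := by
      by_cases hxK : x ∈ K
      · exact hGcr x hxK h0
      · obtain ⟨e1, e2⟩ := hGout x hxK
        rw [e1] at hx1 hx2
        exact hcrit x (hx2.trans hc₂0.le) hx1 (by rw [← e2]; exact h0)
    rw [hxp, hGp, hc₂] at hx2
    linarith)
  have hmaps₁ : ∀ x ∈ {x | c₁ ≤ ρ x ∧ ρ x ≤ 0}, U₁ x ∈ {x | c₂ ≤ ρ x ∧ ρ x ≤ 0} ∪ K := by
    intro x hx
    have hxG : c₁ ≤ G x := hx.1.trans (hGle x)
    have hfin : ∀ y, c₂ ≤ G y → ρ y ≤ 0 → y ∈ {x | c₂ ≤ ρ x ∧ ρ x ≤ 0} ∪ K := by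
      intro y hy hy0
      by_cases hyK : y ∈ K
      · exact Or.inr hyK
      · rw [(hGout y hyK).1] at hy
        exact Or.inl ⟨hy, hy0⟩
    rcases le_total c₂ (G x) with h3 | h3
    · rw [hU₁' x h3]
      exact hfin x h3 hx.2
    · have h4 := hU₁'' x hxG h3
      exact hfin _ h4.ge (((hGle _).trans h4.le).trans hc₂0.le)
  refine ⟨fun x => f₁ (U₁ x), hf₁c.comp (hU₁.mono fun x hx => hx.1.trans (hGle x)) hmaps₁,
    fun x hx1 hx2 => hf₁1 _ (hmaps₁ x ⟨hx1, hx2⟩), fun x hx => ?_⟩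
  have hG0 : c₂ ≤ G x := by
    have := hGle x
    rw [hx] at this
    linarith
  have hxW : x ∈ {x | c₂ ≤ ρ x ∧ ρ x ≤ 0} := ⟨by rw [hx]; exact hc₂0.le, hx.le⟩
  show f₁ (U₁ x) = f x
  rw [hU₁' x hG0, hf₁e x hxW]
  show f (U₀ x) = f x
  rw [hU₀' x hx.ge]

end Pool.Agent.Q196.XG
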