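import Pool.Agent.Q196.XG.Tau

/-! The main theorem on functions on a domain with connected boundary which is not a ball. -/

set_option autoImplicit false
set_option linter.unusedSectionVars false

open scoped Topology ContDiff Manifold RealInnerProductSpace Gradient
open Set Metric Filter Bundle Module Pool.Agent.Q196.XB Pool.Agent.Q196.XF Asymptotics

noncomputable section

namespace Pool.Agent.Q196.XG

variable {E : Type} [NormedAddCommGroup E] [InnerProductSpace ℝ E] [FiniteDimensional ℝ E]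
  {N : Type} [TopologicalSpace N] [ChartedSpace E N] [IsManifold 𝓘(ℝ, E) ∞ N]

/-- **Critical points with two nonpositive directions and a nonnegative direction.** -/
theorem exists_crit3 [T2Space N] [SigmaCompactSpace N] {u : N → E}
    (hu : IsLocalDiffeomorph 𝓘(ℝ, E) 𝓘(ℝ, E) ∞ u) (hdim : 4 ≤ finrank ℝ E) {ρ : N → ℝ}
    (hρ : ContMDiff 𝓘(ℝ, E) 𝓘(ℝ, ℝ) ∞ ρ) (hcomp : IsCompact {x | ρ x ≤ 0})
    (hne : {x | ρ x ≤ 0}.Nonempty) (hconn : IsPreconnected {x | ρ x ≤ 0})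
    (hL : Lifts {x | ρ x ≤ 0}) (hX : IsPreconnected {x | ρ x = 0})
    (hreg : ∀ x, ρ x = 0 → gr u ρ x ≠ 0)
    (hball : ¬ IsBall E {x | ρ x ≤ 0}) {f : N → ℝ} (hf : ContMDiff 𝓘(ℝ, E) 𝓘(ℝ, ℝ) ∞ f)
    (hfc : ∀ x, ρ x ≤ 0 → gr u f x = 0 → ∃ v, 0 < hb u f x v v) :
    ∃ x, Crit3 u ρ f x := by
  by_contra hno
  obtain ⟨τ₀, hτ₀, hind⟩ := exists_tau3 hu hρ hf hcomp hreg hfc hno
  set τ := τ₀ / 2 with hτd
  have hτ : 0 < τ := by positivity
  obtain ⟨b, hbn, hgen⟩ := exists_b hu hρ hf (τ := τ) hτ₀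
  set ψ : N → ℝ := fun x => ρ x * Real.exp (-(f x + ⟪b, u x⟫) / τ) with hψ
  have hbu : ContMDiff 𝓘(ℝ, E) 𝓘(ℝ, ℝ) ∞ (fun x => ⟪b, u x⟫) :=
    ((InnerProductSpace.toDual ℝ E) b).contDiff.contMDiff.comp hu.contMDiff
  have hψs : ContMDiff 𝓘(ℝ, E) 𝓘(ℝ, ℝ) ∞ ψ := by
    refine hρ.mul ?_
    have h1 : ContMDiff 𝓘(ℝ, E) 𝓘(ℝ, ℝ) ∞ (fun x => -(f x + ⟪b, u x⟫) / τ) := by
      have := ((hf.add hbu).neg).mul (contMDiff_const (c := τ⁻¹))
      refine this.congr fun x => ?_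
      simp [div_eq_mul_inv]
    exact Real.contDiff_exp.contMDiff.comp h1
  have hψle : ∀ x, ψ x ≤ 0 ↔ ρ x ≤ 0 := fun x => by
    simp only [hψ]
    have := Real.exp_pos (-(f x + ⟪b, u x⟫) / τ)
    constructor
    · intro h
      by_contra hlt
      push Not at hlt
      have := mul_pos hlt this
      linarith
    · intro h
      exact mul_nonpos_of_nonpos_of_nonneg h this.le
  have hψ0 : ∀ x, ψ x = 0 → ρ x = 0 := fun x h => by
    simp only [hψ] at h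
    rcases mul_eq_zero.1 h with h1 | h1
    · exact h1
    · exact absurd h1 (Real.exp_pos _).ne'
  have hset : {x | ψ x ≤ 0} = {x | ρ x ≤ 0} := by
    ext x; exact hψle x
  have hset0 : {x | ψ x = 0} = {x | ρ x = 0} := by
    ext x
    refine ⟨hψ0 x, fun h => ?_⟩
    have h' : ρ x = 0 := h
    show ψ x = 0
    simp only [hψ]
    rw [h', zero_mul]
  have hsecψ : ∀ (U : Set E) (σ : E → N), Sec u U σ → ∀ z ∈ U,
      (ψ ∘ σ) =ᶠ[𝓝 z] Ps (ρ ∘ σ) (f ∘ σ) τ b := by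
    intro U σ h z hz
    filter_upwards [h.isOpen.mem_nhds hz] with y hy
    show ρ (σ y) * Real.exp (-(f (σ y) + ⟪b, u (σ y)⟫) / τ) =
      ρ (σ y) * Real.exp (-(f (σ y) + ⟪b, y⟫) / τ)
    rw [h.right y hy]
  have hgr : ∀ x, gr u ψ x = Real.exp (-(f x + ⟪b, u x⟫) / τ) •
      (gr u ρ x - (ρ x / τ) • (gr u f x + b)) := by
    intro x
    obtain ⟨U, σ, h, hxU, hσx⟩ := exists_sec hu x
    have h1 := gr_sec' hu hψs h hxU
    have h2 := gr_sec' hu hρ h hxU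
    have h3 := gr_sec' hu hf h hxU
    rw [hσx] at h1 h2 h3
    have h4 := Ps_grad (R := ρ ∘ σ) (F := f ∘ σ) (τ := τ) (b := b) (z := u x)
      ((sec_smooth hρ h hxU).differentiableAt (by simp))
      ((sec_smooth hf h hxU).differentiableAt (by simp))
    have h5 : ∇ (ψ ∘ σ) (u x) = ∇ (Ps (ρ ∘ σ) (f ∘ σ) τ b) (u x) := by
      unfold gradient
      rw [(hsecψ U σ h (u x) hxU).fderiv_eq]
    rw [h1, h5, h4, ← h2, ← h3]
    show Real.exp (-(f (σ (u x)) + ⟪b, u x⟫) / τ) • (gr u ρ x - (ρ (σ (u x)) / τ) • _) = _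
    rw [hσx]
  have hcrit : ∀ x, ψ x ≤ 0 → gr u ψ x = 0 → ρ x < 0 ∧ gr u f x + b = (τ / ρ x) • gr u ρ x := by
    intro x hx h0
    rw [hgr, smul_eq_zero] at h0
    have h1 : gr u ρ x - (ρ x / τ) • (gr u f x + b) = 0 :=
      h0.resolve_left (Real.exp_pos _).ne'
    have h2 : ρ x < 0 := by
      refine lt_of_le_of_ne ((hψle x).1 hx) fun h => ?_
      rw [h, zero_div, zero_smul, sub_zero] at h1
      exact hreg x h h1
    refine ⟨h2, ?_⟩
    rw [sub_eq_zero] at h1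
    rw [h1, smul_smul]
    have : τ / ρ x * (ρ x / τ) = 1 := by
      have := h2.ne
      field_simp
    rw [this, one_smul]
  have hhb : ∀ x, ψ x ≤ 0 → gr u ψ x = 0 → ∃ (κ : ℝ) (A : E →L[ℝ] E), 0 < κ ∧
      (∀ v, A v = 0 → v = 0) ∧ (∀ v w, hb u ψ x v w = κ * ⟪A v, w⟫) ∧
      ∀ v w, ⟪A v, w⟫ = hb u f x v w + -(τ / ρ x) * hb u ρ x v w +
        τ / ρ x ^ 2 * (⟪gr u ρ x, v⟫ * ⟪gr u ρ x, w⟫) := by
    intro x hx h0
    obtain ⟨hneg, heq⟩ := hcrit x hx h0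
    obtain ⟨U, σ, h, hxU, hσx, hinj⟩ := hgen x hneg heq
    have hx' : x ∈ σ '' U := ⟨u x, hxU, hσx⟩
    have hρx : (ρ ∘ σ) (u x) = ρ x := by show ρ (σ (u x)) = _; rw [hσx]
    have h2 := gr_sec' hu hρ h hxU
    have h3 := gr_sec' hu hf h hxU
    rw [hσx] at h2 h3
    obtain ⟨κ, hκ, hκ'⟩ := Ps_hess (R := ρ ∘ σ) (F := f ∘ σ) (τ := τ) (b := b) (z := u x)
      (sec_smooth hρ h hxU) (sec_smooth hf h hxU) (by rw [hρx]; exact hneg) hτ
      (by rw [hρx, ← h2, ← h3]; exact heq)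
    refine ⟨κ, fderiv ℝ (Gm (ρ ∘ σ) (f ∘ σ) τ) (u x), hκ, hinj, fun v w => ?_, fun v w => ?_⟩
    · rw [hb_sec hu hψs h hx']
      have h5 : ∇ (ψ ∘ σ) =ᶠ[𝓝 (u x)] ∇ (Ps (ρ ∘ σ) (f ∘ σ) τ b) := by
        filter_upwards [(hsecψ U σ h (u x) hxU).eventuallyEq_nhds] with z hz
        unfold gradient
        rw [hz.fderiv_eq]
      rw [h5.fderiv_eq, hκ', _root_.smul_apply, inner_smul_left]
      simp only [conj_trivial]
    · rw [(Gm_deriv (τ := τ) (sec_smooth hρ h hxU) (sec_smooth hf h hxU)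
        (by rw [hρx]; exact hneg.ne)).fderiv]
      rw [hb_sec hu hf h hx', hb_sec hu hρ h hx', hρx, ← h2]
      simp only [_root_.sub_apply, _root_.add_apply, _root_.smul_apply,
        ContinuousLinearMap.smulRight_apply, InnerProductSpace.toDual_apply_apply, smul_eq_mul,
        inner_sub_left, inner_add_left, inner_smul_left, conj_trivial]
      ring
  have hnd : ∀ x, ψ x ≤ 0 → gr u ψ x = 0 → ∀ v, v ≠ 0 → ∃ w, hb u ψ x v w ≠ 0 := by
    intro x hx h0 v hv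
    obtain ⟨κ, A, hκ, hinj, h1, -⟩ := hhb x hx h0
    refine ⟨A v, ?_⟩
    rw [h1, real_inner_self_eq_norm_sq]
    have h2 : A v ≠ 0 := fun h => hv (hinj v h)
    have := norm_pos_iff.2 h2
    positivity
  have hcompψ : IsCompact {x | ψ x ≤ 0} := by rw [hset]; exact hcomp
  have hmw : MW u ψ := by
    refine ⟨hψs, hcompψ, ?_, fin_of_nondeg hu hψs hcompψ hnd, hnd, ?_⟩
    · intro x hx h0
      have := (hcrit x hx.le h0).1
      rw [hψ0 x hx] at this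
      exact lt_irrefl _ this
    · intro x hx h0
      obtain ⟨hneg, heq⟩ := hcrit x hx h0
      obtain ⟨κ, A, hκ, hinj, h1, h2⟩ := hhb x hx h0
      have h3 := hind τ hτ (by rw [hτd]; linarith) b hbn x hneg heq
      have h4 : ∀ v, hb u ψ x v v = κ * (hb u f x v v + -(τ / ρ x) * hb u ρ x v v +
          τ / ρ x ^ 2 * ⟪gr u ρ x, v⟫ ^ 2) := fun v => by
        rw [h1, h2]; ring
      rcases h3 with h3 | ⟨h3, v, hv⟩
      · left
        intro v w hv hw hvw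
        obtain ⟨a, c, hac⟩ := h3 v w hv hw hvw
        refine ⟨a, c, ?_⟩
        show 0 < hb u ψ x _ _
        rw [h4]
        exact mul_pos hκ hac
      · right
        refine ⟨fun v w hv hw hvw => ?_, v, ?_⟩
        · obtain ⟨a, c, hac⟩ := h3 v w hv hw hvw
          refine ⟨a, c, ?_⟩
          show hb u ψ x _ _ < 0
          rw [h4]
          exact mul_neg_of_pos_of_neg hκ hac
        · show 0 < hb u ψ x _ _
          rw [h4]
          exact mul_pos hκ hv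
  apply hball
  have := hmw.ball hu hdim (by rw [hset]; exact hne) (by rw [hset]; exact hconn)
    (by rw [hset]; exact hL) (by rw [hset0]; exact hX)
  rwa [hset] at this

/-- **Gauss map.** -/
theorem gauss_three [T2Space N] [SigmaCompactSpace N] {u : N → E}
    (hu : IsLocalDiffeomorph 𝓘(ℝ, E) 𝓘(ℝ, E) ∞ u) (hdim : 4 ≤ finrank ℝ E) {ρ : N → ℝ}
    (hρ : ContMDiff 𝓘(ℝ, E) 𝓘(ℝ, ℝ) ∞ ρ) (hcomp : IsCompact {x | ρ x ≤ 0})
    (hne : {x | ρ x ≤ 0}.Nonempty) (hconn : IsPreconnected {x | ρ x ≤ 0})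
    (hL : Lifts {x | ρ x ≤ 0}) (hX : IsPreconnected {x | ρ x = 0})
    (hreg : ∀ x, ρ x = 0 → gr u ρ x ≠ 0)
    (hball : ¬ IsBall E {x | ρ x ≤ 0}) {e : E} (he : ‖e‖ = 1) :
    ∃ x, ρ x = 0 ∧ ∃ c : ℝ, 0 < c ∧ gr u ρ x = c • e ∧ ∃ v w z : E, ‖v‖ = 1 ∧ ‖w‖ = 1 ∧ ‖z‖ = 1 ∧
      ⟪v, w⟫ = 0 ∧ ⟪gr u ρ x, v⟫ = 0 ∧ ⟪gr u ρ x, w⟫ = 0 ∧ ⟪gr u ρ x, z⟫ = 0 ∧
      (∀ a c : ℝ, hb u ρ x (a • v + c • w) (a • v + c • w) ≤ 0) ∧ 0 ≤ hb u ρ x z z := by
  obtain ⟨x, -, s, hs, hsρ, hg, v, w, z, hv, hw, hz, hvw, h1, h2, h3, h4, h5⟩ :=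
    exists_crit3 hu hdim hρ hcomp hne hconn hL hX hreg hball (ht_smooth hu.contMDiff (-e)) (by
      intro x _ h0
      rw [gr_ht hu, neg_eq_zero] at h0
      rw [h0, norm_zero] at he
      exact absurd he zero_ne_one)
  rw [gr_ht hu] at hg
  have hs0 : s ≠ 0 := by
    rintro rfl
    rw [zero_smul, add_zero, neg_eq_zero] at hg
    rw [hg, norm_zero] at he
    exact zero_ne_one he
  have hsp : 0 < s := lt_of_le_of_ne hs (Ne.symm hs0)
  have hx : ρ x = 0 := (mul_eq_zero.1 hsρ).resolve_left hs0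
  replace h1 := (mul_eq_zero.1 h1).resolve_left hs0
  replace h2 := (mul_eq_zero.1 h2).resolve_left hs0
  replace h3 := (mul_eq_zero.1 h3).resolve_left hs0
  rw [hb_ht hu, zero_add] at h5
  have hge : gr u ρ x = s⁻¹ • e := by
    have h4 : s • gr u ρ x = e := by
      have := neg_eq_of_add_eq_zero_right hg
      rw [neg_neg] at this
      exact this.symm
    rw [← h4, smul_smul, inv_mul_cancel₀ hsp.ne', one_smul]
  refine ⟨x, hx, s⁻¹, inv_pos.2 hsp, hge, v, w, z, hv, hw, hz, hvw, h1, h2, h3, fun a c => ?_, ?_⟩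
  · have h6 := h4 a c
    rw [hb_ht hu, zero_add] at h6
    by_contra hlt
    push Not at hlt
    have := mul_pos hsp hlt
    linarith
  · by_contra hlt
    push Not at hlt
    have := mul_neg_of_pos_of_neg hsp hlt
    linarith

/-- **Normal rays.** -/
theorem rays_three [T2Space N] [SigmaCompactSpace N] {u : N → E}
    (hu : IsLocalDiffeomorph 𝓘(ℝ, E) 𝓘(ℝ, E) ∞ u) (hdim : 4 ≤ finrank ℝ E) {ρ : N → ℝ}
    (hρ : ContMDiff 𝓘(ℝ, E) 𝓘(ℝ, ℝ) ∞ ρ) (hcomp : IsCompact {x | ρ x ≤ 0})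
    (hne : {x | ρ x ≤ 0}.Nonempty) (hconn : IsPreconnected {x | ρ x ≤ 0})
    (hL : Lifts {x | ρ x ≤ 0}) (hX : IsPreconnected {x | ρ x = 0})
    (hreg : ∀ x, ρ x = 0 → gr u ρ x ≠ 0)
    (hball : ¬ IsBall E {x | ρ x ≤ 0}) (p : E) :
    ∃ x, ρ x = 0 ∧ ∃ s : ℝ, 0 < s ∧ u x + s • gr u ρ x = p ∧ ∃ v w z : E, ‖v‖ = 1 ∧ ‖w‖ = 1 ∧
      ‖z‖ = 1 ∧ ⟪v, w⟫ = 0 ∧ ⟪gr u ρ x, v⟫ = 0 ∧ ⟪gr u ρ x, w⟫ = 0 ∧ ⟪gr u ρ x, z⟫ = 0 ∧
      (∀ a c : ℝ, s * hb u ρ x (a • v + c • w) (a • v + c • w) ≤ -(a ^ 2 + c ^ 2)) ∧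
      -1 ≤ s * hb u ρ x z z := by
  obtain ⟨x, -, s, hs, hsρ, hg, v, w, z, hv, hw, hz, hvw, h1, h2, h3, h4, h5⟩ :=
    exists_crit3 hu hdim hρ hcomp hne hconn hL hX hreg hball (fd_smooth hu.contMDiff p) (by
      intro x _ _
      haveI : Nontrivial E := Module.nontrivial_of_finrank_pos (R := ℝ) (by omega)
      obtain ⟨v, hv⟩ := exists_norm_eq E (zero_le_one' ℝ)
      refine ⟨v, ?_⟩
      rw [hb_fd hu, real_inner_self_eq_norm_sq, hv]
      norm_num)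
  rw [gr_fd hu] at hg
  have hs0 : s ≠ 0 := by
    rintro rfl
    have := h4 1 0
    rw [hb_fd hu, one_smul, zero_smul, add_zero, real_inner_self_eq_norm_sq, hv] at this
    norm_num at this
  have hsp : 0 < s := lt_of_le_of_ne hs (Ne.symm hs0)
  have hx : ρ x = 0 := (mul_eq_zero.1 hsρ).resolve_left hs0
  replace h1 := (mul_eq_zero.1 h1).resolve_left hs0
  replace h2 := (mul_eq_zero.1 h2).resolve_left hs0
  replace h3 := (mul_eq_zero.1 h3).resolve_left hs0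
  have hwv : ⟪w, v⟫ = 0 := by rw [real_inner_comm]; exact hvw
  have hnorm : ∀ a c : ℝ, ⟪a • v + c • w, a • v + c • w⟫ = a ^ 2 + c ^ 2 := by
    intro a c
    rw [inner_add_left, inner_add_right, inner_add_right]
    simp only [inner_smul_left, inner_smul_right, conj_trivial, real_inner_self_eq_norm_sq, hv, hw,
      hvw, hwv]
    ring
  refine ⟨x, hx, s, hsp, ?_, v, w, z, hv, hw, hz, hvw, h1, h2, h3, fun a c => ?_, ?_⟩
  · have h6 : u x + s • gr u ρ x - p = 0 := by rw [← hg]; abel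
    exact sub_eq_zero.1 h6
  · have h6 := h4 a c
    rw [hb_fd hu, hnorm] at h6
    linarith
  · rw [hb_fd hu, real_inner_self_eq_norm_sq, hz] at h5
    linarith

end Pool.Agent.Q196.XG
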