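import Pool.Agent.Q196.XG.Fin

/-! Inward normal rays. -/

set_option autoImplicit false
set_option linter.unusedSectionVars false

open scoped Topology ContDiff Manifold RealInnerProductSpace Gradient
open Set Metric Filter Bundle Module Pool.Agent.Q196.XB Pool.Agent.Q196.XF Asymptotics

noncomputable section

namespace Pool.Agent.Q196.XG

variable {E : Type} [NormedAddCommGroup E] [InnerProductSpace ℝ E] [FiniteDimensional ℝ E]
  {N : Type} [TopologicalSpace N] [ChartedSpace E N] [IsManifold 𝓘(ℝ, E) ∞ N]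

/-- functions of the position -/
lemma hb_comp {u : N → E} (hu : IsLocalDiffeomorph 𝓘(ℝ, E) 𝓘(ℝ, E) ∞ u) {φ : E → ℝ}
    (hφ : ContDiff ℝ ∞ φ) (x : N) (v w : E) :
    hb u (φ ∘ u) x v w = ⟪fderiv ℝ (∇ φ) (u x) v, w⟫ := by
  obtain ⟨U, σ, h, hxU, hσx⟩ := exists_sec hu x
  have hx' : x ∈ σ '' U := ⟨u x, hxU, hσx⟩
  rw [hb_sec hu (hφ.contMDiff.comp hu.contMDiff) h hx']
  have h1 : ∇ ((φ ∘ u) ∘ σ) =ᶠ[𝓝 (u x)] ∇ φ := by
    filter_upwards [h.isOpen.mem_nhds hxU] with z hz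
    have h2 : ((φ ∘ u) ∘ σ) =ᶠ[𝓝 z] φ := by
      filter_upwards [h.isOpen.mem_nhds hz] with y hy
      show φ (u (σ y)) = φ y
      rw [h.right y hy]
    unfold gradient
    rw [h2.fderiv_eq]
  rw [h1.fderiv_eq]

lemma negsq_smooth (p : E) : ContDiff ℝ ∞ fun y : E => -(‖y - p‖ ^ 2 / 2) := by
  have h1 : ContDiff ℝ ∞ fun y : E => ‖y - p‖ ^ 2 :=
    (contDiff_id.sub contDiff_const).norm_sq ℝ
  exact (h1.div_const 2).neg

lemma negsq_grad (p y : E) : ∇ (fun y : E => -(‖y - p‖ ^ 2 / 2)) y = -(y - p) := by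
  have h1 : HasFDerivAt (fun y : E => ‖y - p‖ ^ 2)
      (2 • (innerSL ℝ (y - p)).comp (ContinuousLinearMap.id ℝ E)) y :=
    ((hasFDerivAt_id y).sub_const p).norm_sq
  have h2 := (h1.mul_const (2:ℝ)⁻¹).neg
  have h3 : HasFDerivAt (fun y : E => -(‖y - p‖ ^ 2 / 2))
      (-((2:ℝ)⁻¹ • (2 • (innerSL ℝ (y - p)).comp (ContinuousLinearMap.id ℝ E)))) y := by
    refine h2.congr_of_eventuallyEq (Filter.Eventually.of_forall fun z => ?_)
    simp [div_eq_mul_inv]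
  unfold gradient
  rw [h3.fderiv]
  apply (InnerProductSpace.toDual ℝ E).injective
  rw [LinearIsometryEquiv.apply_symm_apply]
  ext v
  simp

/-- **Inward normal rays.** -/
theorem rays_in [T2Space N] [SigmaCompactSpace N] {u : N → E}
    (hu : IsLocalDiffeomorph 𝓘(ℝ, E) 𝓘(ℝ, E) ∞ u) (hdim : 4 ≤ finrank ℝ E) {ρ : N → ℝ}
    (hρ : ContMDiff 𝓘(ℝ, E) 𝓘(ℝ, ℝ) ∞ ρ) (hcomp : IsCompact {x | ρ x ≤ 0})
    (hne : {x | ρ x ≤ 0}.Nonempty) (hconn : IsPreconnected {x | ρ x ≤ 0})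
    (hL : Lifts {x | ρ x ≤ 0}) (hX : IsPreconnected {x | ρ x = 0})
    (hreg : ∀ x, ρ x = 0 → gr u ρ x ≠ 0)
    (hball : ¬ IsBall E {x | ρ x ≤ 0}) (p : E) (hp : ∀ x, ρ x ≤ 0 → u x ≠ p) :
    ∃ x, ρ x = 0 ∧ ∃ s : ℝ, 0 < s ∧ u x - s • gr u ρ x = p ∧ ∃ v w z : E, ‖v‖ = 1 ∧ ‖w‖ = 1 ∧
      ‖z‖ = 1 ∧ ⟪v, w⟫ = 0 ∧ ⟪gr u ρ x, v⟫ = 0 ∧ ⟪gr u ρ x, w⟫ = 0 ∧ ⟪gr u ρ x, z⟫ = 0 ∧
      (∀ a c : ℝ, s * hb u ρ x (a • v + c • w) (a • v + c • w) ≤ a ^ 2 + c ^ 2) ∧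
      1 ≤ s * hb u ρ x z z := by
  have hφ := negsq_smooth p
  set φ : E → ℝ := fun y => -(‖y - p‖ ^ 2 / 2) with hφd
  have hgr : ∀ x, gr u (φ ∘ u) x = -(u x - p) := fun x => by
    rw [gr_comp hu x (hφ.differentiable (by simp)).differentiableAt, negsq_grad]
  have hhb : ∀ x v w, hb u (φ ∘ u) x v w = -⟪v, w⟫ := by
    intro x v w
    rw [hb_comp hu hφ]
    have h1 : ∇ φ = fun y => -(y - p) := funext fun y => negsq_grad p y
    have h2 : HasFDerivAt (fun z : E => -(z - p)) (-(ContinuousLinearMap.id ℝ E)) (u x) :=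
      ((hasFDerivAt_id (u x)).sub_const p).neg
    rw [h1, h2.fderiv]
    simp
  obtain ⟨x, hx0, s, hs, hsρ, hg, v, w, z, hv, hw, hz, hvw, h1, h2, h3, h4, h5⟩ :=
    exists_crit3 hu hdim hρ hcomp hne hconn hL hX hreg hball (hφ.contMDiff.comp hu.contMDiff) (by
      intro x hx h0
      rw [hgr, neg_eq_zero, sub_eq_zero] at h0
      exact absurd h0 (hp x hx))
  rw [hgr] at hg
  have hs0 : s ≠ 0 := by
    rintro rfl
    rw [zero_smul, add_zero, neg_eq_zero, sub_eq_zero] at hg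
    exact hp x hx0 hg
  have hsp : 0 < s := lt_of_le_of_ne hs (Ne.symm hs0)
  have hx : ρ x = 0 := (mul_eq_zero.1 hsρ).resolve_left hs0
  replace h1 := (mul_eq_zero.1 h1).resolve_left hs0
  replace h2 := (mul_eq_zero.1 h2).resolve_left hs0
  replace h3 := (mul_eq_zero.1 h3).resolve_left hs0
  have hwv : ⟪w, v⟫ = 0 := by rw [real_inner_comm]; exact hvw
  have hnorm : ∀ a c : ℝ, ⟪a • v + c • w, a • v + c • w⟫ = a ^ 2 + c ^ 2 := by
    intro a c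
    rw [inner_add_left, inner_add_right, inner_add_right]
    simp only [inner_smul_left, inner_smul_right, conj_trivial, real_inner_self_eq_norm_sq, hv, hw,
      hvw, hwv]
    ring
  refine ⟨x, hx, s, hsp, ?_, v, w, z, hv, hw, hz, hvw, h1, h2, h3, fun a c => ?_, ?_⟩
  · have h6 : u x - s • gr u ρ x - p = -(-(u x - p) + s • gr u ρ x) := by abel
    rw [hg, neg_zero] at h6
    exact sub_eq_zero.1 h6
  · have h6 := h4 a c
    rw [hhb, hnorm] at h6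
    linarith
  · rw [hhb, real_inner_self_eq_norm_sq, hz] at h5
    linarith

end Pool.Agent.Q196.XG
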