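import Pool.Agent.Q196.XF.Hyp
import Pool.Agent.Q196.XG.Rays

/-! Embedded simply connected hypersurfaces of Euclidean space which are not spheres. -/

set_option autoImplicit false
set_option linter.unusedSectionVars false

open scoped Topology ContDiff Manifold RealInnerProductSpace Gradient
open Set Metric Filter Module Pool.Agent.Q196.XB Pool.Agent.Q196.XF

noncomputable section

namespace Pool.Agent.Q196.XG

variable {n : ℕ} {X : Type} [TopologicalSpace X] [ChartedSpace (EuclideanSpace ℝ (Fin n)) X]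
  [IsManifold (𝓡 n) ∞ X]

/-- **Critical points of index two of functions on the domain bounded by a hypersurface which is not
a sphere.** -/
theorem hyp_crit3 (hn : 3 ≤ n) [SimplyConnectedSpace X] {j : X → EuclideanSpace ℝ (Fin (n + 1))}
    (hj : Manifold.IsSmoothEmbedding (𝓡 n) (𝓡 (n + 1)) ∞ j)
    {ρ : EuclideanSpace ℝ (Fin (n + 1)) → ℝ} (hρ : ContDiff ℝ ∞ ρ)
    (hreg : ∀ x, ρ x = 0 → ∇ ρ x ≠ 0) (hcomp : IsCompact {x | ρ x ≤ 0})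
    (hconn : IsConnected {x | ρ x ≤ 0}) (hr : range j = {x | ρ x = 0})
    (hX : ¬ Nonempty (X ≃ₘ⟮𝓡 n, 𝓡 n⟯ sphere (0 : EuclideanSpace ℝ (Fin (n + 1))) 1))
    {φ : EuclideanSpace ℝ (Fin (n + 1)) → ℝ} (hφ : ContDiff ℝ ∞ φ)
    (hφc : ∀ x, ρ x ≤ 0 → ∇ φ x = 0 → ∃ v, 0 < ⟪fderiv ℝ (∇ φ) x v, v⟫) :
    ∃ x, ρ x ≤ 0 ∧ ∃ s, 0 ≤ s ∧ s * ρ x = 0 ∧ ∇ φ x + s • ∇ ρ x = 0 ∧
      ∃ v w z : EuclideanSpace ℝ (Fin (n + 1)), ‖v‖ = 1 ∧ ‖w‖ = 1 ∧ ‖z‖ = 1 ∧ ⟪v, w⟫ = 0 ∧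
      s * ⟪∇ ρ x, v⟫ = 0 ∧ s * ⟪∇ ρ x, w⟫ = 0 ∧ s * ⟪∇ ρ x, z⟫ = 0 ∧ (∀ a c : ℝ,
      ⟪fderiv ℝ (∇ φ) x (a • v + c • w), a • v + c • w⟫ +
        s * ⟪fderiv ℝ (∇ ρ) x (a • v + c • w), a • v + c • w⟫ ≤ 0) ∧
      0 ≤ ⟪fderiv ℝ (∇ φ) x z, z⟫ + s * ⟪fderiv ℝ (∇ ρ) x z, z⟫ := by
  have hball : ¬IsBall (EuclideanSpace ℝ (Fin (n + 1))) {x | ρ x ≤ 0} := fun hb =>
    hX (diffeo_of_ball hj hρ hreg hr hb)
  have hbd : IsPreconnected {x | ρ x = 0} := by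
    rw [← hr]
    exact isPreconnected_range hj.contMDiff.continuous
  obtain ⟨x, hx, s, hs, hsρ, hg, v, w, z, hv, hw, hz, hvw, h1, h2, h3, h4, h5⟩ :=
    exists_crit3 id_ld' (by rw [finrank_euclideanSpace_fin]; omega) hρ.contMDiff hcomp
      hconn.nonempty hconn.isPreconnected
      (lifts_of_embedded hj.isEmbedding hρ.continuous hr) hbd
      (fun x hx => by rw [gr_id' hρ]; exact hreg x hx) hball hφ.contMDiff (by
        intro x hx h0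
        rw [gr_id' hφ] at h0
        obtain ⟨v, hv⟩ := hφc x hx h0
        exact ⟨v, by rw [hb_id' hφ]; exact hv⟩)
  simp only [gr_id' hρ, gr_id' hφ, hb_id' hρ, hb_id' hφ] at hg h1 h2 h3 h4 h5
  exact ⟨x, hx, s, hs, hsρ, hg, v, w, z, hv, hw, hz, hvw, h1, h2, h3, h4, h5⟩

end Pool.Agent.Q196.XG
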