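import Pool.Agent.Q196.XG.Cross

/-! Domains with a defining function all of whose critical points have index at most one or
coindex one: maps to the circle of the boundary extend. -/

set_option autoImplicit false
set_option linter.unusedSectionVars false

open scoped Topology ContDiff Manifold RealInnerProductSpace Gradient
open Set Metric Filter Bundle Module Pool.Agent.Q196.XB Pool.Agent.Q196.XF Asymptotics

noncomputable section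

namespace Pool.Agent.Q196.XG

variable {E : Type} [NormedAddCommGroup E] [InnerProductSpace ℝ E] [FiniteDimensional ℝ E]
  {N : Type} [TopologicalSpace N] [ChartedSpace E N] [IsManifold 𝓘(ℝ, E) ∞ N]

/-- Not two independent nonpositive directions, or one positive direction and no two independent
nonnegative directions. -/
def Idx (Q : E → ℝ) : Prop :=
  (∀ v w : E, ‖v‖ = 1 → ‖w‖ = 1 → ⟪v, w⟫ = 0 → ∃ a b : ℝ, 0 < Q (a • v + b • w)) ∨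
  ((∀ v w : E, ‖v‖ = 1 → ‖w‖ = 1 → ⟪v, w⟫ = 0 → ∃ a b : ℝ, Q (a • v + b • w) < 0) ∧
    ∃ v, 0 < Q v)

/-- The three types. -/
lemma idx_cases {A : E →L[ℝ] E} (hA : ∀ v w, ⟪A v, w⟫ = ⟪A w, v⟫)
    (hnd : ∀ v, v ≠ 0 → A v ≠ 0) (h : Idx fun v => ⟪A v, v⟫) :
    (∃ β, 0 < β ∧ ∀ y, β * ‖y‖ ^ 2 ≤ ⟪A y, y⟫) ∨
    (∃ (e : E) (α β : ℝ), ‖e‖ = 1 ∧ A e = -(α • e) ∧ 0 < α ∧ 0 < β ∧
      ∀ y, ⟪e, y⟫ = 0 → β * ‖y‖ ^ 2 ≤ ⟪A y, y⟫) ∨
    ∃ (e : E) (α β : ℝ), ‖e‖ = 1 ∧ A e = α • e ∧ 0 < α ∧ 0 < β ∧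
      ∀ y, ⟪e, y⟫ = 0 → ⟪A y, y⟫ ≤ -(β * ‖y‖ ^ 2) := by
  rcases h with h | ⟨h, v, hv⟩
  · rcases sym_cases hA hnd h with h1 | h1
    · exact Or.inl h1
    · exact Or.inr (Or.inl h1)
  · right; right
    have h1 := sym_cases (A := -A) (fun v w => by
      rw [_root_.neg_apply, _root_.neg_apply, inner_neg_left, inner_neg_left, hA])
      (fun v hv h0 => hnd v hv (by rw [_root_.neg_apply] at h0; exact neg_eq_zero.1 h0))
      (fun v w h2 h3 h4 => by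
        obtain ⟨a, b, hab⟩ := h v w h2 h3 h4
        refine ⟨a, b, ?_⟩
        rw [_root_.neg_apply, inner_neg_left]
        exact neg_pos.2 hab)
    rcases h1 with ⟨β, hβ, h1⟩ | ⟨e, α, β, he, hAe, hα, hβ, h1⟩
    · exfalso
      have h2 := h1 v
      rw [_root_.neg_apply, inner_neg_left] at h2
      have : 0 ≤ β * ‖v‖ ^ 2 := by positivity
      have hv' : 0 < ⟪A v, v⟫ := hv
      linarith
    · refine ⟨e, α, β, he, ?_, hα, hβ, fun y hy => ?_⟩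
      · rw [_root_.neg_apply] at hAe
        exact neg_injective hAe
      · have h2 := h1 y hy
        rw [_root_.neg_apply, inner_neg_left] at h2
        linarith

lemma shArg_of_idx (hdim : 4 ≤ finrank ℝ E) {A : E →L[ℝ] E} (hA : ∀ v w, ⟪A v, w⟫ = ⟪A w, v⟫)
    (hnd : ∀ v, v ≠ 0 → A v ≠ 0) (h : Idx fun v => ⟪A v, v⟫) : ShArg A := by
  intro a ha
  rcases idx_cases hA hnd h with ⟨β, hβ, h1⟩ | ⟨e, α, β, he, hAe, hα, hβ, h1⟩ |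
    ⟨e, α, β, he, hAe, hα, hβ, h1⟩
  · refine ⟨β * a ^ 2 / 2, by positivity, fun κ hκ hκ' f hf hf1 => ?_⟩
    refine (PosOn.id hA hβ h1).shell ha hκ (by linarith) ?_ hf hf1
    rw [finrank_top]
    omega
  · refine ⟨β * a ^ 2 / 2, by positivity, fun κ hκ hκ' f hf hf1 => ?_⟩
    obtain ⟨pr, hpr⟩ := PosOn.perp hA he hAe hα hβ h1
    refine hpr.shell ha hκ (by linarith) ?_ hf hf1
    have e3 := Submodule.finrank_add_finrank_orthogonal (ℝ ∙ e)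
    have e4 : finrank ℝ (ℝ ∙ e) ≤ 1 := by
      have := finrank_span_le_card (R := ℝ) ({e} : Set E)
      simpa using this
    omega
  · refine ⟨α * a ^ 2, by positivity, fun κ hκ hκ' f hf hf1 => ?_⟩
    exact shell_neg hA he hAe hα hβ h1 ha hκ hκ' hf hf1

/-- A compact domain with a defining function all of whose critical points are nondegenerate,
finite in number, and have index at most one or coindex one. -/
structure MW (u : N → E) (ρ : N → ℝ) : Prop where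
  smooth : ContMDiff 𝓘(ℝ, E) 𝓘(ℝ, ℝ) ∞ ρ
  comp : IsCompact {x | ρ x ≤ 0}
  reg : ∀ x, ρ x = 0 → gr u ρ x ≠ 0
  fin : {x | ρ x ≤ 0 ∧ gr u ρ x = 0}.Finite
  nondeg : ∀ x, ρ x ≤ 0 → gr u ρ x = 0 → ∀ v, v ≠ 0 → ∃ w, hb u ρ x v w ≠ 0
  index : ∀ x, ρ x ≤ 0 → gr u ρ x = 0 → Idx fun v => hb u ρ x v v

lemma gr_localMax {u : N → E} (hu : IsLocalDiffeomorph 𝓘(ℝ, E) 𝓘(ℝ, E) ∞ u) {ρ : N → ℝ}
    (hρ : ContMDiff 𝓘(ℝ, E) 𝓘(ℝ, ℝ) ∞ ρ) {x : N} (hx : IsLocalMax ρ x) : gr u ρ x = 0 := by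
  obtain ⟨U, σ, h, hxU, hσx⟩ := exists_sec hu x
  have h1 := gr_sec' hu hρ h hxU
  rw [hσx] at h1
  rw [h1]
  have h2 : IsLocalMax (ρ ∘ σ) (u x) := by
    have h3 := (h.contAt hxU).tendsto
    rw [hσx] at h3
    filter_upwards [h3.eventually hx] with z hz
    show ρ (σ z) ≤ ρ (σ (u x))
    rw [hσx]; exact hz
  unfold gradient
  rw [h2.fderiv_eq_zero, map_zero]

/-- The data at the highest critical point. -/
structure Top (u : N → E) (ρ ρ' : N → ℝ) (p : N) (σ : E → N) (r : ℝ) (A : E →L[ℝ] E) : Prop where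
  smooth : ContMDiff 𝓘(ℝ, E) 𝓘(ℝ, ℝ) ∞ ρ'
  le : ∀ x, ρ' x ≤ 0 ↔ ρ x ≤ 0
  zero : ∀ x, ρ' x = 0 ↔ ρ x = 0
  cr : ∀ x, gr u ρ' x = 0 ↔ gr u ρ x = 0
  near : ∀ x, gr u ρ x = 0 → x ≠ p → ρ' =ᶠ[𝓝 x] ρ
  rpos : 0 < r
  top : ρ p < ρ' p
  neg' : ρ p < 0
  neg : ρ' p < 0
  crp : gr u ρ p = 0
  sec : Sec u (ball (u p) r) σ
  σp : σ (u p) = p
  quad : ∀ z ∈ ball (u p) r, ρ' (σ z) = ρ' p + ⟪A (z - u p), z - u p⟫ / 2
  sym : ∀ v w, ⟪A v, w⟫ = ⟪A w, v⟫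
  nd : ∀ v, v ≠ 0 → A v ≠ 0
  idx : Idx fun v => ⟪A v, v⟫
  mx : ∀ x, ρ' x ≤ 0 → gr u ρ' x = 0 → x ≠ p → ρ' x ≤ ρ p

theorem MW.exists_top [T2Space N] [SigmaCompactSpace N] {u : N → E}
    (hu : IsLocalDiffeomorph 𝓘(ℝ, E) 𝓘(ℝ, E) ∞ u) {ρ : N → ℝ} (D : MW u ρ)
    (hne : {x | ρ x ≤ 0}.Nonempty) : ∃ ρ' p σ r A, Top u ρ ρ' p σ r A := by
  obtain ⟨p, ⟨hp1, hp2⟩, hpmax⟩ := Set.exists_max_image _ ρ D.fin (exists_crit hu D.smooth D.comp hne)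
  have hp0 : ρ p < 0 := lt_of_le_of_ne hp1 (fun h => D.reg p h hp2)
  obtain ⟨ρ', σ, r, A, hρ', hle, hzero, hcr, hnear, hr, htop, hp0', hσ, hσp, hquad, hsym, hAhb⟩ :=
    quad_N hu D.smooth hp0 hp2 (D.nondeg p hp1 hp2)
  refine ⟨ρ', p, σ, r, A, hρ', hle, fun x => ⟨hzero x, fun h0 => ?_⟩, hcr, hnear, hr, htop, hp0,
    hp0', hp2, hσ, hσp, hquad, hsym, ?_, ?_, ?_⟩
  · by_contra hne
    have h1 : ρ' x < 0 := lt_of_le_of_ne ((hle x).2 h0.le) hne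
    have h2 : ∀ᶠ y in 𝓝 x, ρ' y < 0 := hρ'.continuous.continuousAt.eventually_lt_const h1
    have h3 : IsLocalMax ρ x := by
      filter_upwards [h2] with y hy
      rw [h0]
      exact (hle y).1 hy.le
    exact D.reg x h0 (gr_localMax hu D.smooth h3)
  · intro v hv h
    obtain ⟨w, hw⟩ := D.nondeg p hp1 hp2 v hv
    apply hw
    rw [← hAhb, h, inner_zero_left]
  · have h1 : (fun v => ⟪A v, v⟫) = fun v => hb u ρ p v v := funext fun v => hAhb v v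
    rw [h1]
    exact D.index p hp1 hp2
  · intro x h1 h2 h3
    have h4 := (hcr x).1 h2
    rw [(hnear x h4 h3).eq_of_nhds]
    exact hpmax x ⟨(hle x).1 h1, h4⟩

section top

variable {u : N → E} {ρ ρ' : N → ℝ} {p : N} {σ : E → N} {r : ℝ} {A : E →L[ℝ] E}

lemma Top.crit (T : Top u ρ ρ' p σ r A) {c₁ : ℝ} (hc : ρ p < c₁) :
    ∀ x, ρ' x ≤ 0 → c₁ ≤ ρ' x → gr u ρ' x = 0 → x = p := by
  intro x h1 h2 h3
  by_contra hne
  have := T.mx x h1 h3 hne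
  linarith

/-- a piece of the lower sublevel set -/
theorem Top.piece (hu : IsLocalDiffeomorph 𝓘(ℝ, E) 𝓘(ℝ, E) ∞ u) (T : Top u ρ ρ' p σ r A)
    (D : MW u ρ) {c₁ : ℝ} (hc : ρ p < c₁) (hc' : c₁ < ρ' p) {ρ₁ : N → ℝ}
    (hρ₁ : ContMDiff 𝓘(ℝ, E) 𝓘(ℝ, ℝ) ∞ ρ₁) (hcomp : IsCompact {x | ρ₁ x ≤ 0})
    (hle : ∀ x, ρ₁ x ≤ 0 → ρ' x ≤ c₁) (hnear₁ : ∀ x, ρ₁ x ≤ 0 → ρ₁ =ᶠ[𝓝 x] fun y => ρ' y - c₁) :
    MW u ρ₁ ∧ {x | ρ₁ x ≤ 0 ∧ gr u ρ₁ x = 0}.ncard < {x | ρ x ≤ 0 ∧ gr u ρ x = 0}.ncard := by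
  have hc₁0 : c₁ < 0 := hc'.trans T.neg
  have hgr₁ : ∀ x, ρ₁ x ≤ 0 → gr u ρ₁ x = gr u ρ' x := fun x hx => by
    rw [gr_congr (hnear₁ x hx), gr_sub_const hu T.smooth]
  have hxp : ∀ x, ρ₁ x ≤ 0 → x ≠ p := by
    rintro x hx rfl
    have := hle x hx
    linarith
  have hcrρ : ∀ x, ρ₁ x ≤ 0 → gr u ρ₁ x = 0 → ρ x ≤ 0 ∧ gr u ρ x = 0 := by
    intro x hx h0
    rw [hgr₁ x hx] at h0
    exact ⟨(T.le x).1 ((hle x hx).trans hc₁0.le), (T.cr x).1 h0⟩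
  have hhb : ∀ x, ρ₁ x ≤ 0 → gr u ρ₁ x = 0 → ∀ v w, hb u ρ₁ x v w = hb u ρ x v w := by
    intro x hx h0 v w
    rw [hb_congr (hnear₁ x hx), hb_sub_const hu T.smooth,
      hb_congr (T.near x (hcrρ x hx h0).2 (hxp x hx))]
  have hsub : {x | ρ₁ x ≤ 0 ∧ gr u ρ₁ x = 0} ⊆ {x | ρ x ≤ 0 ∧ gr u ρ x = 0} :=
    fun x hx => hcrρ x hx.1 hx.2
  have hss : {x | ρ₁ x ≤ 0 ∧ gr u ρ₁ x = 0} ⊂ {x | ρ x ≤ 0 ∧ gr u ρ x = 0} := by
    refine ⟨hsub, fun h => ?_⟩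
    have : p ∈ {x | ρ₁ x ≤ 0 ∧ gr u ρ₁ x = 0} := h ⟨T.neg'.le, T.crp⟩
    exact hxp p this.1 rfl
  refine ⟨⟨hρ₁, hcomp, ?_, D.fin.subset hsub, ?_, ?_⟩, Set.ncard_lt_ncard hss D.fin⟩
  · intro x hx h0
    rw [hgr₁ x hx.le] at h0
    have h1 := (hnear₁ x hx.le).eq_of_nhds
    have h2 := hle x hx.le
    have h3 := T.crit hc x (h2.trans hc₁0.le) (by rw [hx] at h1; linarith) h0
    exact hxp x hx.le h3
  · intro x hx h0 v hv
    obtain ⟨w, hw⟩ := D.nondeg x (hcrρ x hx h0).1 (hcrρ x hx h0).2 v hv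
    exact ⟨w, by rw [hhb x hx h0]; exact hw⟩
  · intro x hx h0
    have h1 : (fun v => hb u ρ₁ x v v) = fun v => hb u ρ x v v := funext fun v => hhb x hx h0 v v
    rw [h1]
    exact D.index x (hcrρ x hx h0).1 (hcrρ x hx h0).2

theorem Top.lower (hu : IsLocalDiffeomorph 𝓘(ℝ, E) 𝓘(ℝ, E) ∞ u) (T : Top u ρ ρ' p σ r A)
    (D : MW u ρ) {c₁ : ℝ} (hc : ρ p < c₁) (hc' : c₁ < ρ' p) :
    MW u (fun y => ρ' y - c₁) ∧ {x | ρ' x - c₁ ≤ 0 ∧ gr u (fun y => ρ' y - c₁) x = 0}.ncard <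
      {x | ρ x ≤ 0 ∧ gr u ρ x = 0}.ncard := by
  have hset : {x | ρ' x ≤ 0} = {x | ρ x ≤ 0} := by
    ext x; exact T.le x
  have hcomp' : IsCompact {x | ρ' x ≤ 0} := by rw [hset]; exact D.comp
  refine T.piece hu D hc hc' (T.smooth.sub contMDiff_const) ?_ (fun x hx => by linarith)
    (fun x _ => Filter.EventuallyEq.rfl)
  have hc₁0 : c₁ < 0 := hc'.trans T.neg
  refine hcomp'.of_isClosed_subset (isClosed_le (T.smooth.continuous.sub continuous_const)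
    continuous_const) fun x (hx : ρ' x - c₁ ≤ 0) => ?_
  show ρ' x ≤ 0
  linarith

end top

theorem MW.ext_aux [T2Space N] [SigmaCompactSpace N] {u : N → E}
    (hu : IsLocalDiffeomorph 𝓘(ℝ, E) 𝓘(ℝ, E) ∞ u) (hdim : 4 ≤ finrank ℝ E) :
    ∀ (n : ℕ) (ρ : N → ℝ), MW u ρ →
      {x | ρ x ≤ 0 ∧ gr u ρ x = 0}.ncard = n → ∀ f : N → ℂ, ContinuousOn f {x | ρ x = 0} →
      (∀ x, ρ x = 0 → ‖f x‖ = 1) → ∃ F : N → ℂ, ContinuousOn F {x | ρ x ≤ 0} ∧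
        (∀ x, ρ x ≤ 0 → ‖F x‖ = 1) ∧ ∀ x, ρ x = 0 → F x = f x := by
  classical
  intro n
  induction n using Nat.strong_induction_on with
  | _ n ih =>
  intro ρ D hn f hf hf1
  rcases {x | ρ x ≤ 0}.eq_empty_or_nonempty with hem | hne
  · refine ⟨f, by rw [hem]; exact continuousOn_empty f, fun x hx => ?_, fun _ _ => rfl⟩
    have : x ∈ {x | ρ x ≤ 0} := hx
    rw [hem] at this
    exact absurd this (notMem_empty _)
  obtain ⟨ρ', p, σ, r, A, T⟩ := D.exists_top hu hne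
  have hset : {x | ρ' x ≤ 0} = {x | ρ x ≤ 0} := by
    ext x; exact T.le x
  have hset0 : {x | ρ' x = 0} = {x | ρ x = 0} := by
    ext x; exact T.zero x
  have hcomp' : IsCompact {x | ρ' x ≤ 0} := by rw [hset]; exact D.comp
  set c₁ : ℝ := (ρ p + ρ' p) / 2 with hc₁d
  have htop := T.top
  have hc₁ : ρ p < c₁ := by rw [hc₁d]; linarith
  have hc₁' : c₁ < ρ' p := by rw [hc₁d]; linarith
  have hc₁0 : c₁ < 0 := hc₁'.trans T.neg
  obtain ⟨F₁, hF₁, hF₁1, hF₁e⟩ := cross hu T.smooth hcomp' T.rpos T.sec T.σp T.quad T.sym T.nd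
    (shArg_of_idx hdim T.sym T.nd T.idx) T.neg hc₁' (T.crit hc₁) (f := f)
    (by rw [hset0]; exact hf) (fun x hx => hf1 x ((T.zero x).1 hx))
  obtain ⟨D', hlt⟩ := T.lower hu D hc₁ hc₁'
  have hz : ∀ x, ρ' x - c₁ = 0 → c₁ ≤ ρ' x ∧ ρ' x ≤ 0 := fun x hx =>
    ⟨by linarith, by linarith⟩
  obtain ⟨F₂, hF₂, hF₂1, hF₂e⟩ := ih _ (by rw [← hn]; exact hlt) _ D' rfl F₁
    (hF₁.mono fun x (hx : ρ' x - c₁ = 0) => hz x hx) (fun x hx => hF₁1 x (hz x hx).1 (hz x hx).2)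
  set F : N → ℂ := fun x => if ρ' x - c₁ ≤ 0 then F₂ x else F₁ x with hF
  have e2 : ∀ x, ρ' x - c₁ ≤ 0 → F x = F₂ x := fun x hx => by simp only [hF, if_pos hx]
  have e1 : ∀ x, c₁ ≤ ρ' x → F x = F₁ x := by
    intro x hx
    by_cases h : ρ' x - c₁ ≤ 0
    · rw [e2 x h, hF₂e x (le_antisymm h (by linarith))]
    · simp only [hF, if_neg h]
  have hcov : {x | ρ x ≤ 0} = {x | ρ' x - c₁ ≤ 0} ∪ {x | c₁ ≤ ρ' x ∧ ρ' x ≤ 0} := by
    rw [← hset]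
    ext x
    simp only [mem_setOf_eq, mem_union]
    constructor
    · intro h
      rcases le_total (ρ' x) c₁ with h1 | h1
      · exact Or.inl (by linarith)
      · exact Or.inr ⟨h1, h⟩
    · rintro (h | h)
      · linarith
      · exact h.2
  have hρc := T.smooth.continuous
  refine ⟨F, ?_, fun x hx => ?_, fun x hx => ?_⟩
  · rw [hcov]
    refine ContinuousOn.union_of_isClosed (hF₂.congr e2) (hF₁.congr fun x hx => e1 x hx.1)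
      (isClosed_le (hρc.sub continuous_const) continuous_const)
      ((isClosed_le continuous_const hρc).inter (isClosed_le hρc continuous_const))
  · have hx' := (T.le x).2 hx
    rcases le_total (ρ' x) c₁ with h1 | h1
    · rw [e2 x (by linarith)]
      exact hF₂1 x (by linarith)
    · rw [e1 x h1]
      exact hF₁1 x h1 hx'
  · have hx' := (T.zero x).2 hx
    rw [e1 x (by rw [hx']; exact hc₁0.le), hF₁e x hx']

/-- **Every map of the boundary to the circle extends to the domain.** -/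
theorem MW.ext [T2Space N] [SigmaCompactSpace N] {u : N → E}
    (hu : IsLocalDiffeomorph 𝓘(ℝ, E) 𝓘(ℝ, E) ∞ u) (hdim : 4 ≤ finrank ℝ E) {ρ : N → ℝ}
    (D : MW u ρ) {f : N → ℂ} (hf : ContinuousOn f {x | ρ x = 0}) (h1 : ∀ x, ρ x = 0 → ‖f x‖ = 1) :
    ∃ F : N → ℂ, ContinuousOn F {x | ρ x ≤ 0} ∧
        (∀ x, ρ x ≤ 0 → ‖F x‖ = 1) ∧ ∀ x, ρ x = 0 → F x = f x :=
  MW.ext_aux hu hdim _ ρ D rfl f hf h1

end Pool.Agent.Q196.XG
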