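import Pool.Agent.Q196.XG.Top

/-! Every map to the circle of the set on which a quadratic form is at least a small positive
constant, inside a ball, has an argument, in the three relevant cases. -/

set_option autoImplicit false
set_option linter.unusedSectionVars false

open scoped Topology ContDiff Manifold RealInnerProductSpace Gradient unitInterval
open Set Metric Filter Bundle Module Pool.Agent.Q196.XB Pool.Agent.Q196.XF Asymptotics

noncomputable section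

namespace Pool.Agent.Q196.XG

variable {E : Type} [NormedAddCommGroup E] [InnerProductSpace ℝ E] [FiniteDimensional ℝ E]

/-- the shell -/
def Sh (A : E →L[ℝ] E) (a κ : ℝ) : Set E := {z | ‖z‖ ≤ a ∧ κ ≤ ⟪A z, z⟫}

lemma Sh_closed (A : E →L[ℝ] E) (a κ : ℝ) : IsClosed (Sh A a κ) :=
  (isClosed_le continuous_norm continuous_const).inter
    (isClosed_le continuous_const (by fun_prop : Continuous fun z : E => ⟪A z, z⟫))

/-- `A` is positive on `P`, and the projection `pr` to `P` increases the quadratic form. -/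
structure PosOn (A : E →L[ℝ] E) (P : Submodule ℝ E) (pr : E →L[ℝ] E) (β : ℝ) : Prop where
  sym : ∀ v w, ⟪A v, w⟫ = ⟪A w, v⟫
  mem : ∀ z, pr z ∈ P
  nrm : ∀ z, ∀ s ∈ Icc (0:ℝ) 1, ‖pr z + s • (z - pr z)‖ ≤ ‖z‖
  inc : ∀ z, ∀ s ∈ Icc (0:ℝ) 1,
    ⟪A z, z⟫ ≤ ⟪A (pr z + s • (z - pr z)), pr z + s • (z - pr z)⟫
  orth : ∀ z, ∀ b ∈ P, ⟪A (z - pr z), b⟫ = 0
  βpos : 0 < β
  pos : ∀ y ∈ P, β * ‖y‖ ^ 2 ≤ ⟪A y, y⟫

lemma PosOn.id {A : E →L[ℝ] E} (hA : ∀ v w, ⟪A v, w⟫ = ⟪A w, v⟫) {β : ℝ} (hβ : 0 < β)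
    (h : ∀ y, β * ‖y‖ ^ 2 ≤ ⟪A y, y⟫) : PosOn A ⊤ (ContinuousLinearMap.id ℝ E) β where
  sym := hA
  mem _ := trivial
  nrm z s _ := by simp
  inc z s _ := by simp
  orth z b _ := by simp
  βpos := hβ
  pos y _ := h y

lemma PosOn.perp {A : E →L[ℝ] E} (hA : ∀ v w, ⟪A v, w⟫ = ⟪A w, v⟫) {e : E} (he : ‖e‖ = 1)
    {α β : ℝ} (hAe : A e = -(α • e)) (hα : 0 < α) (hβ : 0 < β)
    (h : ∀ y, ⟪e, y⟫ = 0 → β * ‖y‖ ^ 2 ≤ ⟪A y, y⟫) : ∃ pr : E →L[ℝ] E,
      PosOn A (ℝ ∙ e)ᗮ pr β := by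
  set pr : E →L[ℝ] E := ContinuousLinearMap.id ℝ E -
    (InnerProductSpace.toDual ℝ E e).smulRight e with hpr
  have hprz : ∀ z, pr z = z - ⟪e, z⟫ • e := fun z => by simp [hpr]
  have hee : ⟪e, e⟫ = (1:ℝ) := by rw [real_inner_self_eq_norm_sq, he]; norm_num
  have horth : ∀ z, ⟪e, pr z⟫ = 0 := fun z => by
    rw [hprz, inner_sub_right, inner_smul_right, hee]; ring
  have hz : ∀ z, z - pr z = ⟪e, z⟫ • e := fun z => by rw [hprz]; abel
  have hAorth : ∀ b, ⟪e, b⟫ = 0 → ⟪A e, b⟫ = 0 := fun b hb => by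
    rw [hAe, inner_neg_left, inner_smul_left, hb]; simp
  have hAe' : ⟪A e, e⟫ = -α := by
    rw [hAe, inner_neg_left, inner_smul_left, hee]; simp
  have hQ : ∀ (z : E) (c : ℝ), ⟪A (pr z + c • e), pr z + c • e⟫ =
      ⟪A (pr z), pr z⟫ - α * c ^ 2 := by
    intro z c
    rw [map_add, map_smul, inner_add_left, inner_add_right, inner_add_right]
    simp only [inner_smul_left, inner_smul_right, conj_trivial]
    rw [hA (pr z) e, hAorth _ (horth z), hAe']
    ring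
  have hN : ∀ (z : E) (c : ℝ), ‖pr z + c • e‖ ^ 2 = ‖pr z‖ ^ 2 + c ^ 2 := by
    intro z c
    rw [norm_add_sq_real, inner_smul_right, real_inner_comm, horth, norm_smul, he,
      Real.norm_eq_abs, mul_one, sq_abs]
    ring
  have hsplit : ∀ z, z = pr z + ⟪e, z⟫ • e := fun z => by rw [hprz]; abel
  refine ⟨pr, hA, fun z => ?_, fun z s hs => ?_, fun z s hs => ?_, fun z b hb => ?_, hβ,
    fun y hy => ?_⟩
  · rw [Submodule.mem_orthogonal_singleton_iff_inner_right]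
    exact horth z
  · rw [hz, smul_smul]
    have h1 := hN z (s * ⟪e, z⟫)
    have h2 := hN z ⟪e, z⟫
    rw [← hsplit z] at h2
    have h3 : (s * ⟪e, z⟫) ^ 2 ≤ ⟪e, z⟫ ^ 2 := by
      rw [mul_pow]
      have : s ^ 2 ≤ 1 := pow_le_one₀ hs.1 hs.2
      nlinarith [sq_nonneg ⟪e, z⟫]
    exact le_of_sq_le_sq (by linarith) (norm_nonneg _)
  · rw [hz, smul_smul, hQ]
    have h2 := hQ z ⟪e, z⟫
    rw [← hsplit z] at h2
    rw [h2]
    have h3 : (s * ⟪e, z⟫) ^ 2 ≤ ⟪e, z⟫ ^ 2 := by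
      rw [mul_pow]
      have : s ^ 2 ≤ 1 := pow_le_one₀ hs.1 hs.2
      nlinarith [sq_nonneg ⟪e, z⟫]
    nlinarith
  · rw [hz, map_smul, inner_smul_left,
      hAorth b ((Submodule.mem_orthogonal_singleton_iff_inner_right).1 hb)]
    simp
  · exact h y ((Submodule.mem_orthogonal_singleton_iff_inner_right).1 hy)

section

variable {A : E →L[ℝ] E} {P : Submodule ℝ E} {pr : E →L[ℝ] E} {β a κ : ℝ}

/-- the second homotopy: radially outwards -/
def rad (a : ℝ) (s : ℝ) (y : E) : E := (s + (1 - s) * (a / ‖y‖)) • y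

lemma rad_facts (ha : 0 < a) {y : E} (hy0 : y ≠ 0) (hya : ‖y‖ ≤ a)
    {s : ℝ} (hs : s ∈ Icc (0:ℝ) 1) : ‖rad a s y‖ ≤ a ∧ 1 ≤ s + (1 - s) * (a / ‖y‖) := by
  have hn : 0 < ‖y‖ := norm_pos_iff.2 hy0
  have h1 : 1 ≤ a / ‖y‖ := by rw [le_div_iff₀ hn]; linarith
  have h2 : 1 ≤ s + (1 - s) * (a / ‖y‖) := by nlinarith [hs.1, hs.2]
  refine ⟨?_, h2⟩
  unfold rad
  rw [norm_smul, Real.norm_eq_abs, abs_of_nonneg (by linarith)]
  have h3 : (s + (1 - s) * (a / ‖y‖)) * ‖y‖ = s * ‖y‖ + (1 - s) * a := by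
    field_simp
  rw [h3]
  nlinarith [hs.1, hs.2]

lemma PosOn.ne (h : PosOn A P pr β) (hκ : 0 < κ) {z : E} (hz : κ ≤ ⟪A z, z⟫) : pr z ≠ 0 := by
  intro h0
  have h1 := h.inc z 0 ⟨le_rfl, zero_le_one⟩
  rw [h0] at h1
  simp at h1
  linarith

/-- half of the shell -/
theorem PosOn.half (h : PosOn A P pr β) (ha : 0 < a) (hκ : 0 < κ) (hκa : 2 * κ ≤ β * a ^ 2)
    {b : E} (hb : b ∈ P) (hb1 : ‖b‖ = 1) {f : E → ℂ}
    (hf : ContinuousOn f (Sh A a κ)) (h1 : ∀ z ∈ Sh A a κ, ‖f z‖ = 1) :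
    Arg f (Sh A a κ ∩ {z | 0 ≤ ⟪A z, b⟫}) := by
  set T : Set E := Sh A a κ ∩ {z | 0 ≤ ⟪A z, b⟫} with hT
  have hfT : ContinuousOn f T := hf.mono inter_subset_left
  have h1T : ∀ z ∈ T, ‖f z‖ = 1 := fun z hz => h1 z hz.1
  have hβ := h.βpos
  have hprT : ∀ z ∈ T, ∀ s ∈ Icc (0:ℝ) 1, pr z + s • (z - pr z) ∈ T := by
    intro z hz s hs
    refine ⟨⟨(h.nrm z s hs).trans hz.1.1, hz.1.2.trans (h.inc z s hs)⟩, ?_⟩
    have h2 : ⟪A (pr z), b⟫ = ⟪A z, b⟫ := by
      have := h.orth z b hb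
      rw [map_sub, inner_sub_left] at this
      linarith
    show 0 ≤ ⟪A (pr z + s • (z - pr z)), b⟫
    rw [map_add, map_smul, inner_add_left, inner_smul_left, h.orth z b hb, h2]
    simpa using hz.2
  have hprT0 : ∀ z ∈ T, pr z ∈ T := fun z hz => by
    simpa using hprT z hz 0 ⟨le_rfl, zero_le_one⟩
  have hne : ∀ z ∈ T, pr z ≠ 0 := fun z hz => h.ne hκ hz.1.2
  -- third homotopy
  have s3 : Arg (fun z => f ((1:ℝ) • ((a / ‖pr z‖) • pr z) + (1 - (1:ℝ)) • (a • b))) T := by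
    refine arg_htpy (H := fun s z => s • ((a / ‖pr z‖) • pr z) + (1 - s) • (a • b)) hfT h1T ?_ ?_ ?_
    · have hc : ContinuousOn (fun p : ℝ × E => a / ‖pr p.2‖) (Icc 0 1 ×ˢ T) := by
        refine ContinuousOn.div continuousOn_const ?_ fun p hp => ?_
        · exact (by fun_prop : Continuous fun p : ℝ × E => ‖pr p.2‖).continuousOn
        · exact norm_ne_zero_iff.2 (hne _ hp.2)
      have hc2 : Continuous fun p : ℝ × E => pr p.2 := by fun_prop
      have hc3 : Continuous fun p : ℝ × E => (1 - p.1) • (a • b) := by fun_prop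
      exact (continuous_fst.continuousOn.smul (hc.smul hc2.continuousOn)).add hc3.continuousOn
    · intro s hs z hz
      have hn : 0 < ‖pr z‖ := norm_pos_iff.2 (hne z hz)
      set y : E := (a / ‖pr z‖) • pr z with hy
      have hyn : ‖y‖ = a := by
        rw [hy, norm_smul, norm_div, norm_norm, Real.norm_eq_abs, abs_of_pos ha]
        field_simp
      have hyP : y ∈ P := P.smul_mem _ (h.mem z)
      have hyQ : β * a ^ 2 ≤ ⟪A y, y⟫ := by
        have := h.pos y hyP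
        rwa [hyn] at this
      have hyb : 0 ≤ ⟪A y, b⟫ := by
        rw [hy, map_smul, inner_smul_left]
        exact mul_nonneg (by simp; positivity) (hprT0 z hz).2
      have hbQ : β ≤ ⟪A b, b⟫ := by
        have := h.pos b hb
        rwa [hb1, one_pow, mul_one] at this
      have hs0 := hs.1
      have hs1 : 0 ≤ 1 - s := by linarith [hs.2]
      refine ⟨⟨?_, ?_⟩, ?_⟩
      · calc ‖s • y + (1 - s) • (a • b)‖ ≤ ‖s • y‖ + ‖(1 - s) • (a • b)‖ := norm_add_le _ _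
          _ = s * a + (1 - s) * a := by
              have q1 : ‖s • y‖ = s * a := by
                rw [norm_smul, hyn, Real.norm_eq_abs, abs_of_nonneg hs0]
              have q2 : ‖(1 - s) • (a • b)‖ = (1 - s) * a := by
                rw [norm_smul, norm_smul, hb1, mul_one, Real.norm_eq_abs, Real.norm_eq_abs,
                  abs_of_nonneg hs1, abs_of_pos ha]
              rw [q1, q2]
          _ = a := by ring
      · have e1 : ⟪A (s • y + (1 - s) • (a • b)), s • y + (1 - s) • (a • b)⟫ =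
            s ^ 2 * ⟪A y, y⟫ + 2 * (s * (1 - s) * a) * ⟪A y, b⟫ +
              (1 - s) ^ 2 * (a ^ 2 * ⟪A b, b⟫) := by
          simp only [map_add, map_smul, inner_add_left, inner_add_right, inner_smul_left,
            inner_smul_right, conj_trivial]
          rw [h.sym b y]
          ring
        rw [e1]
        have e2 : 0 ≤ 2 * (s * (1 - s) * a) * ⟪A y, b⟫ := by positivity
        have e3 : s ^ 2 * (β * a ^ 2) ≤ s ^ 2 * ⟪A y, y⟫ := by gcongr
        have e4 : (1 - s) ^ 2 * (a ^ 2 * β) ≤ (1 - s) ^ 2 * (a ^ 2 * ⟪A b, b⟫) := by gcongr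
        have e5 : 0 ≤ (2 * s - 1) ^ 2 * (β * a ^ 2) := by positivity
        nlinarith
      · show 0 ≤ ⟪A (s • y + (1 - s) • (a • b)), b⟫
        have e1 : 0 ≤ ⟪A b, b⟫ := hβ.le.trans hbQ
        have e6 : ⟪A (s • y + (1 - s) • (a • b)), b⟫ = s * ⟪A y, b⟫ + (1 - s) * (a * ⟪A b, b⟫) := by
          simp only [map_add, map_smul, inner_add_left, inner_smul_left, conj_trivial]
        rw [e6]
        exact add_nonneg (mul_nonneg hs0 hyb) (mul_nonneg hs1 (mul_nonneg ha.le e1))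
    · have e0 : (fun z : E => f ((0:ℝ) • ((a / ‖pr z‖) • pr z) + (1 - (0:ℝ)) • (a • b))) =
          fun _ => f (a • b) := by
        funext z
        rw [zero_smul, sub_zero, one_smul, zero_add]
      rw [e0]
      rcases T.eq_empty_or_nonempty with hem | ⟨z, hz⟩
      · exact ⟨fun _ => 0, continuousOn_const, fun x hx => by rw [hem] at hx; exact absurd hx (notMem_empty _)⟩
      refine arg_const (h1 _ ⟨?_, ?_⟩) _
      · rw [norm_smul, hb1, mul_one, Real.norm_eq_abs, abs_of_pos ha]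
      · rw [map_smul, inner_smul_left, inner_smul_right]
        simp only [conj_trivial]
        have hbQ : β ≤ ⟪A b, b⟫ := by
          have := h.pos b hb
          rwa [hb1, one_pow, mul_one] at this
        have : a ^ 2 * β ≤ a ^ 2 * ⟪A b, b⟫ := by gcongr
        nlinarith
  -- second homotopy
  have s2 : Arg (fun z => f (rad a 1 (pr z))) T := by
    refine arg_htpy (H := fun s z => rad a s (pr z)) hfT h1T ?_ ?_ ?_
    · have hc : ContinuousOn (fun p : ℝ × E => a / ‖pr p.2‖) (Icc 0 1 ×ˢ T) := by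
        refine ContinuousOn.div continuousOn_const ?_ fun p hp => ?_
        · exact (by fun_prop : Continuous fun p : ℝ × E => ‖pr p.2‖).continuousOn
        · exact norm_ne_zero_iff.2 (hne _ hp.2)
      have hc2 : Continuous fun p : ℝ × E => pr p.2 := by fun_prop
      have hc3 : Continuous fun p : ℝ × E => (1 - p.1) := by fun_prop
      exact (continuous_fst.continuousOn.add (hc3.continuousOn.mul hc)).smul hc2.continuousOn
    · intro s hs z hz
      obtain ⟨g1, g2⟩ := rad_facts ha (hne z hz) (hprT0 z hz).1.1 hs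
      refine ⟨⟨g1, ?_⟩, ?_⟩
      · unfold rad
        rw [map_smul, inner_smul_left, inner_smul_right]
        simp only [conj_trivial]
        have g3 := (hprT0 z hz).1.2
        nlinarith [mul_le_mul g2 g2 zero_le_one (by linarith)]
      · show 0 ≤ ⟪A (rad a s (pr z)), b⟫
        unfold rad
        rw [map_smul, inner_smul_left]
        exact mul_nonneg (by simp; linarith) (hprT0 z hz).2
    · refine s3.congr fun z hz => ?_
      unfold rad
      simp
  refine arg_htpy' (H := fun s z => pr z + s • (z - pr z)) hfT h1T ?_ ?_ ?_ ?_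
  · exact (by fun_prop : Continuous fun p : ℝ × E => pr p.2 + p.1 • (p.2 - pr p.2)).continuousOn
  · exact fun s hs z hz => hprT z hz s hs
  · intro z _
    simp
  · refine s2.congr fun z hz => ?_
    unfold rad
    simp

/-- the equator of the shell is connected -/
theorem PosOn.equator (h : PosOn A P pr β) (ha : 0 < a) (hκ : 0 < κ) (hκa : 2 * κ ≤ β * a ^ 2)
    (hP : 3 ≤ finrank ℝ P) {b : E} (hb : b ∈ P) :
    IsPreconnected (Sh A a κ ∩ {z | ⟪A z, b⟫ = 0}) := by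
  set Z : Set E := Sh A a κ ∩ {z | ⟪A z, b⟫ = 0} with hZ
  have hβ := h.βpos
  set W : Submodule ℝ E := P ⊓ (ℝ ∙ (A b))ᗮ with hW
  have hWmem : ∀ y, y ∈ W ↔ y ∈ P ∧ ⟪A y, b⟫ = 0 := by
    intro y
    rw [hW, Submodule.mem_inf, Submodule.mem_orthogonal_singleton_iff_inner_right, h.sym y b]
  have hrank : 2 ≤ finrank ℝ W := by
    have e1 := Submodule.finrank_sup_add_finrank_inf_eq P (ℝ ∙ (A b))ᗮ
    have e2 : finrank ℝ ((P ⊔ (ℝ ∙ (A b))ᗮ : Submodule ℝ E)) ≤ finrank ℝ E :=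
      Submodule.finrank_le _
    have e3 := Submodule.finrank_add_finrank_orthogonal (ℝ ∙ (A b))
    have e4 : finrank ℝ (ℝ ∙ (A b)) ≤ 1 := by
      have := finrank_span_le_card (R := ℝ) ({A b} : Set E)
      simpa using this
    rw [← hW] at e1
    omega
  have hSig : IsPreconnected ((fun y : W => (y : E)) '' sphere (0 : W) a) := by
    refine IsPreconnected.image ?_ _ continuous_subtype_val.continuousOn
    refine isPreconnected_sphere ?_ _ _
    rw [← finrank_eq_rank]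
    exact_mod_cast hrank
  set Sg : Set E := (fun y : W => (y : E)) '' sphere (0 : W) a with hSg
  have hmemSg : ∀ y, y ∈ W → ‖y‖ = a → y ∈ Sg := fun y hy hya =>
    ⟨⟨y, hy⟩, by rw [mem_sphere_zero_iff_norm]; exact hya, rfl⟩
  have hSgZ : Sg ⊆ Z := by
    rintro _ ⟨y, hy, rfl⟩
    rw [mem_sphere_zero_iff_norm] at hy
    have hy' : ‖(y:E)‖ = a := hy
    obtain ⟨h3, h4⟩ := (hWmem y).1 y.2
    refine ⟨⟨hy'.le, ?_⟩, h4⟩
    have := h.pos y h3
    rw [hy'] at this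
    have : 0 < β * a ^ 2 := by positivity
    linarith
  have hprZ : ∀ z ∈ Z, ∀ s ∈ Icc (0:ℝ) 1, pr z + s • (z - pr z) ∈ Z := by
    intro z hz s hs
    refine ⟨⟨(h.nrm z s hs).trans hz.1.1, hz.1.2.trans (h.inc z s hs)⟩, ?_⟩
    have h2 : ⟪A (pr z), b⟫ = ⟪A z, b⟫ := by
      have := h.orth z b hb
      rw [map_sub, inner_sub_left] at this
      linarith
    show ⟪A (pr z + s • (z - pr z)), b⟫ = 0
    have hz2 : ⟪A z, b⟫ = 0 := hz.2
    rw [map_add, map_smul, inner_add_left, inner_smul_left, h.orth z b hb, h2, hz2]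
    simp
  have hprZ0 : ∀ z ∈ Z, pr z ∈ Z := fun z hz => by
    simpa using hprZ z hz 0 ⟨le_rfl, zero_le_one⟩
  have hradZ : ∀ z ∈ Z, ∀ s ∈ Icc (0:ℝ) 1, rad a s (pr z) ∈ Z := by
    intro z hz s hs
    obtain ⟨g1, g2⟩ := rad_facts ha (h.ne hκ hz.1.2) (hprZ0 z hz).1.1 hs
    refine ⟨⟨g1, ?_⟩, ?_⟩
    · unfold rad
      rw [map_smul, inner_smul_left, inner_smul_right]
      simp only [conj_trivial]
      have g3 := (hprZ0 z hz).1.2
      nlinarith [mul_le_mul g2 g2 zero_le_one (by linarith)]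
    · show ⟪A (rad a s (pr z)), b⟫ = 0
      have g3 : ⟪A (pr z), b⟫ = 0 := (hprZ0 z hz).2
      unfold rad
      rw [map_smul, inner_smul_left, g3, mul_zero]
  have hend : ∀ z ∈ Z, rad a 0 (pr z) ∈ Sg := by
    intro z hz
    have hne := h.ne hκ hz.1.2
    have hn : 0 < ‖pr z‖ := norm_pos_iff.2 hne
    refine hmemSg _ ?_ ?_
    · rw [hWmem]
      exact ⟨P.smul_mem _ (h.mem z), (hradZ z hz 0 ⟨le_rfl, zero_le_one⟩).2⟩
    · unfold rad
      rw [sub_zero, zero_add, one_mul, norm_smul, norm_div, norm_norm, Real.norm_eq_abs,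
        abs_of_pos ha]
      field_simp
  rcases Z.eq_empty_or_nonempty with hem | ⟨z₀, hz₀⟩
  · rw [hem]; exact isPreconnected_empty
  refine isPreconnected_of_forall (rad a 0 (pr z₀)) fun z hz => ?_
  refine ⟨(fun s : ℝ => pr z + s • (z - pr z)) '' Icc 0 1 ∪ ((fun s : ℝ => rad a s (pr z)) '' Icc 0 1 ∪
    Sg), ?_, Or.inr (Or.inr (hend z₀ hz₀)), Or.inl ⟨1, ⟨zero_le_one, le_rfl⟩, by simp⟩, ?_⟩
  · rintro y (⟨s, hs, rfl⟩ | ⟨s, hs, rfl⟩ | hy)
    · exact hprZ z hz s hs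
    · exact hradZ z hz s hs
    · exact hSgZ hy
  · refine IsPreconnected.union (pr z) ⟨0, ⟨le_rfl, zero_le_one⟩, by simp⟩
      (Or.inl ⟨1, ⟨zero_le_one, le_rfl⟩, by simp [rad]⟩) ?_ ?_
    · exact isPreconnected_Icc.image _ (by fun_prop)
    · refine IsPreconnected.union (rad a 0 (pr z)) ⟨0, ⟨le_rfl, zero_le_one⟩, rfl⟩ (hend z hz) ?_
        hSig
      refine isPreconnected_Icc.image _ ?_
      unfold rad
      fun_prop

/-- **The shell, case of a positive space of dimension at least three.** -/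
theorem PosOn.shell (h : PosOn A P pr β) (ha : 0 < a) (hκ : 0 < κ) (hκa : 2 * κ ≤ β * a ^ 2)
    (hP : 3 ≤ finrank ℝ P) {f : E → ℂ}
    (hf : ContinuousOn f (Sh A a κ)) (h1 : ∀ z ∈ Sh A a κ, ‖f z‖ = 1) : Arg f (Sh A a κ) := by
  obtain ⟨b, hb, hb1⟩ : ∃ b ∈ P, ‖b‖ = 1 := by
    haveI : Nontrivial P := Module.nontrivial_of_finrank_pos (R := ℝ) (by omega)
    obtain ⟨b, hb⟩ := exists_norm_eq P (zero_le_one' ℝ)
    exact ⟨b, b.2, hb⟩
  have e1 := h.half ha hκ hκa hb hb1 hf h1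
  have e2 := h.half ha hκ hκa (P.neg_mem hb) (by rw [norm_neg]; exact hb1) hf h1
  have e3 : Sh A a κ ∩ {z | 0 ≤ ⟪A z, -b⟫} = Sh A a κ ∩ {z | ⟪A z, b⟫ ≤ 0} := by
    ext z
    simp only [mem_inter_iff, mem_setOf_eq, inner_neg_right, Left.nonneg_neg_iff]
  rw [e3] at e2
  have hcb : Continuous fun z : E => ⟪A z, b⟫ := by fun_prop
  have e4 := arg_glue ((Sh_closed A a κ).inter (isClosed_le continuous_const hcb))
    ((Sh_closed A a κ).inter (isClosed_le hcb continuous_const)) (by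
      have : Sh A a κ ∩ {z | 0 ≤ ⟪A z, b⟫} ∩ (Sh A a κ ∩ {z | ⟪A z, b⟫ ≤ 0}) =
          Sh A a κ ∩ {z | ⟪A z, b⟫ = 0} := by
        ext z
        simp only [mem_inter_iff, mem_setOf_eq]
        constructor
        · rintro ⟨⟨h1, h2⟩, -, h3⟩
          exact ⟨h1, le_antisymm h3 h2⟩
        · rintro ⟨h1, h2⟩
          exact ⟨⟨h1, h2.ge⟩, h1, h2.le⟩
      rw [this]
      exact h.equator ha hκ hκa hP hb) e1 e2
  refine e4.mono fun z hz => ?_
  rcases le_total 0 ⟪A z, b⟫ with h3 | h3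
  · exact Or.inl ⟨hz, h3⟩
  · exact Or.inr ⟨hz, h3⟩

end

/-- **The shell, case of a negative hyperplane.** -/
theorem shell_neg {A : E →L[ℝ] E} (hA : ∀ v w, ⟪A v, w⟫ = ⟪A w, v⟫) {e : E} (he : ‖e‖ = 1)
    {α β a κ : ℝ} (hAe : A e = α • e) (hα : 0 < α) (hβ : 0 < β)
    (h : ∀ y, ⟪e, y⟫ = 0 → ⟪A y, y⟫ ≤ -(β * ‖y‖ ^ 2)) (ha : 0 < a) (hκ : 0 < κ)
    (hκa : κ ≤ α * a ^ 2) {f : E → ℂ}
    (hf : ContinuousOn f (Sh A a κ)) (h1 : ∀ z ∈ Sh A a κ, ‖f z‖ = 1) : Arg f (Sh A a κ) := by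
  have hee : ⟪e, e⟫ = (1:ℝ) := by rw [real_inner_self_eq_norm_sq, he]; norm_num
  have horth : ∀ z, ⟪e, pe e z⟫ = 0 := fun z => pe_orth he z
  have hQ : ∀ (z : E) (c s : ℝ), ⟪A (c • e + s • pe e z), c • e + s • pe e z⟫ =
      α * c ^ 2 + s ^ 2 * ⟪A (pe e z), pe e z⟫ := by
    intro z c s
    simp only [map_add, map_smul, inner_add_left, inner_add_right, inner_smul_left,
      inner_smul_right, conj_trivial]
    rw [hA (pe e z) e, hAe]
    simp only [inner_smul_left, conj_trivial, horth, hee]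
    ring
  have hN : ∀ (z : E) (c s : ℝ), ‖c • e + s • pe e z‖ ^ 2 = c ^ 2 + s ^ 2 * ‖pe e z‖ ^ 2 := by
    intro z c s
    rw [norm_add_sq_real, inner_smul_right, inner_smul_left, horth, norm_smul, norm_smul, he,
      Real.norm_eq_abs, Real.norm_eq_abs, mul_one, mul_pow, sq_abs, sq_abs]
    simp
  have hsplit : ∀ z, z = ⟪e, z⟫ • e + (1:ℝ) • pe e z := fun z => by
    rw [one_smul]; exact pe_split e z
  have hneg : ∀ z, ⟪A (pe e z), pe e z⟫ ≤ 0 := fun z => by
    have := h (pe e z) (horth z)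
    have : 0 ≤ β * ‖pe e z‖ ^ 2 := by positivity
    linarith
  have hzQ : ∀ z, ⟪A z, z⟫ = α * ⟪e, z⟫ ^ 2 + ⟪A (pe e z), pe e z⟫ := fun z => by
    have := hQ z ⟪e, z⟫ 1
    rw [← hsplit z] at this
    rw [this]; ring
  have hzN : ∀ z, ‖z‖ ^ 2 = ⟪e, z⟫ ^ 2 + ‖pe e z‖ ^ 2 := fun z => by
    have := hN z ⟪e, z⟫ 1
    rw [← hsplit z] at this
    rw [this]; ring
  have hab : ∀ z ∈ Sh A a κ, |⟪e, z⟫| ≤ a := fun z hz => by
    have h3 := hzN z
    have h4 : ⟪e, z⟫ ^ 2 ≤ a ^ 2 := by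
      have : ‖z‖ ^ 2 ≤ a ^ 2 := pow_le_pow_left₀ (norm_nonneg _) hz.1 2
      nlinarith [sq_nonneg ‖pe e z‖]
    exact abs_le_of_sq_le_sq h4 ha.le
  -- a general half
  have half : ∀ ε : ℝ, ε = 1 ∨ ε = -1 → Arg f (Sh A a κ ∩ {z | 0 ≤ ε * ⟪e, z⟫}) := by
    intro ε hε
    have hε2 : ε ^ 2 = 1 := by rcases hε with rfl | rfl <;> norm_num
    set T : Set E := Sh A a κ ∩ {z | 0 ≤ ε * ⟪e, z⟫} with hT
    have hfT : ContinuousOn f T := hf.mono inter_subset_left
    have h1T : ∀ z ∈ T, ‖f z‖ = 1 := fun z hz => h1 z hz.1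
    -- second homotopy
    have s2 : Arg (fun z => f (((1:ℝ) * ⟪e, z⟫ + (1 - 1) * (ε * a)) • e + (0:ℝ) • pe e z)) T := by
      refine arg_htpy (H := fun s z => (s * ⟪e, z⟫ + (1 - s) * (ε * a)) • e + (0:ℝ) • pe e z)
        hfT h1T ?_ ?_ ?_
      · have := pe_cont e
        exact (by fun_prop : Continuous fun p : ℝ × E =>
          (p.1 * ⟪e, p.2⟫ + (1 - p.1) * (ε * a)) • e + (0:ℝ) • pe e p.2).continuousOn
      · intro s hs z hz
        have g1 := abs_le.1 (hab z hz.1)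
        have g2 : 0 ≤ ε * ⟪e, z⟫ := hz.2
        have g3 : κ ≤ α * ⟪e, z⟫ ^ 2 := by
          have := hz.1.2
          rw [hzQ] at this
          linarith [hneg z]
        set c : ℝ := s * ⟪e, z⟫ + (1 - s) * (ε * a) with hc
        have hεc : ε * c = s * (ε * ⟪e, z⟫) + (1 - s) * a := by
          rw [hc]
          linear_combination ((1 - s) * a) * hε2
        have hs1 : 0 ≤ 1 - s := by linarith [hs.2]
        have hs0 := hs.1
        have hc2 : c ^ 2 = (ε * c) ^ 2 := by rw [mul_pow, hε2, one_mul]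
        have hεe : ε * ⟪e, z⟫ ≤ a := by
          rcases hε with rfl | rfl
          · linarith
          · linarith
        have hcge : 0 ≤ ε * c := by rw [hεc]; positivity
        have hcle : ε * c ≤ a := by rw [hεc]; nlinarith
        have hcge2 : ε * ⟪e, z⟫ ≤ ε * c := by rw [hεc]; nlinarith
        refine ⟨⟨?_, ?_⟩, ?_⟩
        · refine le_of_sq_le_sq ?_ ha.le
          rw [hN, hc2]
          nlinarith
        · rw [hQ, hc2]
          have g4 : ⟪e, z⟫ ^ 2 = (ε * ⟪e, z⟫) ^ 2 := by rw [mul_pow, hε2, one_mul]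
          rw [g4] at g3
          have g5 : (ε * ⟪e, z⟫) ^ 2 ≤ (ε * c) ^ 2 := pow_le_pow_left₀ g2 hcge2 2
          nlinarith
        · show 0 ≤ ε * ⟪e, c • e + (0:ℝ) • pe e z⟫
          rw [inner_add_right, inner_smul_right, inner_smul_right, hee]
          linarith
      · have e0 : (fun z : E => f (((0:ℝ) * ⟪e, z⟫ + (1 - 0) * (ε * a)) • e + (0:ℝ) • pe e z)) =
            fun _ => f ((ε * a) • e) := by
          funext z
          rw [zero_smul, add_zero, zero_mul, zero_add, sub_zero, one_mul]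
        rw [e0]
        refine arg_const (h1 _ ⟨?_, ?_⟩) _
        · rw [norm_smul, he, mul_one, Real.norm_eq_abs, abs_mul, abs_of_pos ha]
          rcases hε with rfl | rfl <;> simp
        · rw [map_smul, inner_smul_left, inner_smul_right, hAe, inner_smul_left, hee]
          simp only [conj_trivial]
          have : ε * a * (ε * a * (α * 1)) = α * a ^ 2 := by
            linear_combination (a ^ 2 * α) * hε2
          rw [this]
          exact hκa
    refine arg_htpy' (H := fun s z => ⟪e, z⟫ • e + s • pe e z) hfT h1T ?_ ?_ ?_ ?_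
    · have := pe_cont e
      exact (by fun_prop : Continuous fun p : ℝ × E => ⟪e, p.2⟫ • e + p.1 • pe e p.2).continuousOn
    · intro s hs z hz
      have hs2 : s ^ 2 ≤ 1 := pow_le_one₀ hs.1 hs.2
      refine ⟨⟨?_, ?_⟩, ?_⟩
      · refine le_trans (le_of_sq_le_sq ?_ (norm_nonneg z)) hz.1.1
        rw [hN, hzN z]
        nlinarith [sq_nonneg ‖pe e z‖]
      · refine hz.1.2.trans ?_
        rw [hQ, hzQ z]
        nlinarith [hneg z]
      · show 0 ≤ ε * ⟪e, ⟪e, z⟫ • e + s • pe e z⟫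
        rw [inner_add_right, inner_smul_right, inner_smul_right, hee, horth]
        have : 0 ≤ ε * ⟪e, z⟫ := hz.2
        linarith
    · intro z _
      exact (hsplit z).symm
    · refine s2.congr fun z hz => ?_
      have : ((1:ℝ) * ⟪e, z⟫ + (1 - 1) * (ε * a)) = ⟪e, z⟫ := by ring
      rw [this]
  have e1 := half 1 (Or.inl rfl)
  have e2 := half (-1) (Or.inr rfl)
  have e4 := arg_glue ((Sh_closed A a κ).inter (isClosed_le continuous_const (by fun_prop)))
    ((Sh_closed A a κ).inter (isClosed_le continuous_const (by fun_prop))) (by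
      have : Sh A a κ ∩ {z | 0 ≤ 1 * ⟪e, z⟫} ∩ (Sh A a κ ∩ {z | 0 ≤ -1 * ⟪e, z⟫}) = ∅ := by
        rw [← Set.not_nonempty_iff_eq_empty]
        rintro ⟨z, ⟨⟨h2, h3⟩, h4, h5⟩⟩
        have h3' : 0 ≤ 1 * ⟪e, z⟫ := h3
        have h5' : 0 ≤ -1 * ⟪e, z⟫ := h5
        have h6 : ⟪e, z⟫ = 0 := by linarith
        have := h2.2
        rw [hzQ, h6] at this
        have := hneg z
        linarith
      rw [this]
      exact isPreconnected_empty) e1 e2
  refine e4.mono fun z hz => ?_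
  rcases le_total 0 ⟪e, z⟫ with h3 | h3
  · exact Or.inl ⟨hz, by show 0 ≤ 1 * ⟪e, z⟫; linarith⟩
  · exact Or.inr ⟨hz, by show 0 ≤ -1 * ⟪e, z⟫; linarith⟩

end Pool.Agent.Q196.XG
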