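import Pool.Agent.Q196.XF.Sch
import Pool.Agent.Q196.XG.Rays

/-! Functions on the sides of a knotted hypersurface of the sphere: critical points of index two. -/

set_option autoImplicit false
set_option linter.unusedSectionVars false

open scoped Topology ContDiff Manifold RealInnerProductSpace Gradient
open Set Metric Filter Module Pool.Agent.Q196.XB Pool.Agent.Q196.XF Pool.Agent.Q100.SS

noncomputable section

namespace Pool.Agent.Q196.XG

section curve

variable {V : Type} [NormedAddCommGroup V] [InnerProductSpace ℝ V] [FiniteDimensional ℝ V]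

/-- second derivative along curves at a critical point -/
lemma curve2_eq {L : V → ℝ} (hL : ContDiff ℝ ∞ L) {y w : V} (h0 : ∇ L y = 0)
    {γ : ℝ → V} (hγ : ContDiffAt ℝ 2 γ 0) (hγ0 : γ 0 = y)
    (hγ1 : deriv γ 0 = w) :
    deriv (deriv fun t => L (γ t)) 0 = ⟪fderiv ℝ (∇ L) y w, w⟫ := by
  have hev : ∀ᶠ t in 𝓝 (0:ℝ), ContDiffAt ℝ 2 γ t := hγ.eventually (by simp)
  have hd : ∀ᶠ t in 𝓝 (0:ℝ), HasDerivAt γ (deriv γ t) t := hev.mono fun t ht =>
    (ht.differentiableAt (by simp)).hasDerivAt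
  have hd2 : HasDerivAt (deriv γ) (deriv (deriv γ) 0) 0 := by
    have h : ContDiffAt ℝ 1 (deriv γ) 0 := by
      have h2 : ContDiffAt ℝ 1 (fderiv ℝ γ) 0 := hγ.fderiv_right (by norm_num)
      exact h2.clm_apply contDiffAt_const
    exact (h.differentiableAt (by simp)).hasDerivAt
  have hLd : ∀ z, HasFDerivAt L ((InnerProductSpace.toDual ℝ V) (∇ L z)) z := fun z =>
    hasFDerivAt_of_grad (hL.differentiable (by simp) z)
  have hf1 : deriv (fun t => L (γ t)) =ᶠ[𝓝 0] fun t => ⟪∇ L (γ t), deriv γ t⟫ := by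
    filter_upwards [hd] with t ht
    exact ((hLd (γ t)).comp_hasDerivAt t ht).deriv
  have hgr : HasFDerivAt (∇ L) (fderiv ℝ (∇ L) y) y :=
    ((grad_smooth hL.contDiffAt).differentiableAt (by simp)).hasFDerivAt
  have hf2 : HasDerivAt (fun t => ⟪∇ L (γ t), deriv γ t⟫)
      (⟪∇ L (γ 0), deriv (deriv γ) 0⟫ + ⟪fderiv ℝ (∇ L) y (deriv γ 0), deriv γ 0⟫) 0 := by
    have h1 : HasFDerivAt (∇ L) (fderiv ℝ (∇ L) y) (γ 0) := by rw [hγ0]; exact hgr
    exact (h1.comp_hasDerivAt 0 hd.self_of_nhds).inner ℝ hd2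
  rw [hf1.deriv_eq, hf2.deriv, hγ0, hγ1, h0, inner_zero_left, zero_add]

end curve

variable {E : Type} [NormedAddCommGroup E] [InnerProductSpace ℝ E]

/-- `F` has a positive second derivative at `x` along a curve of the unit sphere. -/
def PosDir (F : E → ℝ) (x : E) : Prop :=
  ∃ γ : ℝ → E, ContDiffAt ℝ 2 γ 0 ∧ γ 0 = x ∧ (∀ᶠ t in 𝓝 0, ‖γ t‖ = 1) ∧
    0 < deriv (deriv fun t => F (γ t)) 0

theorem sph_crit3 {n : ℕ} [Fact (finrank ℝ E = n + 1)] (hn : 4 ≤ n) {R : E → ℝ}
    (hR : ContDiff ℝ ∞ R)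
    (hreg : ∀ x, ‖x‖ = 1 → R x = 0 → ∃ v, ⟪x, v⟫ = 0 ∧ fderiv ℝ R x v ≠ 0)
    (hconn : IsConnected {x : sphere (0:E) 1 | R x ≤ 0})
    (hball : ¬IsBallS n {x : sphere (0:E) 1 | R x ≤ 0})
    (hsc : SimplyConnectedSpace {x : sphere (0:E) 1 | R x = 0}) {F : E → ℝ}
    (hF : ContDiff ℝ ∞ F) (hFc : ∀ x, ‖x‖ = 1 → R x ≤ 0 → (∀ v, ⟪x, v⟫ = 0 → fderiv ℝ F x v = 0) →
      PosDir F x) :
    ∃ x : E, ‖x‖ = 1 ∧ R x ≤ 0 ∧ ∃ s, 0 ≤ s ∧ s * R x = 0 ∧
      (∀ v, ⟪x, v⟫ = 0 → fderiv ℝ F x v + s * fderiv ℝ R x v = 0) ∧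
      (∃ v w : E, LinearIndependent ℝ ![v, w] ∧ ⟪x, v⟫ = 0 ∧ ⟪x, w⟫ = 0 ∧
        s * fderiv ℝ R x v = 0 ∧ s * fderiv ℝ R x w = 0 ∧
        ∀ (a b : ℝ) (γ : ℝ → E), ContDiffAt ℝ 2 γ 0 → γ 0 = x → deriv γ 0 = a • v + b • w →
          (∀ᶠ t in 𝓝 0, ‖γ t‖ = 1) → deriv (deriv fun t => F (γ t) + s * R (γ t)) 0 ≤ 0) ∧
      ∃ z : E, z ≠ 0 ∧ ⟪x, z⟫ = 0 ∧ s * fderiv ℝ R x z = 0 ∧
        ∀ γ : ℝ → E, ContDiffAt ℝ 2 γ 0 → γ 0 = x → deriv γ 0 = z →
          (∀ᶠ t in 𝓝 0, ‖γ t‖ = 1) → 0 ≤ deriv (deriv fun t => F (γ t) + s * R (γ t)) 0 := by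
  have hne : ∃ x : sphere (0:E) 1, R x = 0 := by
    obtain ⟨x⟩ : Nonempty {x : sphere (0:E) 1 | R x = 0} := inferInstance
    exact ⟨x, x.2⟩
  obtain ⟨q, hq⟩ := exists_pos_side n hR hreg hne
  obtain ⟨hc, hd, hrg, hcp, hcn, hbl⟩ := transfer hR hreg hconn hball q hq
  have hs := sg_smooth (n := n) q
  set ρ : Eu n → ℝ := R ∘ sg n q with hρ
  have hf : ContDiff ℝ ∞ (F ∘ sg n q) := hF.comp hs
  have hdf : ∀ y w, fderiv ℝ (F ∘ sg n q) y w =
      fderiv ℝ F (sg n q y) (fderiv ℝ (sg n q) y w) := by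
    intro y w
    rw [fderiv_comp y (hF.differentiable (by simp) _) (hs.differentiable (by simp) _)]
    rfl
  set f : Eu n → ℝ := F ∘ sg n q with hfd
  have hgρ : ∀ y, gr (id : Eu n → Eu n) ρ y = ∇ ρ y := fun y =>
    gr_id (hc.differentiable (by simp) y)
  have hgf : ∀ y, gr (id : Eu n → Eu n) f y = ∇ f y := fun y =>
    gr_id (hf.differentiable (by simp) y)
  have hreg' : ∀ y, ρ y = 0 → gr (id : Eu n → Eu n) ρ y ≠ 0 := fun y hy => by
    rw [hgρ]; exact hrg y hy
  -- the boundary is simply connected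
  haveI : SimplyConnectedSpace {y : Eu n | ρ y = 0} := by
    have hne' : ∀ x : {x : sphere (0:E) 1 | R x = 0}, ((x : sphere (0:E) 1) : E) ≠ q := by
      rintro ⟨x, hx⟩ h
      have hx' : R x = 0 := hx
      have h' : (x : E) = q := h
      rw [h'] at hx'
      linarith
    let e : {y : Eu n | ρ y = 0} ≃ₜ {x : sphere (0:E) 1 | R x = 0} :=
      { toFun := fun y => ⟨(stereographic' n q).symm y, y.2⟩
        invFun := fun x => ⟨stereographic' n q x, by
          show R (sg n q (stereographic' n q x)) = 0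
          rw [← pr_eq, sg_pr q (by simp) (hne' x)]
          exact x.2⟩
        left_inv := fun y => Subtype.ext ((stereographic' n q).right_inv (by simp))
        right_inv := fun x => by
          apply Subtype.ext
          show (stereographic' n q).symm (stereographic' n q x) = x
          refine (stereographic' n q).left_inv ?_
          simp only [stereographic'_source, mem_compl_iff, mem_singleton_iff]
          intro h
          exact hne' x (congrArg Subtype.val h)
        continuous_toFun := by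
          have h1 : Continuous (stereographic' n q).symm := (symm_open (n := n) q).continuous
          exact (h1.comp continuous_subtype_val).subtype_mk _
        continuous_invFun := by
          refine Continuous.subtype_mk ?_ _
          have h1 : ContinuousOn (stereographic' n q) {x : sphere (0:E) 1 | R x = 0} := by
            refine (stereographic' n q).continuousOn.mono fun x hx => ?_
            simp only [stereographic'_source, mem_compl_iff, mem_singleton_iff]
            intro h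
            exact hne' ⟨x, hx⟩ (congrArg Subtype.val h)
          exact continuousOn_iff_continuous_restrict.1 h1 }
    exact e.toHomotopyEquiv.simplyConnectedSpace
  have hL : Lifts {y | ρ y ≤ 0} := lifts_of_boundary hc hcp hreg'
  have hX : IsPreconnected {y : Eu n | ρ y = 0} := by
    haveI : PreconnectedSpace {y : Eu n | ρ y = 0} := inferInstance
    exact isPreconnected_iff_preconnectedSpace.2 inferInstance
  have hfc : ∀ y, ρ y ≤ 0 → gr (id : Eu n → Eu n) f y = 0 →
      ∃ v, 0 < hb (id : Eu n → Eu n) f y v v := by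
    intro y hy h0
    rw [hgf] at h0
    have hx := norm_sg (n := n) q y
    have hxq : sg n q y ≠ q := sg_ne q y
    obtain ⟨γ, hγ, hγ0, hM, hpos⟩ := hFc (sg n q y) hx hy (by
      intro z hz
      have e1 := dsg_surj (n := n) q (norm_sg q y) (sg_ne (n := n) q y) hz
      rw [pr_sg] at e1
      rw [← e1, ← hdf]
      have e2 : fderiv ℝ f y = 0 := by
        have e3 := (hasFDerivAt_of_grad (hf.differentiable (by simp) y)).fderiv
        rw [h0, map_zero] at e3
        exact e3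
      rw [e2]
      rfl)
    have hp2 : ContDiffAt ℝ 2 (pr n q) (γ 0) := by
      rw [hγ0]
      exact (pr_smooth q hx hxq).of_le two_le
    have hg' : ContDiffAt ℝ 2 (fun t => pr n q (γ t)) 0 := hp2.comp 0 hγ
    have hg0 : pr n q (γ 0) = y := by rw [hγ0, pr_sg]
    have hcont : Tendsto γ (𝓝 0) (𝓝 (sg n q y)) := by
      rw [← hγ0]; exact hγ.continuousAt
    have hne1 : ∀ᶠ t in 𝓝 (0:ℝ), γ t ≠ q := hcont.eventually_ne hxq
    have hback : (fun t => F (γ t)) =ᶠ[𝓝 0] fun t => f (pr n q (γ t)) := by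
      filter_upwards [hM, hne1] with t ht ht2
      show _ = F (sg n q (pr n q (γ t)))
      rw [sg_pr q ht ht2]
    have e5 := curve2_eq hf h0 (w := deriv (fun t => pr n q (γ t)) 0) hg' hg0 rfl
    have e6 : deriv (fun t => F (γ t)) =ᶠ[𝓝 0] deriv fun t => f (pr n q (γ t)) := by
      filter_upwards [hback.eventuallyEq_nhds] with t ht using ht.deriv_eq
    rw [e6.deriv_eq, e5] at hpos
    refine ⟨deriv (fun t => pr n q (γ t)) 0, ?_⟩
    rw [hb_sec id_ld hf.contMDiff sec_id (by simp)]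
    exact hpos
  obtain ⟨y, hy, s, hs0, hsρ, hg, v, w, z₀, hv, hw, hz₀, hvw, h1, h2, hz1, h3, hz2⟩ :=
    exists_crit3 id_ld (by rw [finrank_euclideanSpace_fin]; exact hn) hc.contMDiff hcp
      hcn.nonempty hcn.isPreconnected hL hX hreg' hbl hf.contMDiff hfc
  set L : Eu n → ℝ := fun y => f y + s * ρ y with hLd
  have hLs : ContDiff ℝ ∞ L := hf.add (contDiff_const.mul hc)
  have hgL : ∀ z, ∇ L z = ∇ f z + s • ∇ ρ z := by
    intro z
    have e1 := hasFDerivAt_of_grad (hf.differentiable (by simp) z)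
    have e2 := hasFDerivAt_of_grad (hc.differentiable (by simp) z)
    have e3 := e1.add (e2.const_mul s)
    apply (InnerProductSpace.toDual ℝ (Eu n)).injective
    unfold gradient at e3 ⊢
    rw [LinearIsometryEquiv.apply_symm_apply, map_add, map_smul,
      LinearIsometryEquiv.apply_symm_apply, LinearIsometryEquiv.apply_symm_apply]
    have e4 := e3.fderiv
    rw [LinearIsometryEquiv.apply_symm_apply, LinearIsometryEquiv.apply_symm_apply] at e4
    exact e4
  have hgL0 : ∇ L y = 0 := by rw [hgL, ← hgf, ← hgρ]; exact hg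
  have hHL : ∀ w, ⟪fderiv ℝ (∇ L) y w, w⟫ = hb (id : Eu n → Eu n) f y w w +
      s * hb (id : Eu n → Eu n) ρ y w w := by
    intro w
    have e1 : HasFDerivAt (∇ f) (fderiv ℝ (∇ f) y) y :=
      ((grad_smooth hf.contDiffAt).differentiableAt (by simp)).hasFDerivAt
    have e2 : HasFDerivAt (∇ ρ) (fderiv ℝ (∇ ρ) y) y :=
      ((grad_smooth hc.contDiffAt).differentiableAt (by simp)).hasFDerivAt
    have e3 := e1.add (e2.const_smul s)
    have e4 : ∇ L = fun z => ∇ f z + s • ∇ ρ z := funext hgL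
    rw [e4]
    have e5 := e3.fderiv
    have e6 : fderiv ℝ (fun z => ∇ f z + s • ∇ ρ z) y = fderiv ℝ (∇ f) y + s • fderiv ℝ (∇ ρ) y := e5
    rw [e6, hb_sec id_ld hf.contMDiff sec_id (by simp), hb_sec id_ld hc.contMDiff sec_id (by simp)]
    rw [_root_.add_apply, _root_.smul_apply, inner_add_left, inner_smul_left]
    simp only [conj_trivial]
    rfl
  have hinner : ∀ w, ⟪∇ ρ y, w⟫ = fderiv ℝ ρ y w := by
    intro w
    have := (hasFDerivAt_of_grad (hc.differentiable (by simp) y)).fderiv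
    rw [this]
    rfl
  have hinnerf : ∀ w, ⟪∇ f y, w⟫ = fderiv ℝ f y w := by
    intro w
    have := (hasFDerivAt_of_grad (hf.differentiable (by simp) y)).fderiv
    rw [this]
    rfl
  refine ⟨sg n q y, norm_sg q y, hy, s, hs0, hsρ, ?_, ⟨fderiv ℝ (sg n q) y v,
    fderiv ℝ (sg n q) y w, ?_, inner_dsg q y v, inner_dsg q y w, ?_, ?_, ?_⟩,
    fderiv ℝ (sg n q) y z₀, ?_, inner_dsg q y z₀, ?_, ?_⟩
  · intro z hz
    have e1 := dsg_surj (n := n) q (norm_sg q y) (sg_ne (n := n) q y) hz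
    rw [pr_sg] at e1
    rw [← e1, ← hd, ← hdf, ← hinner, ← hinnerf]
    have e2 : ∇ f y + s • ∇ ρ y = 0 := by rw [← hgL, hgL0]
    have e3 : ⟪∇ f y + s • ∇ ρ y, fderiv ℝ (pr n q) (sg n q y) z⟫ = 0 := by
      rw [e2, inner_zero_left]
    rw [inner_add_left, inner_smul_left] at e3
    simpa using e3
  · rw [LinearIndependent.pair_iff]
    intro a b hab
    have e1 : fderiv ℝ (sg n q) y (a • v + b • w) = 0 := by
      rw [map_add, map_smul, map_smul]; exact hab
    have e2 := dpr_dsg (n := n) q y (a • v + b • w)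
    rw [e1, map_zero] at e2
    have e3 : ⟪a • v + b • w, v⟫ = a := by
      rw [inner_add_left, inner_smul_left, inner_smul_left, real_inner_self_eq_norm_sq, hv,
        real_inner_comm, hvw]
      simp
    have e4 : ⟪a • v + b • w, w⟫ = b := by
      rw [inner_add_left, inner_smul_left, inner_smul_left, real_inner_self_eq_norm_sq, hw, hvw]
      simp
    rw [← e2, inner_zero_left] at e3 e4
    exact ⟨e3.symm, e4.symm⟩
  · rw [← hd, ← hinner, ← hgρ]; exact h1
  · rw [← hd, ← hinner, ← hgρ]; exact h2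
  · intro a b γ hγ hγ0 hγ1 hM
    have hx := norm_sg (n := n) q y
    have hxq : sg n q y ≠ q := sg_ne q y
    have hp2 : ContDiffAt ℝ 2 (pr n q) (γ 0) := by
      rw [hγ0]
      exact (pr_smooth q hx hxq).of_le two_le
    have hg' : ContDiffAt ℝ 2 (fun t => pr n q (γ t)) 0 := hp2.comp 0 hγ
    have hg0 : pr n q (γ 0) = y := by rw [hγ0, pr_sg]
    have hg1 : deriv (fun t => pr n q (γ t)) 0 = a • v + b • w := by
      have e2 : HasDerivAt γ (fderiv ℝ (sg n q) y (a • v + b • w)) 0 := by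
        rw [map_add, map_smul, map_smul, ← hγ1]
        exact (hγ.differentiableAt (by simp)).hasDerivAt
      have e3 : HasFDerivAt (pr n q) (fderiv ℝ (pr n q) (γ 0)) (γ 0) :=
        (hp2.differentiableAt (by simp)).hasFDerivAt
      have e4 := e3.comp_hasDerivAt 0 e2
      rw [hγ0, dpr_dsg] at e4
      exact e4.deriv
    have hcont : Tendsto γ (𝓝 0) (𝓝 (sg n q y)) := by
      rw [← hγ0]; exact hγ.continuousAt
    have hne1 : ∀ᶠ t in 𝓝 (0:ℝ), γ t ≠ q := hcont.eventually_ne hxq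
    have hback : (fun t => F (γ t) + s * R (γ t)) =ᶠ[𝓝 0] fun t => L (pr n q (γ t)) := by
      filter_upwards [hM, hne1] with t ht ht2
      show _ = F (sg n q (pr n q (γ t))) + s * R (sg n q (pr n q (γ t)))
      rw [sg_pr q ht ht2]
    have e5 := curve2 hLs hgL0 (w := a • v + b • w) (by rw [hHL]; exact h3 a b) hg' hg0 hg1
    have e6 : deriv (fun t => F (γ t) + s * R (γ t)) =ᶠ[𝓝 0]
        deriv fun t => L (pr n q (γ t)) := by
      filter_upwards [hback.eventuallyEq_nhds] with t ht using ht.deriv_eq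
    rw [e6.deriv_eq]
    exact e5
  · intro h
    have e2 := dpr_dsg (n := n) q y z₀
    rw [h, map_zero] at e2
    rw [← e2, norm_zero] at hz₀
    exact zero_ne_one hz₀
  · rw [← hd, ← hinner, ← hgρ]; exact hz1
  · intro γ hγ hγ0 hγ1 hM
    have hx := norm_sg (n := n) q y
    have hxq : sg n q y ≠ q := sg_ne q y
    have hp2 : ContDiffAt ℝ 2 (pr n q) (γ 0) := by
      rw [hγ0]
      exact (pr_smooth q hx hxq).of_le two_le
    have hg' : ContDiffAt ℝ 2 (fun t => pr n q (γ t)) 0 := hp2.comp 0 hγ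
    have hg0 : pr n q (γ 0) = y := by rw [hγ0, pr_sg]
    have hg1 : deriv (fun t => pr n q (γ t)) 0 = z₀ := by
      have e2 : HasDerivAt γ (fderiv ℝ (sg n q) y z₀) 0 := by
        rw [← hγ1]
        exact (hγ.differentiableAt (by simp)).hasDerivAt
      have e3 : HasFDerivAt (pr n q) (fderiv ℝ (pr n q) (γ 0)) (γ 0) :=
        (hp2.differentiableAt (by simp)).hasFDerivAt
      have e4 := e3.comp_hasDerivAt 0 e2
      rw [hγ0, dpr_dsg] at e4
      exact e4.deriv
    have hcont : Tendsto γ (𝓝 0) (𝓝 (sg n q y)) := by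
      rw [← hγ0]; exact hγ.continuousAt
    have hne1 : ∀ᶠ t in 𝓝 (0:ℝ), γ t ≠ q := hcont.eventually_ne hxq
    have hback : (fun t => F (γ t) + s * R (γ t)) =ᶠ[𝓝 0] fun t => L (pr n q (γ t)) := by
      filter_upwards [hM, hne1] with t ht ht2
      show _ = F (sg n q (pr n q (γ t))) + s * R (sg n q (pr n q (γ t)))
      rw [sg_pr q ht ht2]
    have e5 := curve2_eq hLs hgL0 (w := z₀) hg' hg0 hg1
    have e6 : deriv (fun t => F (γ t) + s * R (γ t)) =ᶠ[𝓝 0]
        deriv fun t => L (pr n q (γ t)) := by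
      filter_upwards [hback.eventuallyEq_nhds] with t ht using ht.deriv_eq
    rw [e6.deriv_eq, e5, hHL]
    exact hz2

end Pool.Agent.Q196.XG
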