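import Pool.Agent.Q196.XG.Ball

/-! Critical points of functions on a domain which is not a ball: one with two nonpositive
directions and one nonnegative direction tangent to the boundary. -/

set_option autoImplicit false
set_option linter.unusedSectionVars false

open scoped Topology ContDiff Manifold RealInnerProductSpace Gradient
open Set Metric Filter Bundle Module Pool.Agent.Q196.XB Pool.Agent.Q196.XF Asymptotics

noncomputable section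

namespace Pool.Agent.Q196.XG

variable {E : Type} [NormedAddCommGroup E] [InnerProductSpace ℝ E] [FiniteDimensional ℝ E]
  {N : Type} [TopologicalSpace N] [ChartedSpace E N] [IsManifold 𝓘(ℝ, E) ∞ N]

/-- `x` is a critical point of `f` on the domain `{ρ ≤ 0}` (in the interior, or on the boundary
with the gradient pointing inwards) at which the second variation is nonpositive on a plane and
nonnegative in some direction (tangent to the boundary if the multiplier is not zero). -/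
def Crit3 (u : N → E) (ρ f : N → ℝ) (x : N) : Prop :=
  ρ x ≤ 0 ∧ ∃ s, 0 ≤ s ∧ s * ρ x = 0 ∧ gr u f x + s • gr u ρ x = 0 ∧ ∃ v w z : E, ‖v‖ = 1 ∧
    ‖w‖ = 1 ∧ ‖z‖ = 1 ∧ ⟪v, w⟫ = 0 ∧ s * ⟪gr u ρ x, v⟫ = 0 ∧ s * ⟪gr u ρ x, w⟫ = 0 ∧
    s * ⟪gr u ρ x, z⟫ = 0 ∧ (∀ a c : ℝ,
      hb u f x (a • v + c • w) (a • v + c • w) +
        s * hb u ρ x (a • v + c • w) (a • v + c • w) ≤ 0) ∧
    0 ≤ hb u f x z z + s * hb u ρ x z z

lemma plane_perp {v w : E} (hv : ‖v‖ = 1) (hw : ‖w‖ = 1) (hvw : ⟪v, w⟫ = 0) (g : E) :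
    ∃ a b : ℝ, ‖a • v + b • w‖ = 1 ∧ ⟪g, a • v + b • w⟫ = 0 := by
  have hn : ∀ a b : ℝ, ‖a • v + b • w‖ ^ 2 = a ^ 2 + b ^ 2 := by
    intro a b
    rw [norm_add_sq_real, inner_smul_left, inner_smul_right, hvw, norm_smul, norm_smul, hv, hw,
      Real.norm_eq_abs, Real.norm_eq_abs, mul_one, mul_one, sq_abs, sq_abs]
    simp
  by_cases h : ⟪g, v⟫ = 0 ∧ ⟪g, w⟫ = 0
  · refine ⟨1, 0, ?_, ?_⟩
    · rw [one_smul, zero_smul, add_zero, hv]
    · rw [one_smul, zero_smul, add_zero, h.1]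
  · have hpos : 0 < ⟪g, v⟫ ^ 2 + ⟪g, w⟫ ^ 2 := by
      rcases not_and_or.1 h with h1 | h1
      · have : 0 < ⟪g, v⟫ ^ 2 := by positivity
        positivity
      · have : 0 < ⟪g, w⟫ ^ 2 := by positivity
        positivity
    set R := √(⟪g, v⟫ ^ 2 + ⟪g, w⟫ ^ 2) with hR
    have hR0 : 0 < R := Real.sqrt_pos.2 hpos
    have hR2 : R ^ 2 = ⟪g, v⟫ ^ 2 + ⟪g, w⟫ ^ 2 := Real.sq_sqrt hpos.le
    refine ⟨-⟪g, w⟫ / R, ⟪g, v⟫ / R, ?_, ?_⟩
    · have h1 := hn (-⟪g, w⟫ / R) (⟪g, v⟫ / R)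
      have h2 : (-⟪g, w⟫ / R) ^ 2 + (⟪g, v⟫ / R) ^ 2 = 1 := by
        rw [div_pow, div_pow, ← add_div, neg_sq, add_comm, ← hR2, div_self (by positivity)]
      rw [h2] at h1
      exact (pow_eq_one_iff_of_nonneg (norm_nonneg _) two_ne_zero).1 h1
    · rw [inner_add_right, inner_smul_right, inner_smul_right]
      ring

theorem exists_tau3 {u : N → E} (hu : IsLocalDiffeomorph 𝓘(ℝ, E) 𝓘(ℝ, E) ∞ u) {ρ f : N → ℝ}
    (hρ : ContMDiff 𝓘(ℝ, E) 𝓘(ℝ, ℝ) ∞ ρ) (hf : ContMDiff 𝓘(ℝ, E) 𝓘(ℝ, ℝ) ∞ f)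
    (hcomp : IsCompact {x | ρ x ≤ 0}) (hreg : ∀ x, ρ x = 0 → gr u ρ x ≠ 0)
    (hfc : ∀ x, ρ x ≤ 0 → gr u f x = 0 → ∃ v, 0 < hb u f x v v)
    (hno : ¬ ∃ x, Crit3 u ρ f x) : ∃ τ₀, 0 < τ₀ ∧ ∀ τ, 0 < τ → τ < τ₀ → ∀ b : E, ‖b‖ < τ₀ →
      ∀ x, ρ x < 0 → gr u f x + b = (τ / ρ x) • gr u ρ x →
      Idx fun v => hb u f x v v + -(τ / ρ x) * hb u ρ x v v +
          τ / ρ x ^ 2 * ⟪gr u ρ x, v⟫ ^ 2 := by
  by_contra hcon
  push Not at hcon
  have hcon' : ∀ n : ℕ, ∃ (τ : ℝ) (b : E) (x : N) (v w z : E), 0 < τ ∧ τ < 1 / ((n:ℝ) + 1) ∧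
      ‖b‖ < 1 / ((n:ℝ) + 1) ∧ ρ x < 0 ∧ gr u f x + b = (τ / ρ x) • gr u ρ x ∧ ‖v‖ = 1 ∧ ‖w‖ = 1 ∧
      ⟪v, w⟫ = 0 ∧ (∀ a c : ℝ, hb u f x (a • v + c • w) (a • v + c • w) +
          -(τ / ρ x) * hb u ρ x (a • v + c • w) (a • v + c • w) +
          τ / ρ x ^ 2 * ⟪gr u ρ x, a • v + c • w⟫ ^ 2 ≤ 0) ∧ ‖z‖ = 1 ∧
      ((∀ v, hb u f x v v + -(τ / ρ x) * hb u ρ x v v + τ / ρ x ^ 2 * ⟪gr u ρ x, v⟫ ^ 2 ≤ 0) ∨
        (⟪gr u ρ x, z⟫ = 0 ∧ 0 ≤ hb u f x z z + -(τ / ρ x) * hb u ρ x z z)) := by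
    intro n
    obtain ⟨τ, h1, h2, b, h3, x, h4, h5, h6⟩ := hcon (1 / ((n:ℝ) + 1)) (by positivity)
    unfold Idx at h6
    push Not at h6
    obtain ⟨⟨v, w, hv, hw, hvw, h7⟩, h8⟩ := h6
    by_cases hall : ∀ v, hb u f x v v + -(τ / ρ x) * hb u ρ x v v +
        τ / ρ x ^ 2 * ⟪gr u ρ x, v⟫ ^ 2 ≤ 0
    · exact ⟨τ, b, x, v, w, v, h1, h2, h3, h4, h5, hv, hw, hvw, h7, hv, Or.inl hall⟩
    · have h9 : ∃ v' w' : E, ‖v'‖ = 1 ∧ ‖w'‖ = 1 ∧ ⟪v', w'⟫ = 0 ∧ ∀ a c : ℝ,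
          0 ≤ hb u f x (a • v' + c • w') (a • v' + c • w') +
          -(τ / ρ x) * hb u ρ x (a • v' + c • w') (a • v' + c • w') +
          τ / ρ x ^ 2 * ⟪gr u ρ x, a • v' + c • w'⟫ ^ 2 := by
        by_contra hcc
        push Not at hcc
        exact hall (h8 hcc)
      obtain ⟨v', w', hv', hw', hvw', h10⟩ := h9
      obtain ⟨a, c, hac, hg⟩ := plane_perp hv' hw' hvw' (gr u ρ x)
      have h11 := h10 a c
      rw [hg] at h11
      exact ⟨τ, b, x, v, w, _, h1, h2, h3, h4, h5, hv, hw, hvw, h7, hac, Or.inr ⟨hg, by simpa using h11⟩⟩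
  choose τ b x v w z h1 h2 h3 h4 h5 h6 h7 h8 h9 hz1 hz2 using hcon'
  have hgρ := (gr_smooth hu hρ).continuous
  have hgf := (gr_smooth hu hf).continuous
  have hHρ := HE_cont hu hρ
  have hHf := HE_cont hu hf
  have hMne : {x | ρ x ≤ 0}.Nonempty := ⟨x 0, (h4 0).le⟩
  -- constants
  obtain ⟨m, hm, hm'⟩ : ∃ m, 0 < m ∧ ∀ x, ρ x ≤ 0 → m ≤ -(ρ x) + ‖gr u ρ x‖ := by
    obtain ⟨y, hy, hmin⟩ := hcomp.exists_isMinOn hMne
      (f := fun x => -(ρ x) + ‖gr u ρ x‖) (hρ.continuous.neg.add hgρ.norm).continuousOn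
    have hy' : ρ y ≤ 0 := hy
    refine ⟨_, ?_, fun x hx => isMinOn_iff.1 hmin x hx⟩
    rcases hy'.eq_or_lt with h | h
    · have := norm_pos_iff.2 (hreg y h)
      rw [h]; linarith
    · have := norm_nonneg (gr u ρ y)
      linarith
  obtain ⟨C, hC⟩ := hcomp.exists_bound_of_continuousOn hgf.continuousOn
  have hC' : ∀ n, ‖gr u f (x n)‖ ≤ C := fun n => hC _ (h4 n).le
  have hC0 : 0 ≤ C := (norm_nonneg _).trans (hC' 0)
  set s : ℕ → ℝ := fun n => -(τ n / ρ (x n)) with hs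
  have hle1 : ∀ n : ℕ, 1 / ((n:ℝ) + 1) ≤ 1 := fun n => by
    rw [div_le_one (by positivity)]
    linarith [(Nat.cast_nonneg n : (0:ℝ) ≤ n)]
  have hs0 : ∀ n, 0 < s n := fun n => by
    simp only [hs]
    rw [neg_pos]
    exact div_neg_of_pos_of_neg (h1 n) (h4 n)
  have hsρ : ∀ n, s n * ρ (x n) = -(τ n) := fun n => by
    simp only [hs]
    have := (h4 n).ne
    field_simp
  have hgrad : ∀ n, gr u f (x n) + b n + s n • gr u ρ (x n) = 0 := fun n => by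
    rw [h5 n]
    simp only [hs]
    rw [neg_smul, add_neg_cancel]
  have hsb : ∀ n, s n ∈ Icc 0 ((C + 2) / m) := by
    intro n
    refine ⟨(hs0 n).le, ?_⟩
    rw [le_div_iff₀ hm]
    have e1 : s n * m ≤ s n * (-(ρ (x n)) + ‖gr u ρ (x n)‖) := by
      have := hm' _ (h4 n).le
      have := (hs0 n).le
      gcongr
    have e2 : s n * ‖gr u ρ (x n)‖ = ‖gr u f (x n) + b n‖ := by
      have : s n • gr u ρ (x n) = -(gr u f (x n) + b n) :=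
        (neg_eq_of_add_eq_zero_right (hgrad n)).symm
      rw [← norm_neg (gr u f (x n) + b n), ← this, norm_smul, Real.norm_eq_abs, abs_of_pos (hs0 n)]
    have e3 : ‖gr u f (x n) + b n‖ ≤ C + 1 :=
      (norm_add_le _ _).trans (add_le_add (hC' n) ((h3 n).le.trans (hle1 n)))
    have e4 := (h2 n).le.trans (hle1 n)
    have e5 := hsρ n
    calc s n * m ≤ s n * (-(ρ (x n)) + ‖gr u ρ (x n)‖) := e1
      _ = -(s n * ρ (x n)) + s n * ‖gr u ρ (x n)‖ := by ring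
      _ ≤ C + 2 := by rw [e5, e2]; linarith
  -- limits
  obtain ⟨x₀, hx₀, tx⟩ := ultra_lim hcomp (s := x) (fun n => (h4 n).le)
  obtain ⟨s₀, hs₀, ts⟩ := ultra_lim isCompact_Icc hsb
  obtain ⟨v₀, hv₀, tv⟩ := ultra_lim (isCompact_sphere (0:E) 1) (s := v)
    (fun n => mem_sphere_zero_iff_norm.2 (h6 n))
  obtain ⟨w₀, hw₀, tw⟩ := ultra_lim (isCompact_sphere (0:E) 1) (s := w)
    (fun n => mem_sphere_zero_iff_norm.2 (h7 n))
  obtain ⟨z₀, hz₀, tz⟩ := ultra_lim (isCompact_sphere (0:E) 1) (s := z)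
    (fun n => mem_sphere_zero_iff_norm.2 (hz1 n))
  have hlim : Tendsto (fun n : ℕ => 1 / ((n:ℝ) + 1)) (hyperfilter ℕ : Filter ℕ) (𝓝 0) :=
    tendsto_one_div_add_atTop_nhds_zero_nat.mono_left Nat.hyperfilter_le_atTop
  have tτ : Tendsto τ (hyperfilter ℕ : Filter ℕ) (𝓝 0) :=
    squeeze_zero (fun n => (h1 n).le) (fun n => (h2 n).le) hlim
  have tb : Tendsto b (hyperfilter ℕ : Filter ℕ) (𝓝 0) :=
    squeeze_zero_norm (fun n => (h3 n).le) hlim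
  have tρ : Tendsto (fun n => ρ (x n)) (hyperfilter ℕ : Filter ℕ) (𝓝 (ρ x₀)) :=
    (hρ.continuous.tendsto x₀).comp tx
  have tgρ : Tendsto (fun n => gr u ρ (x n)) (hyperfilter ℕ : Filter ℕ) (𝓝 (gr u ρ x₀)) :=
    (hgρ.tendsto x₀).comp tx
  have tgf : Tendsto (fun n => gr u f (x n)) (hyperfilter ℕ : Filter ℕ) (𝓝 (gr u f x₀)) :=
    (hgf.tendsto x₀).comp tx
  have tHρ : Tendsto (fun n => HE u ρ (x n)) (hyperfilter ℕ : Filter ℕ) (𝓝 (HE u ρ x₀)) :=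
    (hHρ.tendsto x₀).comp tx
  have tHf : Tendsto (fun n => HE u f (x n)) (hyperfilter ℕ : Filter ℕ) (𝓝 (HE u f x₀)) :=
    (hHf.tendsto x₀).comp tx
  -- the quadratic forms along a converging sequence
  have tQ : ∀ (y : ℕ → E) (y₀ : E), Tendsto y (hyperfilter ℕ : Filter ℕ) (𝓝 y₀) →
      Tendsto (fun n => ⟪HE u f (x n) (y n), y n⟫ + s n * ⟪HE u ρ (x n) (y n), y n⟫)
        (hyperfilter ℕ : Filter ℕ) (𝓝 (⟪HE u f x₀ y₀, y₀⟫ + s₀ * ⟪HE u ρ x₀ y₀, y₀⟫)) :=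
    fun y y₀ ty => ((tendsto_clm tHf ty).inner ty).add (ts.mul ((tendsto_clm tHρ ty).inner ty))
  -- if the whole form is nonpositive along `y` then the normal component vanishes in the limit
  have hnorm : ∀ (y : ℕ → E) (y₀ : E), Tendsto y (hyperfilter ℕ : Filter ℕ) (𝓝 y₀) →
      (∀ᶠ n in (hyperfilter ℕ : Filter ℕ), ⟪HE u f (x n) (y n), y n⟫ +
        s n * ⟪HE u ρ (x n) (y n), y n⟫ + τ n / ρ (x n) ^ 2 * ⟪gr u ρ (x n), y n⟫ ^ 2 ≤ 0) →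
      s₀ * ⟪gr u ρ x₀, y₀⟫ = 0 := by
    intro y y₀ ty key
    have tI : Tendsto (fun n => s n ^ 2 * ⟪gr u ρ (x n), y n⟫ ^ 2)
        (hyperfilter ℕ : Filter ℕ) (𝓝 (s₀ ^ 2 * ⟪gr u ρ x₀, y₀⟫ ^ 2)) :=
      (ts.pow 2).mul ((tgρ.inner ty).pow 2)
    have e3 : s₀ ^ 2 * ⟪gr u ρ x₀, y₀⟫ ^ 2 ≤ 0 := by
      have e4 := tI.add (tτ.mul (tQ y y₀ ty))
      rw [zero_mul, add_zero] at e4
      refine le_of_tendsto e4 (key.mono fun n e5 => ?_)
      have e6 : s n ^ 2 = τ n * (τ n / ρ (x n) ^ 2) := by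
        simp only [hs]
        have := (h4 n).ne
        field_simp
      rw [e6]
      have e7 := h1 n
      nlinarith
    have e8 : (s₀ * ⟪gr u ρ x₀, y₀⟫) ^ 2 ≤ 0 := by rw [mul_pow]; exact e3
    exact pow_eq_zero_iff (two_ne_zero) |>.1 (le_antisymm e8 (sq_nonneg _))
  have hplane : ∀ a c : ℝ, hb u f x₀ (a • v₀ + c • w₀) (a • v₀ + c • w₀) +
      s₀ * hb u ρ x₀ (a • v₀ + c • w₀) (a • v₀ + c • w₀) ≤ 0 ∧
      s₀ * ⟪gr u ρ x₀, a • v₀ + c • w₀⟫ = 0 := by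
    intro a c
    have ty : Tendsto (fun n => a • v n + c • w n) (hyperfilter ℕ : Filter ℕ)
        (𝓝 (a • v₀ + c • w₀)) := (tv.const_smul a).add (tw.const_smul c)
    have key : ∀ n, ⟪HE u f (x n) (a • v n + c • w n), a • v n + c • w n⟫ +
        s n * ⟪HE u ρ (x n) (a • v n + c • w n), a • v n + c • w n⟫ +
        τ n / ρ (x n) ^ 2 * ⟪gr u ρ (x n), a • v n + c • w n⟫ ^ 2 ≤ 0 := fun n => h9 n a c
    refine ⟨?_, hnorm _ _ ty (Filter.Eventually.of_forall key)⟩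
    refine le_of_tendsto (tQ _ _ ty) (Filter.Eventually.of_forall fun n => ?_)
    have e1 := key n
    have e2 : 0 ≤ τ n / ρ (x n) ^ 2 * ⟪gr u ρ (x n), a • v n + c • w n⟫ ^ 2 := by
      have := h1 n
      positivity
    linarith
  have hsρ0 : s₀ * ρ x₀ = 0 := by
    have e1 : Tendsto (fun n => s n * ρ (x n)) (hyperfilter ℕ : Filter ℕ) (𝓝 (s₀ * ρ x₀)) :=
      ts.mul tρ
    have e2 : Tendsto (fun n => s n * ρ (x n)) (hyperfilter ℕ : Filter ℕ) (𝓝 0) := by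
      have e3 : (fun n => s n * ρ (x n)) = fun n => -(τ n) := funext hsρ
      rw [e3]
      simpa using tτ.neg
    exact tendsto_nhds_unique e1 e2
  have hg0 : gr u f x₀ + s₀ • gr u ρ x₀ = 0 := by
    have e1 : Tendsto (fun n => gr u f (x n) + b n + s n • gr u ρ (x n))
        (hyperfilter ℕ : Filter ℕ) (𝓝 (gr u f x₀ + 0 + s₀ • gr u ρ x₀)) :=
      (tgf.add tb).add (ts.smul tgρ)
    rw [add_zero] at e1
    have e2 : (fun n => gr u f (x n) + b n + s n • gr u ρ (x n)) = fun _ => 0 := funext hgrad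
    rw [e2] at e1
    exact tendsto_nhds_unique e1 tendsto_const_nhds
  have hvw0 : ⟪v₀, w₀⟫ = 0 := by
    have e1 : Tendsto (fun n => ⟪v n, w n⟫) (hyperfilter ℕ : Filter ℕ) (𝓝 ⟪v₀, w₀⟫) := tv.inner tw
    have e2 : (fun n => ⟪v n, w n⟫) = fun _ => (0:ℝ) := funext h8
    rw [e2] at e1
    exact tendsto_nhds_unique e1 tendsto_const_nhds
  have hv₀' := mem_sphere_zero_iff_norm.1 hv₀
  have hw₀' := mem_sphere_zero_iff_norm.1 hw₀
  -- not the first alternative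
  have hev : ∀ᶠ n in (hyperfilter ℕ : Filter ℕ),
      (⟪gr u ρ (x n), z n⟫ = 0 ∧ 0 ≤ hb u f (x n) (z n) (z n) +
        -(τ n / ρ (x n)) * hb u ρ (x n) (z n) (z n)) := by
    by_contra hcc
    have hcc' := (Ultrafilter.eventually_not).2 hcc
    have hall : ∀ᶠ n in (hyperfilter ℕ : Filter ℕ), ∀ v, hb u f (x n) v v +
        -(τ n / ρ (x n)) * hb u ρ (x n) v v + τ n / ρ (x n) ^ 2 * ⟪gr u ρ (x n), v⟫ ^ 2 ≤ 0 :=
      hcc'.mono fun n hn => (hz2 n).resolve_right hn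
    by_cases hs₀ne : s₀ = 0
    · rw [hs₀ne, zero_smul, add_zero] at hg0
      obtain ⟨v, hv⟩ := hfc x₀ hx₀ hg0
      have e1 := tQ (fun _ => v) v tendsto_const_nhds
      rw [hs₀ne, zero_mul, add_zero] at e1
      have e2 : ⟪HE u f x₀ v, v⟫ ≤ 0 := by
        refine le_of_tendsto e1 (hall.mono fun n hn => ?_)
        have e3 := hn v
        have e4 : 0 ≤ τ n / ρ (x n) ^ 2 * ⟪gr u ρ (x n), v⟫ ^ 2 := by
          have := h1 n
          positivity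
        show hb u f (x n) v v + -(τ n / ρ (x n)) * hb u ρ (x n) v v ≤ 0
        linarith
      have e3 : ⟪HE u f x₀ v, v⟫ = hb u f x₀ v v := rfl
      linarith
    · have hs₀pos : 0 < s₀ := lt_of_le_of_ne hs₀.1 (Ne.symm hs₀ne)
      have hρ0 : ρ x₀ = 0 := (mul_eq_zero.1 hsρ0).resolve_left hs₀ne
      have hgne := hreg x₀ hρ0
      have e1 := hnorm (fun n => gr u ρ (x n)) _ tgρ (hall.mono fun n hn => hn _)
      rw [real_inner_self_eq_norm_sq] at e1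
      have := norm_pos_iff.2 hgne
      have : 0 < s₀ * ‖gr u ρ x₀‖ ^ 2 := by positivity
      linarith
  apply hno
  refine ⟨x₀, hx₀, s₀, hs₀.1, hsρ0, hg0, v₀, w₀, z₀, hv₀', hw₀', mem_sphere_zero_iff_norm.1 hz₀,
    hvw0, ?_, ?_, ?_, fun a c => (hplane a c).1, ?_⟩
  · have := (hplane 1 0).2
    rwa [one_smul, zero_smul, add_zero] at this
  · have := (hplane 0 1).2
    rwa [one_smul, zero_smul, zero_add] at this
  · have e1 : ⟪gr u ρ x₀, z₀⟫ = 0 := tendsto_nhds_unique_of_eventuallyEq (tgρ.inner tz)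
      tendsto_const_nhds (hev.mono fun n hn => hn.1)
    rw [e1, mul_zero]
  · exact ge_of_tendsto (tQ z z₀ tz) (hev.mono fun n hn => hn.2)

end Pool.Agent.Q196.XG
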