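import Pool.Agent.Q196.XG.Up

/-! Continuous arguments: homotopies, gluing, extension; unicoherence and a maximum principle. -/

set_option autoImplicit false
set_option linter.unusedSectionVars false

open scoped Topology ContDiff Manifold RealInnerProductSpace Gradient unitInterval
open Set Metric Filter Bundle Pool.Agent.Q196.XB Pool.Agent.Q196.XF Asymptotics

noncomputable section

namespace Pool.Agent.Q196.XG

/-- `f` has a continuous argument on `A`. -/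
def Arg {Y : Type} [TopologicalSpace Y] (f : Y → ℂ) (A : Set Y) : Prop :=
  ∃ θ : Y → ℝ, ContinuousOn θ A ∧ ∀ x ∈ A, f x = Complex.exp (θ x * Complex.I)

lemma Arg.mono {Y : Type} [TopologicalSpace Y] {f : Y → ℂ} {A B : Set Y} (h : Arg f A)
    (hBA : B ⊆ A) : Arg f B := by
  obtain ⟨θ, h1, h2⟩ := h
  exact ⟨θ, h1.mono hBA, fun x hx => h2 x (hBA hx)⟩

lemma Arg.congr {Y : Type} [TopologicalSpace Y] {f g : Y → ℂ} {A : Set Y} (h : Arg f A)
    (hfg : ∀ x ∈ A, g x = f x) : Arg g A := by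
  obtain ⟨θ, h1, h2⟩ := h
  exact ⟨θ, h1, fun x hx => by rw [hfg x hx]; exact h2 x hx⟩

lemma arg_const {Y : Type} [TopologicalSpace Y] {c : ℂ} (hc : ‖c‖ = 1) (A : Set Y) :
    Arg (fun _ : Y => c) A := by
  refine ⟨fun _ => Complex.arg c, continuousOn_const, fun x _ => ?_⟩
  have := Complex.norm_mul_exp_arg_mul_I c
  rw [hc] at this
  simp at this
  exact this.symm

theorem arg_htpy {Y Z : Type} [TopologicalSpace Y] [TopologicalSpace Z] {A : Set Z} {T : Set Y}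
    {f : Y → ℂ} {H : ℝ → Z → Y} (hf : ContinuousOn f T) (h1 : ∀ y ∈ T, ‖f y‖ = 1)
    (hH : ContinuousOn (fun p : ℝ × Z => H p.1 p.2) (Icc 0 1 ×ˢ A))
    (hT : ∀ s ∈ Icc (0:ℝ) 1, ∀ z ∈ A, H s z ∈ T)
    (h0 : Arg (fun z => f (H 0 z)) A) : Arg (fun z => f (H 1 z)) A := by
  classical
  obtain ⟨θ, hθ, hθ'⟩ := h0
  have hmem : ∀ p : I × A, f (H p.1 p.2) ∈ Submonoid.unitSphere ℂ := fun p => by
    show f (H p.1 p.2) ∈ sphere (0:ℂ) 1
    exact mem_sphere_zero_iff_norm.2 (h1 _ (hT _ p.1.2 _ p.2.2))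
  have hc : Continuous fun p : I × A => f (H p.1 p.2) := by
    have h3 : ContinuousOn (fun p : ℝ × Z => f (H p.1 p.2)) (Icc 0 1 ×ˢ A) :=
      hf.comp hH (fun p hp => hT _ hp.1 _ hp.2)
    have h4 : Continuous fun p : I × A => ((p.1:ℝ), (p.2:Z)) := by fun_prop
    exact h3.comp_continuous h4 (fun p => ⟨p.1.2, p.2.2⟩)
  let H' : C(I × A, Circle) := ⟨fun p => ⟨f (H p.1 p.2), hmem p⟩, hc.subtype_mk _⟩
  let θ' : C(A, ℝ) := ⟨fun z => θ z, continuousOn_iff_continuous_restrict.1 hθ⟩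
  have hz : ∀ a, H' (0, a) = Circle.exp (θ' a) := by
    intro a
    apply Subtype.ext
    show f (H ((0:I):ℝ) a) = _
    rw [Circle.coe_exp]
    exact hθ' a a.2
  set L := Circle.isCoveringMap_exp.liftHomotopy H' θ' hz with hL
  have hlift := Circle.isCoveringMap_exp.liftHomotopy_lifts H' θ' hz
  refine ⟨fun z => if h : z ∈ A then L (1, ⟨z, h⟩) else 0, ?_, fun z hz => ?_⟩
  · rw [continuousOn_iff_continuous_restrict]
    have : Continuous fun z : A => L (1, z) := L.continuous.comp (by fun_prop)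
    refine this.congr fun x => ?_
    show L (1, x) = if h : (x : Z) ∈ A then L (1, ⟨x, h⟩) else 0
    rw [dif_pos x.2]
  · simp only [dif_pos hz]
    have h5 := congrFun hlift (1, ⟨z, hz⟩)
    have h6 : Circle.exp (L (1, ⟨z, hz⟩)) = H' (1, ⟨z, hz⟩) := h5
    have h7 : ((H' (1, ⟨z, hz⟩) : Circle) : ℂ) = f (H 1 z) := rfl
    rw [← h7, ← h6, Circle.coe_exp]

/-- the particular case of a set which can be contracted onto a point -/
theorem arg_htpy' {Y : Type} [TopologicalSpace Y] {A : Set Y}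
    {f : Y → ℂ} {H : ℝ → Y → Y} (hf : ContinuousOn f A) (h1 : ∀ y ∈ A, ‖f y‖ = 1)
    (hH : ContinuousOn (fun p : ℝ × Y => H p.1 p.2) (Icc 0 1 ×ˢ A))
    (hT : ∀ s ∈ Icc (0:ℝ) 1, ∀ z ∈ A, H s z ∈ A) (hid : ∀ z ∈ A, H 1 z = z)
    (h0 : Arg (fun z => f (H 0 z)) A) : Arg f A :=
  (arg_htpy hf h1 hH hT h0).congr fun x hx => by rw [hid x hx]

theorem arg_glue {Y : Type} [TopologicalSpace Y] {A₁ A₂ : Set Y} (h1 : IsClosed A₁)
    (h2 : IsClosed A₂) (hpre : IsPreconnected (A₁ ∩ A₂)) {f : Y → ℂ} (a1 : Arg f A₁)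
    (a2 : Arg f A₂) : Arg f (A₁ ∪ A₂) := by
  classical
  obtain ⟨θ₁, c1, e1⟩ := a1
  obtain ⟨θ₂, c2, e2⟩ := a2
  have hπ := Real.pi_pos
  have hint : ∀ x ∈ A₁ ∩ A₂, ∃ n : ℤ, θ₁ x / (2 * Real.pi) - θ₂ x / (2 * Real.pi) = n := by
    intro x hx
    refine exp_int ?_
    have h3 : (2 * Real.pi * (θ₂ x / (2 * Real.pi) : ℝ) * Complex.I : ℂ) = θ₂ x * Complex.I := by
      have hπ' : (Real.pi : ℂ) ≠ 0 := by exact_mod_cast hπ.ne'
      push_cast
      field_simp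
    rw [h3, ← e1 x hx.1, ← e2 x hx.2]
  obtain ⟨k, hk⟩ : ∃ k : ℤ, ∀ x ∈ A₁ ∩ A₂, θ₁ x = θ₂ x + 2 * Real.pi * k := by
    rcases (A₁ ∩ A₂).eq_empty_or_nonempty with h | ⟨x₀, hx₀⟩
    · exact ⟨0, fun x hx => by rw [h] at hx; exact absurd hx (notMem_empty _)⟩
    obtain ⟨k, hk⟩ := hint x₀ hx₀
    refine ⟨k, fun x hx => ?_⟩
    have h4 := int_const hpre (h := fun x => θ₁ x / (2 * Real.pi) - θ₂ x / (2 * Real.pi))
      (((c1.mono inter_subset_left).div_const _).sub ((c2.mono inter_subset_right).div_const _))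
      hint x hx x₀ hx₀
    rw [hk] at h4
    field_simp at h4
    linarith
  set θ : Y → ℝ := fun x => if x ∈ A₁ then θ₁ x else θ₂ x + 2 * Real.pi * k with hθ
  have t1 : ∀ x ∈ A₁, θ x = θ₁ x := fun x hx => by simp only [hθ, if_pos hx]
  have t2 : ∀ x ∈ A₂, θ x = θ₂ x + 2 * Real.pi * k := by
    intro x hx
    by_cases h : x ∈ A₁
    · rw [t1 x h, hk x ⟨h, hx⟩]
    · simp only [hθ, if_neg h]
  refine ⟨θ, ContinuousOn.union_of_isClosed (c1.congr t1) ((c2.add_const _).congr t2) h1 h2, ?_⟩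
  rintro x (hx | hx)
  · rw [t1 x hx]; exact e1 x hx
  · rw [t2 x hx, e2 x hx, Complex.exp_eq_exp_iff_exists_int]
    refine ⟨-k, ?_⟩
    push_cast
    ring

/-- extension over a closed set on whose intersection with the domain there is an argument -/
theorem ext_over {Y : Type} [TopologicalSpace Y] [NormalSpace Y] {A B : Set Y} (hA : IsClosed A)
    (hB : IsClosed B) {f : Y → ℂ} (hf : ContinuousOn f A) (h1 : ∀ x ∈ A, ‖f x‖ = 1)
    (harg : Arg f (A ∩ B)) : ∃ F : Y → ℂ, ContinuousOn F (A ∪ B) ∧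
      (∀ x ∈ A ∪ B, ‖F x‖ = 1) ∧ ∀ x ∈ A, F x = f x := by
  classical
  obtain ⟨θ, hθ, hθ'⟩ := harg
  let θ₀ : C((A ∩ B : Set Y), ℝ) := ⟨_, continuousOn_iff_continuous_restrict.1 hθ⟩
  obtain ⟨Θ, hΘ⟩ := θ₀.exists_restrict_eq (hA.inter hB)
  have hΘ' : ∀ x ∈ A ∩ B, Θ x = θ x := fun x hx => by
    have := DFunLike.congr_fun hΘ ⟨x, hx⟩
    exact this
  set F : Y → ℂ := fun x => if x ∈ A then f x else Complex.exp (Θ x * Complex.I) with hF
  have hF1 : ∀ x ∈ A, F x = f x := fun x hx => by simp only [hF, if_pos hx]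
  have hF2 : ∀ x ∈ B, F x = Complex.exp (Θ x * Complex.I) := by
    intro x hx
    by_cases h : x ∈ A
    · rw [hF1 x h, hθ' x ⟨h, hx⟩, hΘ' x ⟨h, hx⟩]
    · simp only [hF, if_neg h]
  have hc : Continuous fun x => Complex.exp (Θ x * Complex.I) := by
    have := Θ.continuous
    fun_prop
  refine ⟨F, ContinuousOn.union_of_isClosed (hf.congr hF1) (hc.continuousOn.congr hF2) hA hB,
    ?_, hF1⟩
  rintro x (hx | hx)
  · rw [hF1 x hx]; exact h1 x hx
  · rw [hF2 x hx, Complex.norm_exp_ofReal_mul_I]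

/-- **Unicoherence**, for closed sets. -/
theorem uni_closed {Y : Type} [TopologicalSpace Y] [NormalSpace Y] {A B : Set Y} (hA : IsClosed A)
    (hB : IsClosed B) (hL : Lifts (A ∪ B)) (hA' : IsPreconnected A) (hB' : IsPreconnected B) :
    IsPreconnected (A ∩ B) := by
  classical
  rw [isPreconnected_closed_iff]
  intro t t' ht ht' hcov hne hne'
  by_contra hcon
  rw [Set.not_nonempty_iff_eq_empty] at hcon
  obtain ⟨χ, hχ0, hχ1, -⟩ := exists_continuous_zero_one_of_isClosed (s := A ∩ B ∩ t)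
    (t := A ∩ B ∩ t') ((hA.inter hB).inter ht) ((hA.inter hB).inter ht') (by
      rw [Set.disjoint_left]
      rintro x ⟨hx1, hx2⟩ ⟨-, hx3⟩
      have : x ∈ A ∩ B ∩ (t ∩ t') := ⟨hx1, hx2, hx3⟩
      rw [hcon] at this
      exact this)
  set F : Y → ℂ := fun x => if x ∈ A then Complex.exp (2 * Real.pi * χ x * Complex.I) else 1 with hF
  have hF1 : ∀ x ∈ A, F x = Complex.exp (2 * Real.pi * χ x * Complex.I) := fun x hx => by
    simp only [hF, if_pos hx]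
  have hF2 : ∀ x ∈ B, F x = 1 := by
    intro x hx
    by_cases h : x ∈ A
    · rw [hF1 x h]
      rcases hcov ⟨h, hx⟩ with h' | h'
      · have : χ x = 0 := hχ0 ⟨⟨h, hx⟩, h'⟩
        rw [this]
        simp
      · have : χ x = 1 := hχ1 ⟨⟨h, hx⟩, h'⟩
        rw [this]
        push_cast
        rw [mul_one, Complex.exp_two_pi_mul_I]
    · simp only [hF, if_neg h]
  have hc : Continuous fun x => Complex.exp (2 * Real.pi * χ x * Complex.I) := by
    have := χ.continuous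
    fun_prop
  obtain ⟨θ, hθ, hθ'⟩ := hL F (ContinuousOn.union_of_isClosed (hc.continuousOn.congr hF1)
    (continuousOn_const.congr hF2) hA hB) (by
      rintro x (hx | hx)
      · rw [hF1 x hx, show (2 * Real.pi * χ x * Complex.I : ℂ) =
          ((2 * Real.pi * χ x : ℝ) : ℂ) * Complex.I by push_cast; ring]
        exact Complex.norm_exp_ofReal_mul_I _
      · rw [hF2 x hx, norm_one])
  have kA := int_const hA' (h := fun x => θ x / (2 * Real.pi) - χ x)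
    (((hθ.mono subset_union_left).div_const _).sub χ.continuous.continuousOn)
    (fun x hx => exp_int (by rw [← hθ' x (Or.inl hx), hF1 x hx]))
  have kB := int_const hB' (h := fun x => θ x / (2 * Real.pi) - 0)
    (((hθ.mono subset_union_right).div_const _).sub continuousOn_const)
    (fun x hx => exp_int (by rw [← hθ' x (Or.inr hx), hF2 x hx]; simp))
  obtain ⟨x₁, hx₁, hx₁'⟩ := hne
  obtain ⟨x₂, hx₂, hx₂'⟩ := hne'
  have e1 := kA x₁ hx₁.1 x₂ hx₂.1
  have e2 := kB x₁ hx₁.2 x₂ hx₂.2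
  have p1 : χ x₁ = 0 := hχ0 ⟨hx₁, hx₁'⟩
  have p2 : χ x₂ = 1 := hχ1 ⟨hx₂, hx₂'⟩
  simp only [p1, p2] at e1 e2
  linarith

/-- **Maximum principle.** -/
theorem pre_slab {Y : Type} [TopologicalSpace Y] [T2Space Y] {ρ : Y → ℝ} (hρ : Continuous ρ)
    {c : ℝ} (hK : IsCompact {x | c ≤ ρ x ∧ ρ x ≤ 0}) (hX : IsPreconnected {x | ρ x = 0})
    (hc : c ≤ 0) (hmax : ∀ x, c ≤ ρ x → ρ x < 0 → ¬ IsLocalMax ρ x) :
    IsPreconnected {x | c ≤ ρ x ∧ ρ x ≤ 0} := by
  rw [isPreconnected_closed_iff]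
  intro t t' ht ht' hcov hne hne'
  by_contra hcon
  rw [Set.not_nonempty_iff_eq_empty] at hcon
  -- in each part the maximum is zero
  have key : ∀ s s' : Set Y, IsClosed s → IsClosed s' →
      {x | c ≤ ρ x ∧ ρ x ≤ 0} ⊆ s ∪ s' → {x | c ≤ ρ x ∧ ρ x ≤ 0} ∩ (s ∩ s') = ∅ →
      ({x | c ≤ ρ x ∧ ρ x ≤ 0} ∩ s).Nonempty → ({x | ρ x = 0} ∩ s).Nonempty := by
    intro s s' hs hs' hcov hemp hne
    obtain ⟨x, hx, hmaxx⟩ := (hK.inter_right hs).exists_isMaxOn hne hρ.continuousOn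
    rcases hx.1.2.eq_or_lt with h0 | h0
    · exact ⟨x, h0, hx.2⟩
    exfalso
    refine hmax x hx.1.1 h0 ?_
    have hxs' : x ∉ s' := fun h => by
      have : x ∈ {x | c ≤ ρ x ∧ ρ x ≤ 0} ∩ (s ∩ s') := ⟨hx.1, hx.2, h⟩
      rw [hemp] at this
      exact this
    have h1 : ∀ᶠ y in 𝓝 x, ρ y < 0 := hρ.continuousAt.eventually_lt_const h0
    filter_upwards [h1, hs'.isOpen_compl.mem_nhds hxs'] with y hy1 hy2
    rcases lt_or_ge (ρ y) c with h2 | h2
    · exact h2.le.trans hx.1.1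
    · have h3 : y ∈ s := (hcov ⟨h2, hy1.le⟩).resolve_right hy2
      exact isMaxOn_iff.1 hmaxx y ⟨⟨h2, hy1.le⟩, h3⟩
  have h1 := key t t' ht ht' hcov hcon hne
  have h2 := key t' t ht' ht (by rw [union_comm]; exact hcov) (by rw [inter_comm t' t]; exact hcon)
    hne'
  have hsub : {x | ρ x = 0} ⊆ {x | c ≤ ρ x ∧ ρ x ≤ 0} := fun x (hx : ρ x = 0) => by
    exact ⟨by rw [hx]; exact hc, hx.le⟩
  obtain ⟨x, hx1, hx2⟩ := (isPreconnected_closed_iff.1 hX) t t' ht ht' (hsub.trans hcov) h1 h2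
  have : x ∈ {x | c ≤ ρ x ∧ ρ x ≤ 0} ∩ (t ∩ t') := ⟨hsub hx1, hx2⟩
  rw [hcon] at this
  exact this

end Pool.Agent.Q196.XG
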