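import Pool.Agent.Q196.XF.Lvl

/-! Slabs without critical points retract upwards. -/

set_option autoImplicit false
set_option linter.unusedSectionVars false

open scoped Topology ContDiff Manifold RealInnerProductSpace Gradient
open Set Metric Filter Bundle Pool.Agent.Q196.XB Pool.Agent.Q196.XF Asymptotics

noncomputable section

namespace Pool.Agent.Q196.XG

variable {E : Type} [NormedAddCommGroup E] [InnerProductSpace ℝ E] [FiniteDimensional ℝ E]
  {N : Type} [TopologicalSpace N] [ChartedSpace E N] [IsManifold 𝓘(ℝ, E) ∞ N]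

/-- A flow along which `g` never decreases and which carries the slab upwards. -/
theorem exists_mono [T2Space N] [SigmaCompactSpace N] {u : N → E}
    (hu : IsLocalDiffeomorph 𝓘(ℝ, E) 𝓘(ℝ, E) ∞ u) {g : N → ℝ}
    (hg : ContMDiff 𝓘(ℝ, E) 𝓘(ℝ, ℝ) ∞ g) {a b : ℝ} (hcomp : IsCompact {x | g x ≤ b})
    (hcr : ∀ x, a ≤ g x → g x ≤ b → gr u g x ≠ 0) :
    ∃ Fl : ℝ → N → N, CFlow Fl ∧ (∀ x, Monotone fun t => g (Fl t x)) ∧
      (∀ x, a ≤ g x → g x ≤ b → ∀ t, 0 < t → g x < g (Fl t x)) ∧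
      (∀ x, a ≤ g x → g x ≤ b → ∃ t, 0 ≤ t ∧ b ≤ g (Fl t x)) := by
  obtain ⟨χ, K', hχ, hK', -, hχ1, hχ0⟩ := Helper186.exists_cutoff 𝓘(ℝ, E) hcomp isOpen_univ
    (subset_univ _)
  set X : N → E := fun x => (χ x * χ x) • gr u g x with hX
  have hXs : ContMDiff 𝓘(ℝ, E) 𝓘(ℝ, E) ∞ X := (hχ.mul hχ).smul (gr_smooth hu hg)
  obtain ⟨Fl, hFl⟩ := exists_flow hu hXs hK' (fun x hx => by
    simp only [hX]
    rw [hχ0 x hx, mul_zero, zero_smul])
  have hX1 : ∀ x, g x ≤ b → X x = gr u g x := by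
    intro x hx
    have : χ x = 1 := hχ1.self_of_nhdsSet x hx
    simp only [hX]
    rw [this, mul_one, one_smul]
  have hd : ∀ x t, HasDerivAt (fun t => g (Fl t x))
      ⟪gr u g (Fl t x), X (Fl t x)⟫ t := fun x t => hFl.deriv g hg x t
  have hpos : ∀ x, 0 ≤ ⟪gr u g x, X x⟫ := by
    intro x
    simp only [hX]
    rw [inner_smul_right, real_inner_self_eq_norm_sq]
    exact mul_nonneg (mul_self_nonneg _) (sq_nonneg _)
  have hmono : ∀ x, Monotone fun t => g (Fl t x) := by
    intro x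
    refine monotone_of_deriv_nonneg (fun t => (hd x t).differentiableAt) fun t => ?_
    rw [(hd x t).deriv]
    exact hpos _
  refine ⟨Fl, ⟨hFl.zero, hFl.add, hFl.cont⟩, hmono, ?_, ?_⟩
  · intro x h1 h2 t ht
    have h3 := hd x 0
    rw [hFl.zero, hX1 x h2, real_inner_self_eq_norm_sq] at h3
    have h4 : 0 < ‖gr u g x‖ ^ 2 := by
      have := norm_pos_iff.2 (hcr x h1 h2)
      positivity
    have h6 : ∀ᶠ r in 𝓝[>] (0:ℝ), 0 < slope (fun t => g (Fl t x)) 0 r :=
      (hasDerivWithinAt_iff_tendsto_slope' (s := Ioi 0) self_notMem_Ioi).1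
        h3.hasDerivWithinAt |>.eventually_const_lt h4
    have h7 : ∀ᶠ r in 𝓝[>] (0:ℝ), r < t := nhdsWithin_le_nhds (gt_mem_nhds ht)
    obtain ⟨r, ⟨hr1, hr2⟩, hr3⟩ := ((h6.and h7).and self_mem_nhdsWithin).exists
    have hr3' : 0 < r := hr3
    rw [slope_def_field, sub_zero, hFl.zero] at hr1
    have h8 : 0 < g (Fl r x) - g x := by
      by_contra hle
      push Not at hle
      have := div_nonpos_of_nonpos_of_nonneg hle hr3'.le
      linarith
    have h9 : g (Fl r x) ≤ g (Fl t x) := hmono x hr2.le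
    linarith
  · intro x h1 h2
    by_contra hne
    push Not at hne
    have hge : ∀ t, 0 ≤ t → g x ≤ g (Fl t x) := by
      intro t ht
      have := hmono x ht
      simp only [hFl.zero] at this
      exact this
    have hK : IsCompact ({x | g x ≤ b} ∩ {x | a ≤ g x}) :=
      hcomp.inter_right (isClosed_le continuous_const hg.continuous)
    have hgc := (gr_smooth hu hg).continuous
    obtain ⟨y, hy, hymin⟩ := hK.exists_isMinOn ⟨x, h2, h1⟩ (f := fun x => ‖gr u g x‖ ^ 2)
      (hgc.norm.pow 2).continuousOn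
    set c : ℝ := ‖gr u g y‖ ^ 2 with hc
    have hc0 : 0 < c := by
      have := norm_pos_iff.2 (hcr y hy.2 hy.1)
      positivity
    have hbound : ∀ t, 0 ≤ t → c * t ≤ g (Fl t x) - g x := by
      intro t ht
      have h3 := (convex_Icc (0:ℝ) t).mul_sub_le_image_sub_of_le_deriv
        (f := fun t => g (Fl t x)) (fun s _ => (hd x s).continuousAt.continuousWithinAt)
        (fun s _ => (hd x s).differentiableAt.differentiableWithinAt) (C := c)
        (fun s hs => by
          rw [interior_Icc] at hs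
          rw [(hd x s).deriv, hX1 _ (hne s hs.1.le).le, real_inner_self_eq_norm_sq]
          exact isMinOn_iff.1 hymin _ ⟨(hne s hs.1.le).le, h1.trans (hge s hs.1.le)⟩)
        0 ⟨le_rfl, ht⟩ t ⟨ht, le_rfl⟩ ht
      simp only [hFl.zero, sub_zero] at h3
      exact h3
    have h5 := hbound ((b - g x) / c) (div_nonneg (by linarith) hc0.le)
    rw [mul_div_cancel₀ _ hc0.ne'] at h5
    have h6 := hne ((b - g x) / c) (div_nonneg (by linarith) hc0.le)
    linarith

/-- **Upward retraction.** -/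
theorem exists_up [T2Space N] [SigmaCompactSpace N] {u : N → E}
    (hu : IsLocalDiffeomorph 𝓘(ℝ, E) 𝓘(ℝ, E) ∞ u) {g : N → ℝ}
    (hg : ContMDiff 𝓘(ℝ, E) 𝓘(ℝ, ℝ) ∞ g) {a b : ℝ} (hab : a ≤ b)
    (hcomp : IsCompact {x | g x ≤ b})
    (hcr : ∀ x, a ≤ g x → g x ≤ b → gr u g x ≠ 0) :
    ∃ R : N → N, ContinuousOn R {x | a ≤ g x} ∧ (∀ x, b ≤ g x → R x = x) ∧
      ∀ x, a ≤ g x → g x ≤ b → g (R x) = b := by
  obtain ⟨Fl, hFl, hmono, hstr, hreach⟩ := exists_mono hu hg hcomp hcr
  set Gl : ℝ → N → N := fun t => Fl (-t) with hGl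
  have hG : CFlow Gl := by
    refine ⟨fun x => ?_, fun s t x => ?_, ?_⟩
    · simp only [hGl]; rw [neg_zero, hFl.zero]
    · simp only [hGl]; rw [neg_add, hFl.add]
    · exact hFl.cont.comp ((continuous_fst.neg).prodMk continuous_snd)
  have hgn : Continuous fun y => -g y := hg.continuous.neg
  have low : ∀ y, -g y ≤ -b → ∀ t, 0 < t → -g (Gl (-t) y) < -b := by
    intro y hy t ht
    simp only [hGl, neg_neg]
    rcases (neg_le_neg_iff.1 hy).eq_or_lt with h | h
    · have := hstr y (by rw [← h]; exact hab) h.ge t ht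
      linarith
    · have := hmono y ht.le
      simp only [hFl.zero] at this
      linarith
  have hV : ∀ x ∈ {x | a ≤ g x}, ∃ t, 0 ≤ t ∧ -g (Gl (-t) x) ≤ -b := by
    intro x hx
    rcases le_or_gt (g x) b with h | h
    · obtain ⟨t, ht, h'⟩ := hreach x hx h
      refine ⟨t, ht, ?_⟩
      simp only [hGl, neg_neg]
      linarith
    · refine ⟨0, le_rfl, ?_⟩
      simp only [hGl, neg_neg]
      rw [hFl.zero]
      linarith
  refine ⟨retC (fun y => -g y) (-b) Gl, retC_cont hG hgn hV low, fun x hx => ?_, fun x h1 h2 => ?_⟩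
  · exact retC_of_le (ρ := fun y => -g y) (c := -b) hG hgn (by
      show -g x ≤ -b
      linarith)
  · have h3 := retC_level (ρ := fun y => -g y) (c := -b) hG hgn (hV x h1) (by
      show -b ≤ -g x
      linarith)
    have h4 : -g (retC (fun y => -g y) (-b) Gl x) = -b := h3
    linarith

end Pool.Agent.Q196.XG
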